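import Pool.Agent.MP_c1dca2_ag.SC3.G0

/-!
# [SC3-G4a] squares in the completions at the finite places

`sq_near`: `y = 1 + 4 t` with `|t| < 1` in the complete field `v.adicCompletion k`. Solve
`w² + w = t` with `|w| < 1`: the iteration `w_{n+1} = t - w_n²` is a contraction
(`|w_{n+1} - w_n| ≤ |w_n + w_{n-1}| |w_n - w_{n-1}|`, `|w_n| ≤ |t| < 1`), the limit satisfies
`(1 + 2 w)² = 1 + 4 (w + w²) = y`. (See the proof of `SEC.l1_isSquare`, file SEC/L1.lean, for Cauchy
sequences in `v.adicCompletion k` with its norm. `4 ≠ 0` in the completion.)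

`sq_modulus`: `M = (8) ∏_{v ∈ S} v`. If `x - y ∈ M`, `x ∉ v`: then `|x| = 1`, and
`x y = x² (1 - (x - y)/x)`, `|(x - y)/x| ≤ |8| |ϖ_v| < |4|`, so `x y` is a square by `sq_near`.

`point_fin`: `f` monic of positive even degree `2 n`, `c` a square in the completion. For
`X = 1/t`, `t` small: `f(X) = X^(2n) f*(t)`, `f*(t) = 1 + a_1 t + ... + a_(2n) t^(2n)` is close to `1`, a
square by `sq_near` (take `t = ϖ^N`, or any nonzero element of small value).

The general Hensel lemma `g4a_hensel` (Newton iteration in a complete ultrametric normed field) is also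
used in G8.
-/

set_option autoImplicit false

open NumberField IsDedekindDomain Polynomial

namespace SC3

section Hensel

variable {L : Type*} [NormedField L] [IsUltrametricDist L]

/-- the unit ball as a subring -/
def g4aO (L : Type*) [NormedField L] [IsUltrametricDist L] : Subring L where
  carrier := {x | ‖x‖ ≤ 1}
  mul_mem' := by
    intro a b ha hb
    change ‖a * b‖ ≤ 1
    rw [norm_mul]
    exact mul_le_one₀ ha (norm_nonneg _) hb
  one_mem' := by change ‖(1 : L)‖ ≤ 1; rw [norm_one]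
  add_mem' := by
    intro a b ha hb
    exact (IsUltrametricDist.norm_add_le_max a b).trans (max_le ha hb)
  zero_mem' := by change ‖(0 : L)‖ ≤ 1; rw [norm_zero]; exact zero_le_one
  neg_mem' := by intro a ha; change ‖-a‖ ≤ 1; rw [norm_neg]; exact ha

theorem g4a_lift (P : L[X]) (hP : ∀ n, ‖P.coeff n‖ ≤ 1) :
    ∃ Q : (g4aO L)[X], Q.map (g4aO L).subtype = P := by
  have h1 : P ∈ Polynomial.lifts (g4aO L).subtype := by
    rw [Polynomial.lifts_iff_coeff_lifts]
    intro n
    exact ⟨⟨P.coeff n, hP n⟩, rfl⟩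
  obtain ⟨Q, hQ⟩ := (Polynomial.mem_lifts _).1 h1
  exact ⟨Q, hQ⟩

/-- second order Taylor estimate -/
theorem g4a_taylor (P : L[X]) (hP : ∀ n, ‖P.coeff n‖ ≤ 1) (x y : L) (hx : ‖x‖ ≤ 1)
    (hy : ‖y‖ ≤ 1) : ‖P.eval (x + y) - P.eval x - P.derivative.eval x * y‖ ≤ ‖y‖ ^ 2 := by
  obtain ⟨Q, rfl⟩ := g4a_lift P hP
  obtain ⟨z, hz⟩ := Q.binomExpansion (⟨x, hx⟩ : g4aO L) ⟨y, hy⟩
  have h1 : ∀ (R : (g4aO L)[X]) (w : g4aO L), (R.map (g4aO L).subtype).eval (w : L) =
      ((R.eval w : g4aO L) : L) := fun R w => Polynomial.eval_map_apply (g4aO L).subtype w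
  have h2 := h1 Q (⟨x, hx⟩ + ⟨y, hy⟩)
  have h3 := h1 Q ⟨x, hx⟩
  have h4 := h1 Q.derivative ⟨x, hx⟩
  rw [hz] at h2
  have h5 : ((⟨x, hx⟩ + ⟨y, hy⟩ : g4aO L) : L) = x + y := rfl
  rw [h5] at h2
  rw [Polynomial.derivative_map, h2, h3, h4]
  have h6 : (((Q.eval ⟨x, hx⟩ + Q.derivative.eval ⟨x, hx⟩ * ⟨y, hy⟩ + z * ⟨y, hy⟩ ^ 2 : g4aO L)) : L)
      - ((Q.eval ⟨x, hx⟩ : g4aO L) : L) - ((Q.derivative.eval ⟨x, hx⟩ : g4aO L) : L) * y =
      (z : L) * y ^ 2 := by
    push_cast
    ring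
  rw [h6, norm_mul, norm_pow]
  have h7 : ‖(z : L)‖ ≤ 1 := z.2
  have h8 : 0 ≤ ‖y‖ ^ 2 := by positivity
  nlinarith

/-- first order estimate -/
theorem g4a_sub (P : L[X]) (hP : ∀ n, ‖P.coeff n‖ ≤ 1) (x y : L) (hx : ‖x‖ ≤ 1)
    (hy : ‖y‖ ≤ 1) : ‖P.eval x - P.eval y‖ ≤ ‖x - y‖ := by
  obtain ⟨Q, rfl⟩ := g4a_lift P hP
  obtain ⟨z, hz⟩ := Q.evalSubFactor (⟨x, hx⟩ : g4aO L) ⟨y, hy⟩
  have h1 : ∀ (R : (g4aO L)[X]) (w : g4aO L), (R.map (g4aO L).subtype).eval (w : L) =
      ((R.eval w : g4aO L) : L) := fun R w => Polynomial.eval_map_apply (g4aO L).subtype w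
  have h2 := h1 Q ⟨x, hx⟩
  have h3 := h1 Q ⟨y, hy⟩
  rw [h2, h3]
  have h6 : ((Q.eval ⟨x, hx⟩ : g4aO L) : L) - ((Q.eval ⟨y, hy⟩ : g4aO L) : L) =
      (z : L) * (x - y) := by
    have h7 := congrArg (fun w : g4aO L => (w : L)) hz
    push_cast at h7
    exact h7
  rw [h6, norm_mul]
  have h7 : ‖(z : L)‖ ≤ 1 := z.2
  have h8 := norm_nonneg (x - y)
  nlinarith

theorem g4a_deriv (P : L[X]) (hP : ∀ n, ‖P.coeff n‖ ≤ 1) (n : ℕ) : ‖P.derivative.coeff n‖ ≤ 1 := by
  obtain ⟨Q, rfl⟩ := g4a_lift P hP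
  rw [Polynomial.derivative_map, Polynomial.coeff_map]
  exact (Q.derivative.coeff n).2

theorem g4a_eval (P : L[X]) (hP : ∀ n, ‖P.coeff n‖ ≤ 1) (x : L) (hx : ‖x‖ ≤ 1) :
    ‖P.eval x‖ ≤ 1 := by
  obtain ⟨Q, rfl⟩ := g4a_lift P hP
  have h1 : (Q.map (g4aO L).subtype).eval x = ((Q.eval ⟨x, hx⟩ : g4aO L) : L) :=
    Polynomial.eval_map_apply (g4aO L).subtype (⟨x, hx⟩ : g4aO L)
  rw [h1]
  exact (Q.eval ⟨x, hx⟩).2

/-- Hensel's lemma in a complete ultrametric normed field. -/
theorem g4a_hensel [CompleteSpace L] (P : L[X]) (hP : ∀ n, ‖P.coeff n‖ ≤ 1) (a : L)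
    (ha : ‖a‖ ≤ 1) (h0 : ‖P.eval a‖ < 1) (h1 : ‖P.derivative.eval a‖ = 1) :
    ∃ x : L, P.eval x = 0 := by
  set c := P.derivative.eval a with hc
  set r := ‖P.eval a‖ with hr
  have hr0 : 0 ≤ r := norm_nonneg _
  have hc0 : c ≠ 0 := by
    intro h
    rw [h, norm_zero] at h1
    exact zero_ne_one h1
  let x : ℕ → L := fun n => Nat.rec a (fun _ y => y - P.eval y / c) n
  have hx0 : x 0 = a := rfl
  have hxs : ∀ n, x (n + 1) = x n - P.eval (x n) / c := fun n => rfl
  have key : ∀ n, ‖x n‖ ≤ 1 ∧ ‖x n - a‖ ≤ r ∧ ‖P.eval (x n)‖ ≤ r * r ^ n := by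
    intro n
    induction n with
    | zero => exact ⟨ha, by rw [hx0, sub_self, norm_zero]; exact hr0, by rw [hx0, pow_zero, mul_one]⟩
    | succ n ih =>
      obtain ⟨i1, i2, i3⟩ := ih
      have hrn : r * r ^ n ≤ r := by
        have := pow_le_one₀ (n := n) hr0 h0.le
        nlinarith
      set h := -(P.eval (x n) / c) with hh
      have hhn : ‖h‖ = ‖P.eval (x n)‖ := by
        rw [hh, norm_neg, norm_div, h1, div_one]
      have hh1 : ‖h‖ ≤ r := by rw [hhn]; exact i3.trans hrn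
      have hxn : x (n + 1) = x n + h := by rw [hxs, hh]; ring
      have j1 : ‖x (n + 1)‖ ≤ 1 := by
        rw [hxn]
        exact (IsUltrametricDist.norm_add_le_max _ _).trans (max_le i1 (hh1.trans h0.le))
      have j2 : ‖x (n + 1) - a‖ ≤ r := by
        have : x (n + 1) - a = (x n - a) + h := by rw [hxn]; ring
        rw [this]
        exact (IsUltrametricDist.norm_add_le_max _ _).trans (max_le i2 hh1)
      refine ⟨j1, j2, ?_⟩
      have t1 := g4a_taylor P hP (x n) h i1 (hh1.trans h0.le)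
      have t2 := g4a_sub P.derivative (g4a_deriv P hP) (x n) a i1 ha
      have e1 : P.eval (x (n + 1)) =
          (P.eval (x n + h) - P.eval (x n) - P.derivative.eval (x n) * h) +
            (P.derivative.eval (x n) - c) * h := by
        rw [hxn]
        have : P.eval (x n) = -(c * h) := by
          rw [hh]; field_simp
        linear_combination (1 : L) * this
      rw [e1]
      refine (IsUltrametricDist.norm_add_le_max _ _).trans (max_le ?_ ?_)
      · refine t1.trans ?_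
        rw [hhn]
        calc ‖P.eval (x n)‖ ^ 2 ≤ (r * r ^ n) ^ 2 := by gcongr
          _ = (r * r ^ n) * (r * r ^ n) := by ring
          _ ≤ (r * r ^ n) * r := by gcongr
          _ = r * r ^ (n + 1) := by ring
      · rw [norm_mul, hhn]
        calc ‖P.derivative.eval (x n) - c‖ * ‖P.eval (x n)‖ ≤ r * (r * r ^ n) := by
              refine mul_le_mul (t2.trans i2) i3 (norm_nonneg _) hr0
          _ = r * r ^ (n + 1) := by ring
  have hC : CauchySeq x := by
    refine cauchySeq_of_le_geometric r r h0 fun n => ?_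
    rw [dist_comm, dist_eq_norm, hxs]
    have : x n - P.eval (x n) / c - x n = -(P.eval (x n) / c) := by ring
    rw [this, norm_neg, norm_div, h1, div_one]
    exact (key n).2.2
  obtain ⟨y, hy⟩ := cauchySeq_tendsto_of_complete hC
  refine ⟨y, ?_⟩
  have t1 : Filter.Tendsto (fun n => P.eval (x n)) Filter.atTop (nhds (P.eval y)) :=
    (P.continuous.tendsto y).comp hy
  have t2 : Filter.Tendsto (fun n => P.eval (x n)) Filter.atTop (nhds 0) := by
    rw [tendsto_zero_iff_norm_tendsto_zero]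
    refine squeeze_zero (fun n => norm_nonneg _) (fun n => (key n).2.2) ?_
    have := (tendsto_pow_atTop_nhds_zero_of_lt_one hr0 h0).const_mul r
    rwa [mul_zero] at this
  exact tendsto_nhds_unique t1 t2

/-- squares near one -/
theorem g4a_sq [CompleteSpace L] (h4 : (4 : L) ≠ 0) (y : L) (hy : ‖y - 1‖ < ‖(4 : L)‖) :
    IsSquare y := by
  set t := (y - 1) / 4 with ht
  have ht1 : ‖t‖ < 1 := by
    rw [ht, norm_div, div_lt_one (norm_pos_iff.2 h4)]
    exact hy
  have hcoeff : ∀ n, ‖(X ^ 2 + X - C t : L[X]).coeff n‖ ≤ 1 := by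
    intro n
    have e : (X ^ 2 + X - C t : L[X]) = X ^ 2 + (X - C t) := by ring
    rw [e, coeff_add, coeff_sub]
    have b1 : ‖(X ^ 2 : L[X]).coeff n‖ ≤ 1 := by
      rw [coeff_X_pow]
      split_ifs
      · rw [norm_one]
      · rw [norm_zero]; exact zero_le_one
    have b2 : ‖(X : L[X]).coeff n‖ ≤ 1 := by
      rw [coeff_X]
      split_ifs
      · rw [norm_one]
      · rw [norm_zero]; exact zero_le_one
    have b3 : ‖(C t : L[X]).coeff n‖ ≤ 1 := by
      rw [coeff_C]
      split_ifs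
      · exact ht1.le
      · rw [norm_zero]; exact zero_le_one
    refine (IsUltrametricDist.norm_add_le_max _ _).trans (max_le b1 ?_)
    rw [sub_eq_add_neg]
    refine (IsUltrametricDist.norm_add_le_max _ _).trans (max_le b2 ?_)
    rw [norm_neg]
    exact b3
  obtain ⟨w, hw⟩ := g4a_hensel (X ^ 2 + X - C t : L[X]) hcoeff 0 (by rw [norm_zero]; exact zero_le_one)
    (by simpa using ht1) (by simp)
  refine ⟨1 + 2 * w, ?_⟩
  have hw' : w ^ 2 + w - t = 0 := by simpa using hw
  have h5 : 4 * t = y - 1 := by rw [ht]; field_simp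
  linear_combination (-1 : L) * h5 + (-4 : L) * hw'

end Hensel

section Fin

variable {k : Type} [Field k] [NumberField k] (v : HeightOneSpectrum (𝓞 k))

theorem g4a_ultra : IsUltrametricDist (v.adicCompletion k) := by
  refine IsUltrametricDist.isUltrametricDist_of_forall_norm_add_le_max_norm fun x y => ?_
  rw [FinitePlace.norm_def, FinitePlace.norm_def, FinitePlace.norm_def, ← NNReal.coe_max]
  have hm := (WithZeroMulInt.toNNReal_strictMono
    (NumberField.HeightOneSpectrum.one_lt_absNorm_nnreal v)).monotone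
  rw [NNReal.coe_le_coe, ← hm.map_max]
  exact hm (Valuation.map_add _ x y)

theorem g4a_norm_lt {x y : v.adicCompletion k} : ‖x‖ < ‖y‖ ↔ Valued.v x < Valued.v y := by
  rw [FinitePlace.norm_def, FinitePlace.norm_def, NNReal.coe_lt_coe]
  exact (WithZeroMulInt.toNNReal_strictMono
    (NumberField.HeightOneSpectrum.one_lt_absNorm_nnreal v)).lt_iff_lt

theorem g4a_charZero : CharZero (v.adicCompletion k) :=
  charZero_of_injective_algebraMap (algebraMap k (v.adicCompletion k)).injective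

theorem g4a_complete : CompleteSpace (v.adicCompletion k) := inferInstance

end Fin

theorem sq_near {k : Type} [Field k] [NumberField k] (v : HeightOneSpectrum (𝓞 k))
    (y : v.adicCompletion k)
    (hy : Valued.v (y - 1) < Valued.v (4 : v.adicCompletion k)) : IsSquare y := by
  have := g4a_ultra v
  have := g4a_charZero v
  exact g4a_sq (by norm_num) y ((g4a_norm_lt v).2 hy)

theorem g4a_norm_map {k : Type} [Field k] [NumberField k] (v : HeightOneSpectrum (𝓞 k)) (x : k) :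
    algebraMap k (v.adicCompletion k) x = FinitePlace.embedding v x := rfl

theorem sq_modulus {k : Type} [Field k] [NumberField k] (S : Set (HeightOneSpectrum (𝓞 k)))
    (hS : S.Finite) : ∃ M : Ideal (𝓞 k), M ≠ ⊥ ∧ ∀ x y : 𝓞 k, (∀ v ∈ S, x ∉ v.asIdeal) →
      x - y ∈ M → ∀ v ∈ S, IsSquare (algebraMap k (v.adicCompletion k) ((x * y : 𝓞 k) : k)) := by
  classical
  refine ⟨Ideal.span {(8 : 𝓞 k)} * ∏ v ∈ hS.toFinset, v.asIdeal, ?_, ?_⟩
  · rw [← Ideal.zero_eq_bot]
    refine mul_ne_zero ?_ (Finset.prod_ne_zero_iff.2 fun v _ => v.ne_bot)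
    rw [Ideal.zero_eq_bot, Ne, Ideal.span_singleton_eq_bot]
    norm_num
  · intro x y hx hxy v hv
    have := g4a_ultra v
    have := g4a_charZero v
    have h1 : x - y ∈ Ideal.span {(8 : 𝓞 k)} * v.asIdeal :=
      Ideal.mul_mono_right (Ideal.le_of_dvd (Finset.dvd_prod_of_mem _ (hS.mem_toFinset.2 hv))) hxy
    obtain ⟨z, hz, hzx⟩ := Ideal.mem_span_singleton_mul.1 h1
    let φ : 𝓞 k →+* v.adicCompletion k :=
      (algebraMap k (v.adicCompletion k)).comp (algebraMap (𝓞 k) k)
    have hnx : ‖φ x‖ = 1 := (FinitePlace.norm_eq_one_iff_notMem (K := k) v x).2 (hx v hv)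
    have hnz : ‖φ z‖ < 1 := (FinitePlace.norm_lt_one_iff_mem (K := k) v z).2 hz
    have hn2 : ‖(2 : v.adicCompletion k)‖ ≤ 1 := by
      have := SEC.l1_norm_int_le k v 2
      exact_mod_cast this
    have hx0 : φ x ≠ 0 := by
      intro h
      rw [h, norm_zero] at hnx
      exact zero_ne_one hnx
    have hmul : φ (x * y) = φ x * φ y := map_mul φ x y
    have hsub : φ x - φ y = 8 * φ z := by
      rw [← map_sub φ, ← hzx, map_mul φ, map_ofNat φ]
    have h4 : IsSquare (φ y / φ x) := by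
      refine g4a_sq (by norm_num) _ ?_
      have h5 : φ y / φ x - 1 = -(8 * φ z) / φ x := by
        field_simp
        linear_combination (-1 : v.adicCompletion k) * hsub
      have h6 : ‖(8 : v.adicCompletion k)‖ ≤ ‖(4 : v.adicCompletion k)‖ := by
        have : (8 : v.adicCompletion k) = 4 * 2 := by norm_num
        rw [this, norm_mul]
        have h0 := norm_nonneg (4 : v.adicCompletion k)
        nlinarith
      have h7 : 0 < ‖(4 : v.adicCompletion k)‖ := norm_pos_iff.2 (by norm_num)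
      have h8 : 0 < ‖(8 : v.adicCompletion k)‖ := norm_pos_iff.2 (by norm_num)
      rw [h5, norm_div, hnx, div_one, norm_neg, norm_mul]
      nlinarith
    change IsSquare (φ (x * y))
    obtain ⟨s, hs⟩ := h4
    refine ⟨φ x * s, ?_⟩
    rw [hmul]
    have h9 : φ y = s * s * φ x := by rw [← hs]; field_simp
    rw [h9]
    ring

theorem point_fin {k : Type} [Field k] [NumberField k] (v : HeightOneSpectrum (𝓞 k)) (f : k[X])
    (hf : f.Monic) (he : Even f.natDegree) (hpos : 0 < f.natDegree) (c : k)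
    (hc : IsSquare (algebraMap k (v.adicCompletion k) c)) :
    ∃ X Y : v.adicCompletion k,
      Y ^ 2 = eval X ((C c * f).map (algebraMap k (v.adicCompletion k))) := by
  have := g4a_ultra v
  have := g4a_charZero v
  obtain ⟨l, hl, hlv⟩ := SEC.l1_exists_prime k v
  have hl1 := SEC.l1_norm_lt k v hlv
  have hl0 : (l : v.adicCompletion k) ≠ 0 := by exact_mod_cast hl.ne_zero
  set g : (v.adicCompletion k)[X] := f.map (algebraMap k (v.adicCompletion k)) with hg
  have hgm : g.Monic := hf.map _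
  have hgd : g.natDegree = f.natDegree := hf.natDegree_map _
  have t1 : Filter.Tendsto (fun n : ℕ => (l : v.adicCompletion k) ^ n) Filter.atTop (nhds 0) :=
    tendsto_pow_atTop_nhds_zero_of_norm_lt_one hl1
  have t2 : Filter.Tendsto (fun n : ℕ => g.reverse.eval ((l : v.adicCompletion k) ^ n)) Filter.atTop
      (nhds (g.reverse.eval 0)) := (g.reverse.continuous.tendsto 0).comp t1
  have e0 : g.reverse.eval 0 = 1 := by
    rw [← coeff_zero_eq_eval_zero, coeff_zero_reverse]
    exact hgm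
  rw [e0, tendsto_iff_norm_sub_tendsto_zero] at t2
  obtain ⟨n, hn⟩ := (t2.eventually (gt_mem_nhds
    (norm_pos_iff.2 (by norm_num : (4 : v.adicCompletion k) ≠ 0)))).exists
  set t := (l : v.adicCompletion k) ^ n with ht
  have ht0 : t ≠ 0 := pow_ne_zero _ hl0
  obtain ⟨s, hs⟩ := g4a_sq (by norm_num) _ hn
  obtain ⟨γ, hγ⟩ := hc
  obtain ⟨m, hm⟩ := he
  refine ⟨t⁻¹, γ * s * (t⁻¹) ^ m, ?_⟩
  let _ : Invertible t⁻¹ := invertibleOfNonzero (inv_ne_zero ht0)
  have h1 := eval₂_reverse_mul_pow (RingHom.id (v.adicCompletion k)) t⁻¹ g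
  have h2 : ⅟(t⁻¹) = t := by rw [invOf_eq_inv, inv_inv]
  rw [h2, hgd, hm] at h1
  rw [Polynomial.map_mul, Polynomial.map_C, eval_mul, eval_C, ← hg]
  have h3 : eval t⁻¹ g = eval t g.reverse * t⁻¹ ^ (m + m) := by
    rw [eval, eval]
    exact h1.symm
  rw [h3, hγ, hs]
  ring

end SC3
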