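import Pool.Agent.MP_c1dca2_ag.SC3.G0
import Pool.Agent.MP_c1dca2_ag.SC3.G4a

/-!
# [SC3-G8] roots in the completions at good places

`hensel_completion`: Hensel's lemma (Newton iteration) in the complete valued field
`v.adicCompletion k` for a polynomial with `v`-integral coefficients: `F(a)` is in the maximal ideal,
`F'(a)` a unit. (`v.adicCompletionIntegers k` is `m`-adically complete; or do the iteration
`x_{n+1} = x_n - F(x_n)/F'(a)` (a contraction on `{x : |x - a| < 1}`:
`F(x) - F(x') = (x - x') (F'(a) + small)`), see `SEC.l1_isSquare` (SEC/L1.lean) for Cauchy sequences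
in `v.adicCompletion k`.)

`root_local`: `L = AlgebraicClosure k`, `V` above `A` (`SC2.exists_above`), `φ` a Frobenius element
(`SC2.exists_frob`), `f.SplittingField → L` a `k`-embedding with normal image: `φ` induces an
automorphism of `f.SplittingField`, which fixes a root (`H1`); so `φ r = r` for a root
`r ∈ L` of `f`. `r ∈ V` and `r^q ≡ φ r = r` modulo the maximal ideal of `V`; by
`SC2.root_not_fixed` (SC2/C2.lean; contraposed) the reduction of `F` (`F.map A.subtype = f`) has a root
`ā` in the residue field of `A`; let `a ∈ A` lift it: `F(a) ∈ m`, `F'(a) ∉ m` as the reduction is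
separable. Apply `hensel_completion` (`IsVal.mem`, `IsVal.lt`).
-/

set_option autoImplicit false

open Polynomial NumberField IsDedekindDomain IsLocalRing

namespace SC3

section

variable {k : Type} [Field k] [NumberField k] (v : HeightOneSpectrum (𝓞 k))

theorem g8_norm (x : k) : ‖algebraMap k (v.adicCompletion k) x‖ =
    (WithZeroMulInt.toNNReal (NumberField.HeightOneSpectrum.absNorm_ne_zero v)
      (v.valuation k x) : ℝ) :=
  FinitePlace.norm_embedding' v x

theorem g8_le {x : k} (h : v.valuation k x ≤ 1) : ‖algebraMap k (v.adicCompletion k) x‖ ≤ 1 := by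
  rw [g8_norm]
  exact_mod_cast (WithZeroMulInt.toNNReal_le_one_iff
    (NumberField.HeightOneSpectrum.one_lt_absNorm_nnreal v)).2 h

theorem g8_lt {x : k} (h : v.valuation k x < 1) : ‖algebraMap k (v.adicCompletion k) x‖ < 1 := by
  rw [g8_norm]
  exact_mod_cast (WithZeroMulInt.toNNReal_lt_one_iff
    (NumberField.HeightOneSpectrum.one_lt_absNorm_nnreal v)).2 h

theorem g8_eq {x : k} (h : v.valuation k x = 1) : ‖algebraMap k (v.adicCompletion k) x‖ = 1 := by
  rw [g8_norm, h, map_one]
  rfl

end

theorem hensel_completion {k : Type} [Field k] [NumberField k] (v : HeightOneSpectrum (𝓞 k))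
    (F : k[X]) (hF : ∀ n, v.valuation k (F.coeff n) ≤ 1) (a : k) (ha : v.valuation k a ≤ 1)
    (h0 : v.valuation k (F.eval a) < 1) (h1 : v.valuation k (F.derivative.eval a) = 1) :
    ∃ X : v.adicCompletion k, eval X (F.map (algebraMap k (v.adicCompletion k))) = 0 := by
  have := g4a_ultra v
  refine g4a_hensel (F.map (algebraMap k (v.adicCompletion k))) ?_
    (algebraMap k (v.adicCompletion k) a) (g8_le v ha) ?_ ?_
  · intro n
    rw [coeff_map]
    exact g8_le v (hF n)
  · rw [eval_map_apply]
    exact g8_lt v h0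
  · rw [derivative_map, eval_map_apply]
    exact g8_eq v h1

theorem root_local {k : Type} [Field k] [NumberField k] (f : k[X])
    (v : HeightOneSpectrum (𝓞 k)) (A : ValuationSubring k) (hA : IsVal v A) (hf : GoodAt A f)
    (H1 : ∀ σ : f.SplittingField ≃ₐ[k] f.SplittingField,
      ∃ r : f.SplittingField, aeval r f = 0 ∧ σ r = r) :
    ∃ X : v.adicCompletion k, eval X (f.map (algebraMap k (v.adicCompletion k))) = 0 := by
  have hdvr := hA.dvr
  have hfin := hA.fin
  obtain ⟨F, hFf, hsep, hdeg⟩ := hf.red
  obtain ⟨V, hV⟩ := SC2.exists_above (C := AlgebraicClosure k) A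
  obtain ⟨φ, hφ⟩ := SC2.exists_frob hV
  -- a root fixed by the Frobenius element
  obtain ⟨ρ, hρ, hρφ⟩ : ∃ ρ : AlgebraicClosure k, aeval ρ f = 0 ∧ φ ρ = ρ := by
    let ι : f.SplittingField →ₐ[k] AlgebraicClosure k := IsAlgClosed.lift
    let _ := ι.toRingHom.toAlgebra
    have : IsScalarTower k f.SplittingField (AlgebraicClosure k) :=
      IsScalarTower.of_algebraMap_eq fun x => (ι.commutes x).symm
    obtain ⟨r, hr, hσ⟩ := H1 (φ.restrictNormal f.SplittingField)
    refine ⟨ι r, ?_, ?_⟩
    · rw [aeval_algHom_apply, hr, map_zero]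
    · have h1 := φ.restrictNormal_commutes f.SplittingField r
      rw [hσ] at h1
      exact h1.symm
  have hev : ((F.map A.subtype).map (algebraMap k (AlgebraicClosure k))).eval ρ = 0 := by
    rw [hFf, eval_map_algebraMap]
    exact hρ
  have hρV : ρ ∈ V := by
    obtain ⟨r, l, hl, hprod, hmem, -⟩ := SC2.exists_roots hV F hsep hdeg
    rw [hprod, eval_mul, eval_C, eval_prod] at hev
    have hl0 : algebraMap k (AlgebraicClosure k) l ≠ 0 := by
      intro h
      rw [h, map_zero] at hl
      exact zero_ne_one hl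
    obtain ⟨i, -, hi⟩ := Finset.prod_eq_zero_iff.1 ((mul_eq_zero.1 hev).resolve_left hl0)
    rw [eval_sub, eval_X, eval_C, sub_eq_zero] at hi
    rw [hi]
    exact hmem i
  obtain ⟨abar, habar⟩ : ∃ a, (F.map (residue A)).eval a = 0 := by
    by_contra hcon
    push Not at hcon
    refine SC2.root_not_fixed hV F hcon ρ hρV hev ?_
    have h1 := hφ.frob ρ hρV
    rw [hρφ] at h1
    have h2 : ρ ^ Nat.card (ResidueField A) - ρ = -(ρ - ρ ^ Nat.card (ResidueField A)) := by ring
    rw [h2]
    rw [ValuationSubring.mem_nonunits_iff] at h1 ⊢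
    rw [Valuation.map_neg]
    exact h1
  obtain ⟨a, rfl⟩ := residue_surjective abar
  have e1 : ∀ G : A[X], (G.map A.subtype).eval (a : k) = ((G.eval a : A) : k) :=
    fun G => eval_map_apply A.subtype a
  refine hensel_completion v f ?_ (a : k) ((hA.mem _).1 a.2) ?_ ?_
  · intro n
    rw [← hFf, coeff_map]
    exact (hA.mem _).1 (F.coeff n).2
  · rw [← hFf, e1, ← hA.lt]
    rw [eval_map_apply] at habar
    rw [← A.valuation_lt_one_iff]
    exact (residue_eq_zero_iff _).1 habar
  · rw [← hFf, derivative_map, e1]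
    have h1 : residue A (F.derivative.eval a) ≠ 0 := by
      rw [← eval_map_apply, ← derivative_map]
      exact hsep.eval₂_derivative_ne_zero (RingHom.id _) habar
    refine le_antisymm ((hA.mem _).1 (F.derivative.eval a).2) (not_lt.1 fun h2 => h1 ?_)
    rw [← hA.lt, ← A.valuation_lt_one_iff] at h2
    exact (residue_eq_zero_iff _).2 h2

end SC3
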