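import Pool.Agent.MP_c1dca2_ag.SC3.G0

/-!
# [SC3-G2] finiteness of the group of the classes which are even outside `S`

Proof. Case `S = ∅`: for an integral `z ≠ 0` which is even everywhere, `(z) = 𝔞²`; the class of `𝔞` is a
2-torsion class, and if `z`, `z'` have the same class then `(z z') = (𝔞 𝔞')²` with `𝔞 𝔞'` principal `= (t)`,
hence `z z' ε = t²` with a unit `ε`. Finitely many classes, and finitely many units modulo squares.
General `S`: induction, adding one place.
-/

set_option autoImplicit false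

open NumberField IsDedekindDomain

namespace SC3

/-- Finitely many units modulo squares. -/
private theorem g2_units (k : Type) [Field k] [NumberField k] :
    ∃ E : Finset (𝓞 k)ˣ, ∀ ε : (𝓞 k)ˣ, ∃ e ∈ E, IsSquare (ε * e) := by
  classical
  have hfg : Group.FG (𝓞 k)ˣ := Group.fg_iff_monoid_fg.2 inferInstance
  let Q := (𝓞 k)ˣ ⧸ (powMonoidHom 2 : (𝓞 k)ˣ →* (𝓞 k)ˣ).range
  have hQ : Finite Q := by
    have : Group.FG Q := inferInstance
    refine CommGroup.finite_of_fg_isMulTorsion (G := Q) ?_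
    intro q
    induction q using QuotientGroup.induction_on with
    | H x =>
      rw [isOfFinOrder_iff_pow_eq_one]
      refine ⟨2, by norm_num, ?_⟩
      rw [← QuotientGroup.mk_pow, QuotientGroup.eq_one_iff]
      exact ⟨x, rfl⟩
  have := Fintype.ofFinite Q
  refine ⟨Finset.univ.image (fun q : Q => (Quotient.out q)⁻¹), fun ε => ?_⟩
  refine ⟨(Quotient.out (QuotientGroup.mk ε : Q))⁻¹, Finset.mem_image_of_mem _ (Finset.mem_univ _), ?_⟩
  have h1 : (QuotientGroup.mk (Quotient.out (QuotientGroup.mk ε : Q)) : Q) = QuotientGroup.mk ε :=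
    Quotient.out_eq' _
  rw [QuotientGroup.eq] at h1
  obtain ⟨y, hy⟩ := h1
  have hy2 : y ^ 2 = (Quotient.out (QuotientGroup.mk ε : Q))⁻¹ * ε := hy
  exact ⟨y, by rw [mul_comm, ← hy2, pow_two]⟩

/-- An integral element even at `v` has an even exponent of `v`. -/
private theorem g2_count {k : Type} [Field k] [NumberField k] {v : HeightOneSpectrum (𝓞 k)}
    {z : 𝓞 k} (hz : z ≠ 0) (h : Ev v (z : k)) :
    Even ((Associates.mk v.asIdeal).count (Associates.mk (Ideal.span {z} : Ideal (𝓞 k))).factors) := by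
  obtain ⟨b, hb⟩ := h
  rw [show (z : k) = algebraMap (𝓞 k) k z from rfl, v.valuation_of_algebraMap,
    v.intValuation_if_neg hz] at hb
  have hb0 : v.valuation k b ≠ 0 := by
    intro h0
    rw [h0] at hb
    exact WithZero.exp_ne_zero (by rw [hb]; simp)
  rw [← WithZero.exp_log hb0, ← WithZero.exp_nsmul, WithZero.exp_inj] at hb
  have h2 : (((Associates.mk v.asIdeal).count
      (Associates.mk (Ideal.span {z} : Ideal (𝓞 k))).factors : ℕ) : ℤ) =
      -(2 * WithZero.log (v.valuation k b)) := by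
    rw [nsmul_eq_mul] at hb
    push_cast at hb
    linarith
  have h3 : Even (((Associates.mk v.asIdeal).count
      (Associates.mk (Ideal.span {z} : Ideal (𝓞 k))).factors : ℕ) : ℤ) := by
    rw [h2, even_neg]
    exact even_two_mul _
  exact_mod_cast h3

/-- An integral element which is even everywhere generates the square of an ideal. -/
private theorem g2_sqrt {k : Type} [Field k] [NumberField k] {z : 𝓞 k} (hz : z ≠ 0)
    (h : ∀ v : HeightOneSpectrum (𝓞 k), Ev v (z : k)) :
    ∃ J : Ideal (𝓞 k), J ^ 2 = Ideal.span {z} := by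
  classical
  have hI : (Ideal.span {z} : Ideal (𝓞 k)) ≠ 0 := by
    rw [Ne, Ideal.zero_eq_bot, Ideal.span_singleton_eq_bot]
    exact hz
  have hfin := Ideal.hasFiniteMulSupport hI
  set c : HeightOneSpectrum (𝓞 k) → ℕ := fun v =>
    (Associates.mk v.asIdeal).count (Associates.mk (Ideal.span {z} : Ideal (𝓞 k))).factors with hc
  have hcf : {v | c v ≠ 0}.Finite := by
    have := Associates.finite_factors hI
    rw [Filter.eventually_cofinite] at this
    refine this.subset ?_
    intro v hv h0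
    exact hv (by exact_mod_cast h0)
  have hf : Function.mulSupport (fun v : HeightOneSpectrum (𝓞 k) => v.asIdeal ^ (c v / 2)) ⊆
      {v | c v ≠ 0} := by
    intro v hv h0
    exact hv (by
      show v.asIdeal ^ (c v / 2) = 1
      rw [h0]; simp)
  refine ⟨∏ᶠ v : HeightOneSpectrum (𝓞 k), v.asIdeal ^ (c v / 2), ?_⟩
  rw [← Ideal.finprod_heightOneSpectrum_factorization hI, finprod_pow (hcf.subset hf)]
  refine finprod_congr fun v => ?_
  rw [← pow_mul, HeightOneSpectrum.maxPowDividing]
  congr 1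
  exact Nat.div_mul_cancel (g2_count hz (h v)).two_dvd

/-- Clear denominators by a square. -/
private theorem g2_int {k : Type} [Field k] [NumberField k] {d : k} (hd : d ≠ 0) :
    ∃ (z : 𝓞 k) (m : k), z ≠ 0 ∧ m ≠ 0 ∧ (z : k) = d * m ^ 2 := by
  obtain ⟨a, b, hb, hab⟩ := IsFractionRing.div_surjective (A := 𝓞 k) d
  have hb0 : (b : k) ≠ 0 := by
    have := nonZeroDivisors.ne_zero hb
    simpa using this
  have hab' : (a : k) / (b : k) = d := hab
  refine ⟨a * b, b, ?_, hb0, ?_⟩
  · intro h0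
    have : (a : k) * (b : k) = 0 := by
      have := congrArg (fun x : 𝓞 k => (x : k)) h0
      simpa using this
    rcases mul_eq_zero.1 this with h | h
    · apply hd
      rw [← hab', h, zero_div]
    · exact hb0 h
  · rw [← hab']
    push_cast
    field_simp

private theorem g2_empty (k : Type) [Field k] [NumberField k] :
    ∃ U : Finset k, (∀ u ∈ U, u ≠ 0 ∧ ∀ v : HeightOneSpectrum (𝓞 k), Ev v u) ∧
      ∀ d : k, d ≠ 0 → (∀ v : HeightOneSpectrum (𝓞 k), Ev v d) → ∃ u ∈ U, IsSquare (d * u) := by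
  classical
  obtain ⟨E, hE⟩ := g2_units k
  let P : ClassGroup (𝓞 k) → 𝓞 k → Prop := fun c z => z ≠ 0 ∧
    ∃ J : nonZeroDivisors (Ideal (𝓞 k)), (J : Ideal (𝓞 k)) ^ 2 = Ideal.span {z} ∧
      ClassGroup.mk0 J = c
  have hP : ∀ c, ∃ z : 𝓞 k, (∃ y, P c y) → P c z := by
    intro c
    by_cases h : ∃ y, P c y
    · exact ⟨h.choose, fun _ => h.choose_spec⟩
    · exact ⟨1, fun h' => absurd h' h⟩
  choose x hx using hP
  let V : Finset k := (Finset.univ ×ˢ E).image fun p : ClassGroup (𝓞 k) × (𝓞 k)ˣ =>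
    ((x p.1 : 𝓞 k) : k) * (((p.2 : (𝓞 k)ˣ) : 𝓞 k) : k)
  refine ⟨V.filter fun u => u ≠ 0 ∧ ∀ v : HeightOneSpectrum (𝓞 k), Ev v u,
    fun u hu => (Finset.mem_filter.1 hu).2, ?_⟩
  intro d hd hev
  obtain ⟨z, m, hz, hm, hzm⟩ := g2_int hd
  have hevz : ∀ v : HeightOneSpectrum (𝓞 k), Ev v (z : k) := by
    intro v
    rw [hzm]
    exact (hev v).mul (Ev.of_sq ⟨m, pow_two m⟩)
  obtain ⟨J, hJ⟩ := g2_sqrt hz hevz
  have hJ0 : J ≠ 0 := by
    rintro rfl
    rw [zero_pow two_ne_zero] at hJ
    have := hJ.symm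
    rw [Ideal.zero_eq_bot, Ideal.span_singleton_eq_bot] at this
    exact hz this
  let J' : nonZeroDivisors (Ideal (𝓞 k)) := ⟨J, mem_nonZeroDivisors_of_ne_zero hJ0⟩
  set c := ClassGroup.mk0 J' with hc
  have hPz : P c z := ⟨hz, J', hJ, rfl⟩
  obtain ⟨hw0, K, hK, hKc⟩ := hx c ⟨z, hPz⟩
  set w := x c with hw
  have hc2 : c ^ 2 = 1 := by
    have h1 : c ^ 2 = ClassGroup.mk0 (J' ^ 2) := by rw [map_pow]
    have h2 : ((J' ^ 2 : nonZeroDivisors (Ideal (𝓞 k))) : Ideal (𝓞 k)) = Ideal.span {z} := by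
      rw [SubmonoidClass.coe_pow]
      exact hJ
    rw [h1]
    have h3 : J' ^ 2 = ⟨Ideal.span {z}, by rw [← h2]; exact (J' ^ 2).2⟩ := Subtype.ext h2
    rw [h3, ClassGroup.mk0_eq_one_iff]
    exact ⟨⟨z, rfl⟩⟩
  have hJK : ClassGroup.mk0 (J' * K) = 1 := by
    rw [map_mul, ← hc, hKc, ← pow_two, hc2]
  have hpr : (((J' * K : nonZeroDivisors (Ideal (𝓞 k))) : Ideal (𝓞 k))).IsPrincipal := by
    exact (ClassGroup.mk0_eq_one_iff (J' * K).2).1 hJK
  obtain ⟨t, ht⟩ := hpr.principal
  have ht' : J * (K : Ideal (𝓞 k)) = Ideal.span {t} := ht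
  have hspan : (Ideal.span {z * w} : Ideal (𝓞 k)) = Ideal.span {t ^ 2} := by
    rw [← Ideal.span_singleton_mul_span_singleton, ← Ideal.span_singleton_pow, ← ht', ← hJ, ← hK,
      mul_pow]
  rw [Ideal.span_singleton_eq_span_singleton] at hspan
  obtain ⟨ε, hε⟩ := hspan
  obtain ⟨e, he, η, hη⟩ := hE ε⁻¹
  -- z * w * ε = t ^ 2, ε⁻¹ * e = η * η
  have h0 : ((z : k) * (w : k)) * ((ε : 𝓞 k) : k) = (t : k) ^ 2 := by
    have := congrArg (fun x : 𝓞 k => (x : k)) hε
    simpa using this
  have hee : ((e : 𝓞 k) : k) = ((ε : 𝓞 k) : k) * ((η : 𝓞 k) : k) ^ 2 := by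
    have h1 : e = ε * (η * η) := by rw [← hη]; group
    have := congrArg (fun x : (𝓞 k)ˣ => ((x : 𝓞 k) : k)) h1
    simp only [Units.val_mul] at this
    rw [this]
    push_cast
    ring
  have hsq : IsSquare (d * ((w : k) * ((e : 𝓞 k) : k))) := by
    refine ⟨(t : k) * ((η : 𝓞 k) : k) / m, ?_⟩
    have h1 : d = (z : k) / m ^ 2 := by
      rw [hzm]; field_simp
    rw [h1, hee]
    field_simp
    linear_combination h0
  have hne : (w : k) * ((e : 𝓞 k) : k) ≠ 0 := by
    refine mul_ne_zero ?_ ?_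
    · simpa using hw0
    · simp
  refine ⟨(w : k) * ((e : 𝓞 k) : k), Finset.mem_filter.2 ⟨Finset.mem_image.2
    ⟨(c, e), Finset.mem_product.2 ⟨Finset.mem_univ _, he⟩, rfl⟩, hne, fun v => ?_⟩, hsq⟩
  exact (hev v).of_mul hd (Ev.of_sq hsq)

theorem finite_sel {k : Type} [Field k] [NumberField k] (S : Set (HeightOneSpectrum (𝓞 k)))
    (hS : S.Finite) :
    ∃ U : Finset k, (∀ u ∈ U, u ≠ 0 ∧ ∀ v, v ∉ S → Ev v u) ∧
      ∀ d : k, d ≠ 0 → (∀ v, v ∉ S → Ev v d) → ∃ u ∈ U, IsSquare (d * u) := by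
  classical
  induction S, hS using Set.Finite.induction_on with
  | empty =>
    obtain ⟨U, h1, h2⟩ := g2_empty k
    exact ⟨U, fun u hu => ⟨(h1 u hu).1, fun v _ => (h1 u hu).2 v⟩,
      fun d hd hev => h2 d hd fun v => hev v (by simp)⟩
  | @insert w S hw hS ih =>
    obtain ⟨U, h1, h2⟩ := ih
    by_cases hex : ∃ d0 : k, d0 ≠ 0 ∧ (∀ v, v ∉ insert w S → Ev v d0) ∧ ¬ Ev w d0
    · obtain ⟨d0, hd0, hev0, hodd⟩ := hex
      refine ⟨U ∪ U.image fun u => d0 * u, ?_, ?_⟩
      · intro u hu
        rcases Finset.mem_union.1 hu with hu | hu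
        · exact ⟨(h1 u hu).1, fun v hv => (h1 u hu).2 v fun h => hv (Set.mem_insert_of_mem _ h)⟩
        · obtain ⟨u', hu', rfl⟩ := Finset.mem_image.1 hu
          exact ⟨mul_ne_zero hd0 (h1 u' hu').1, fun v hv => (hev0 v hv).mul
            ((h1 u' hu').2 v fun h => hv (Set.mem_insert_of_mem _ h))⟩
      · intro d hd hev
        by_cases hdw : Ev w d
        · obtain ⟨u, hu, hsq⟩ := h2 d hd (by
            intro v hv
            by_cases hvw : v = w
            · rw [hvw]; exact hdw
            · exact hev v (by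
                intro h
                rcases Set.mem_insert_iff.1 h with h | h
                · exact hvw h
                · exact hv h))
          exact ⟨u, Finset.mem_union_left _ hu, hsq⟩
        · obtain ⟨u, hu, hsq⟩ := h2 (d * d0) (mul_ne_zero hd hd0) (by
            intro v hv
            by_cases hvw : v = w
            · rw [hvw]; exact ev_of_not hdw hodd
            · have hv' : v ∉ insert w S := by
                intro h
                rcases Set.mem_insert_iff.1 h with h | h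
                · exact hvw h
                · exact hv h
              exact (hev v hv').mul (hev0 v hv'))
          refine ⟨d0 * u, Finset.mem_union_right _ (Finset.mem_image_of_mem _ hu), ?_⟩
          rw [← mul_assoc]
          exact hsq
    · push Not at hex
      refine ⟨U, fun u hu => ⟨(h1 u hu).1, fun v hv => (h1 u hu).2 v
        fun h => hv (Set.mem_insert_of_mem _ h)⟩, fun d hd hev => h2 d hd ?_⟩
      intro v hv
      by_cases hvw : v = w
      · rw [hvw]; exact hex d hd hev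
      · exact hev v (by
          intro h
          rcases Set.mem_insert_iff.1 h with h | h
          · exact hvw h
          · exact hv h)

end SC3
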