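import Pool.Agent.MP_c1dca2_ag.SC2.F
import Pool.Agent.MP_c1dca2_ag.SC4.F

/-!
# [SC3] everywhere locally soluble curves of index one without sections: definitions
-/

set_option autoImplicit false

open Polynomial IsLocalRing SEC SC2

namespace SC3

/-- `f` has good reduction at the discrete valuation ring `A` of odd residue characteristic:
coefficients in `A`, unit leading coefficient, separable reduction. -/
structure GoodAt {k : Type} [Field k] (A : ValuationSubring k) (f : k[X]) : Prop where
  dvr : IsDiscreteValuationRing A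
  fin : Finite (ResidueField A)
  two : (2 : ResidueField A) ≠ 0
  red : ∃ F : A[X], F.map A.subtype = f ∧ (F.map (residue A)).Separable ∧
    (F.map (residue A)).natDegree = F.natDegree

/-- The value of `d` is the square of a value. -/
def EvA {k : Type} [Field k] (A : ValuationSubring k) (d : k) : Prop :=
  ∃ b : k, A.valuation d = A.valuation b ^ 2

/-- The local information at `A` about the class `d` of a section or a point of `y² = c g(x) h(x)`
(the class which describes the action on `√g(x)`). -/
structure Out {k C : Type} [Field k] [Field C] [Algebra k C] (A : ValuationSubring k)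
    (V : ValuationSubring C) (c : k) (g h : k[X]) (d : k) : Prop where
  /-- `c` even: `d` is even -/
  even : EvA A c → EvA A d
  /-- `c` odd, no root of `h` is fixed by Frobenius: `d` is odd -/
  odd : ¬ EvA A c → ∀ φ : C ≃ₐ[k] C, Frob (Nat.card (ResidueField A)) V φ →
    (∀ r : C, aeval r h = 0 → φ r ≠ r) → ¬ EvA A d
  /-- `c` odd, no root of `g` is fixed by Frobenius: `d` is even and its Frobenius sign is that of
  `g(r)`, `r` a root of `h`. -/
  sign : ¬ EvA A c → ∀ φ : C ≃ₐ[k] C, Frob (Nat.card (ResidueField A)) V φ →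
    (∀ r : C, aeval r g = 0 → φ r ≠ r) →
    EvA A d ∧ ∀ m : ℕ, Odd m → (∀ r : C, aeval r g = 0 → (φ ^ m) r = r) →
      ∃ r : C, aeval r h = 0 ∧ φ r = r ∧ ∀ γ δ : C, γ ^ 2 = aeval r g →
        δ ^ 2 = algebraMap k C d → φ δ * γ = δ * φ γ

/-- The data of the roots of `f` at a valuation ring `V` of `k^alg` above `A`, for the curve
`y² = c f(x)` over the field `K`. -/
structure Loc {k K : Type} [Field k] [Field K] [Algebra k K] (A : ValuationSubring k)
    (V : ValuationSubring (kb k K)) (f : k[X]) (c : k) (x : K) (y : K) (ι : Type)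
    [Fintype ι] where
  above : Above A V
  two : V.valuation 2 = 1
  tr : Transcendental k x
  eq : y ^ 2 = algebraMap k K c * aeval x f
  c0 : c ≠ 0
  sep : f.Separable
  /-- leading coefficient -/
  l : k
  hl : V.valuation (algebraMap k (kb k K) l) = 1
  /-- roots -/
  r : ι → kb k K
  fr : f.map (algebraMap k (kb k K)) = C (algebraMap k (kb k K) l) * ∏ i, (X - C (r i))
  int : ∀ i, r i ∈ V
  dist : ∀ i j, i ≠ j → V.valuation (r i - r j) = 1
  even : Even (Fintype.card ι)
  four : 4 ≤ Fintype.card ι

open NumberField IsDedekindDomain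

/-- The value of `d` at the finite place `v` is the square of a value. -/
def Ev {k : Type} [Field k] [NumberField k] (v : HeightOneSpectrum (𝓞 k)) (d : k) : Prop :=
  ∃ b : k, v.valuation k d = v.valuation k b ^ 2

/-- Some prime `R` of `N` above `v`, at which an automorphism of `N / k` acting trivially on the
residue field is trivial, has a Frobenius element generating the same subgroup as `σ`. -/
def Typ {k N : Type} [Field k] [NumberField k] [Field N] [NumberField N] [Algebra k N]
    (σ : N ≃ₐ[k] N) (v : HeightOneSpectrum (𝓞 k)) : Prop :=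
  ∃ (R : Ideal (𝓞 N)) (φ : N ≃ₐ[k] N), R.IsPrime ∧
    R.comap (algebraMap (𝓞 k) (𝓞 N)) = v.asIdeal ∧
    SC4.FrobAt φ R (Ideal.absNorm v.asIdeal) ∧
    Subgroup.zpowers φ = Subgroup.zpowers σ ∧
    ∀ τ : N ≃ₐ[k] N, (∀ x y : 𝓞 N, (y : N) = τ (x : N) → y - x ∈ R) → τ = 1

/-- `A` is the valuation ring of the finite place `v`. -/
structure IsVal {k : Type} [Field k] [NumberField k] (v : HeightOneSpectrum (𝓞 k))
    (A : ValuationSubring k) : Prop where
  dvr : IsDiscreteValuationRing A
  fin : Finite (ResidueField A)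
  card : Nat.card (ResidueField A) = Ideal.absNorm v.asIdeal
  mem : ∀ x : k, x ∈ A ↔ v.valuation k x ≤ 1
  lt : ∀ x : k, A.valuation x < 1 ↔ v.valuation k x < 1
  ev : ∀ d : k, EvA A d ↔ Ev v d

/-- The extension `N` and the element `σ` used for the choice of the second pair of primes. -/
structure Big {k N : Type} [Field k] [Field N] [Algebra k N] (g h : k[X]) (U : Finset k) (a : k)
    (σ : N ≃ₐ[k] N) : Prop where
  spl : ((g * h).map (algebraMap k N)).Splits
  sa : ∃ w : N, w ^ 2 = algebraMap k N a ∧ σ w ≠ w
  sU : ∀ u ∈ U, ∃ w : N, w ^ 2 = algebraMap k N u ∧ σ w = w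
  rg : ∀ r : N, aeval r g = 0 → σ r ≠ r
  odd : ∃ m : ℕ, Odd m ∧ ∀ r : N, aeval r (g * h) = 0 → (σ ^ m) r = r
  rh : ∀ r : N, aeval r h = 0 → σ r = r → ∃ γ : N, γ ^ 2 = aeval r g ∧ σ γ = γ

end SC3
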