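import Pool.Agent.MP_c1dca2_ag.SC3.G0

/-!
# [SC3-G4b] squares in the completions at the infinite places

`exists_sgn`: real places: a positive real number is a square (`InfinitePlace.Completion.
ringEquivRealOfIsReal`, see `SEC.sq_infinite`, file SEC/L2.lean); complex places: everything is a
square. `sgn x : (InfinitePlace k) → Bool` is `decide (0 < embedding x)` for real places
and `true` for complex ones (`InfinitePlace k` is a finite type): `x y` is positive at the real places
if `x, y` have the same signs.

`point_inf`: `f` monic of positive even degree, `c` a square in the completion. At a real place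
`f(X) → + ∞` is positive for a large natural number `X`, hence a square; at a complex place everything
is a square.
-/

set_option autoImplicit false

open NumberField IsDedekindDomain Polynomial

namespace SC3

private theorem g4b_sq_real {k : Type} [Field k] [NumberField k] {v : InfinitePlace k}
    (hv : v.IsReal) (x : v.Completion)
    (h : 0 ≤ InfinitePlace.Completion.ringEquivRealOfIsReal hv x) : IsSquare x := by
  refine ⟨(InfinitePlace.Completion.ringEquivRealOfIsReal hv).symm
    (√(InfinitePlace.Completion.ringEquivRealOfIsReal hv x)), ?_⟩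
  rw [← map_mul, Real.mul_self_sqrt h, RingEquiv.symm_apply_apply]

private theorem g4b_sq_complex {k : Type} [Field k] [NumberField k] {v : InfinitePlace k}
    (hv : v.IsComplex) (x : v.Completion) : IsSquare x := by
  obtain ⟨z, hz⟩ := IsAlgClosed.exists_pow_nat_eq
    (InfinitePlace.Completion.ringEquivComplexOfIsComplex hv x) (n := 2) two_pos
  refine ⟨(InfinitePlace.Completion.ringEquivComplexOfIsComplex hv).symm z, ?_⟩
  rw [← map_mul, ← pow_two, hz, RingEquiv.symm_apply_apply]

theorem exists_sgn (k : Type) [Field k] [NumberField k] :
    ∃ (I : Type) (_ : Finite I) (sgn : k → I), ∀ x y : k, x ≠ 0 → y ≠ 0 → sgn x = sgn y →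
      ∀ v : InfinitePlace k, IsSquare (algebraMap k v.Completion (x * y)) := by
  classical
  refine ⟨InfinitePlace k → Prop, inferInstance, fun x v => ∃ hv : v.IsReal,
    0 < InfinitePlace.Completion.ringEquivRealOfIsReal hv (algebraMap k v.Completion x), ?_⟩
  intro x y hx hy hxy v
  rcases v.isReal_or_isComplex with hv | hv
  · apply g4b_sq_real hv
    rw [map_mul, map_mul]
    have h1 := iff_of_eq (congrFun hxy v)
    by_cases h2 : 0 < InfinitePlace.Completion.ringEquivRealOfIsReal hv
        (algebraMap k v.Completion x)
    · have h3 : ∃ hv : v.IsReal, 0 < InfinitePlace.Completion.ringEquivRealOfIsReal hv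
          (algebraMap k v.Completion y) := h1.mp ⟨hv, h2⟩
      obtain ⟨_, h3⟩ := h3
      exact (mul_pos h2 h3).le
    · have h3 : ¬ 0 < InfinitePlace.Completion.ringEquivRealOfIsReal hv
          (algebraMap k v.Completion y) := by
        intro h3
        have h4 : ∃ hv : v.IsReal, 0 < InfinitePlace.Completion.ringEquivRealOfIsReal hv
          (algebraMap k v.Completion x) := h1.mpr ⟨hv, h3⟩
        obtain ⟨_, h4⟩ := h4
        exact h2 h4
      exact mul_nonneg_of_nonpos_of_nonpos (not_lt.1 h2) (not_lt.1 h3)
  · exact g4b_sq_complex hv _

theorem point_inf {k : Type} [Field k] [NumberField k] (v : InfinitePlace k) (f : k[X])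
    (hf : f.Monic) (he : Even f.natDegree) (hpos : 0 < f.natDegree) (c : k)
    (hc : IsSquare (algebraMap k v.Completion c)) :
    ∃ X Y : v.Completion, Y ^ 2 = eval X ((C c * f).map (algebraMap k v.Completion)) := by
  rcases v.isReal_or_isComplex with hv | hv
  · obtain ⟨e, he'⟩ := hc
    obtain ⟨φ, hφ⟩ : ∃ φ, φ = InfinitePlace.Completion.ringEquivRealOfIsReal hv := ⟨_, rfl⟩
    have hm : (f.map ((φ : v.Completion →+* ℝ).comp (algebraMap k v.Completion))).Monic :=
      hf.map _
    have hd : 0 < (f.map ((φ : v.Completion →+* ℝ).comp (algebraMap k v.Completion))).degree := by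
      rw [degree_map, degree_eq_natDegree hf.ne_zero]
      exact_mod_cast hpos
    have ht := Polynomial.tendsto_atTop_of_leadingCoeff_nonneg _ hd (by rw [hm.leadingCoeff]; exact zero_le_one)
    obtain ⟨x, hx⟩ := (ht.eventually (Filter.eventually_ge_atTop 0)).exists
    have h1 : IsSquare (eval (φ.symm x) (f.map (algebraMap k v.Completion))) := by
      apply g4b_sq_real hv
      rw [← hφ]
      have h2 : φ (eval (φ.symm x) (f.map (algebraMap k v.Completion))) =
          eval x (f.map ((φ : v.Completion →+* ℝ).comp (algebraMap k v.Completion))) := by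
        rw [← Polynomial.map_map]
        have h3 := Polynomial.hom_eval₂ (f.map (algebraMap k v.Completion)) (RingHom.id _)
          (φ : v.Completion →+* ℝ) (φ.symm x)
        rw [RingHom.comp_id] at h3
        simp only [RingHom.coe_coe, RingEquiv.apply_symm_apply] at h3
        exact h3.trans (eval_map _ _).symm
      rw [h2]
      exact hx
    obtain ⟨y, hy⟩ := h1
    refine ⟨φ.symm x, e * y, ?_⟩
    rw [Polynomial.map_mul, map_C, eval_mul, eval_C, hy, he']
    ring
  · obtain ⟨y, hy⟩ := g4b_sq_complex hv (eval 0 ((C c * f).map (algebraMap k v.Completion)))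
    exact ⟨0, y, by rw [hy, pow_two]⟩

end SC3
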