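import Pool.Agent.MP_c1dca2_ag.SC3.G3
import Pool.Agent.MP_c1dca2_ag.SC3.G4

/-!
# [SC3-G5] elements with exactly two odd places of given type, squares at `S` and at infinity

Proof (pigeonhole). Let `M` be from `sq_modulus` for `S` and `sgn` from `exists_sgn`. The set `T` of the places
`v ∉ S` with `Typ σ v` is infinite (`typ_infinite`, `S` finite). The class group is finite, so
there are a class and an infinite subset `T₁ ⊆ T` of places `v` with ideal class equal to this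
class. Fix `v₀ ∈ T₁`, `h` = the class number (`≥ 1`), `J = v₀.asIdeal ^ (h - 1)`; for `v ∈ T₁` the ideal
`v.asIdeal * J` has the class of `v₀.asIdeal ^ h`, principal: `= (α_v)`, `α_v ∈ 𝓞 k`, `α_v ≠ 0`,
`α_v ∉ w.asIdeal` for `w ∈ S` (the only prime factors are `v`, `v₀ ∉ S`). The map
`v ↦ (α_v mod M, sgn α_v)` from the infinite set `T₁ \ {v₀}` to a finite set (`𝓞 k / M` is finite,
`M ≠ ⊥`) is not injective: `v₁ ≠ v₂` with the same image. `a = α_{v₁} α_{v₂}`:
`(a) = v₁ v₂ v₀^(2 (h - 1))`, so `a` has value of exponent `1` at `v₁`, `v₂`, even exponent at all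
other places. `a` is a square in the completions at `S` (`sq_modulus`) and at the infinite places
(`exists_sgn`).
-/

set_option autoImplicit false

open NumberField IsDedekindDomain

namespace SC3

/-- multiplicity of `w` in an ideal -/
private noncomputable def g5ord {k : Type} [Field k] [NumberField k] (w : HeightOneSpectrum (𝓞 k))
    (I : Ideal (𝓞 k)) : ℕ := (Associates.mk w.asIdeal).count (Associates.mk I).factors

section
variable {k : Type} [Field k] [NumberField k] (w : HeightOneSpectrum (𝓞 k))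

private theorem g5_irr : Irreducible (Associates.mk w.asIdeal) := w.associates_irreducible

private theorem g5_mul (I J : Ideal (𝓞 k)) (hI : I ≠ ⊥) (hJ : J ≠ ⊥) :
    g5ord w (I * J) = g5ord w I + g5ord w J := by
  unfold g5ord
  rw [← Associates.mk_mul_mk]
  exact Associates.count_mul (by simpa using hI) (by simpa using hJ) (g5_irr w)

private theorem g5_self : g5ord w w.asIdeal = 1 := Associates.count_self (g5_irr w)

private theorem g5_ne (v : HeightOneSpectrum (𝓞 k)) (h : v ≠ w) : g5ord w v.asIdeal = 0 := by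
  refine Associates.count_eq_zero_of_ne (g5_irr w) (g5_irr v) ?_
  intro h1
  rw [Associates.mk_eq_mk_iff_associated, associated_iff_eq] at h1
  exact h (HeightOneSpectrum.ext h1.symm)

private theorem g5_irr_eq (v : HeightOneSpectrum (𝓞 k)) (h : w.asIdeal ∣ v.asIdeal) :
    w.asIdeal = v.asIdeal :=
  associated_iff_eq.1 ((w.irreducible).associated_of_dvd (v.irreducible) h)

private theorem g5_val (r : 𝓞 k) (hr : r ≠ 0) :
    w.valuation k (r : k) = WithZero.exp (-(g5ord w (Ideal.span {r}) : ℤ)) := by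
  have h := w.valuation_of_algebraMap (K := k) r
  rw [w.intValuation_if_neg hr] at h
  exact h

private theorem g5_ev (a : k) (n : ℤ) (h : w.valuation k a = WithZero.exp (2 * n)) : Ev w a := by
  obtain ⟨π, hπ⟩ := w.valuation_exists_uniformizer k
  refine ⟨π ^ (-n), ?_⟩
  rw [h, map_zpow₀, hπ, ← WithZero.exp_zsmul, ← WithZero.exp_nsmul]
  congr 1
  simp

private theorem g5_not_ev (a : k) (n : ℤ) (h : w.valuation k a = WithZero.exp (2 * n + 1)) :
    ¬ Ev w a := by
  rintro ⟨b, hb⟩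
  have hb0 : w.valuation k b ≠ 0 := by
    intro h0
    rw [h, h0, zero_pow two_ne_zero] at hb
    exact WithZero.exp_ne_zero hb
  obtain ⟨m, hm⟩ : ∃ m : ℤ, w.valuation k b = WithZero.exp m :=
    ⟨_, (WithZero.exp_log hb0).symm⟩
  rw [h, hm, ← WithZero.exp_nsmul, WithZero.exp_inj] at hb
  simp at hb
  omega

end


theorem exists_a {k N : Type} [Field k] [NumberField k] [Field N] [NumberField N]
    [Algebra k N] [IsGalois k N] (σ : N ≃ₐ[k] N) (S : Set (HeightOneSpectrum (𝓞 k)))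
    (hS : S.Finite) :
    ∃ (a : k) (v₁ v₂ : HeightOneSpectrum (𝓞 k)), a ≠ 0 ∧ v₁ ≠ v₂ ∧ v₁ ∉ S ∧ v₂ ∉ S ∧
      Typ σ v₁ ∧ Typ σ v₂ ∧ ¬ Ev v₁ a ∧ ¬ Ev v₂ a ∧ (∀ v, v ≠ v₁ → v ≠ v₂ → Ev v a) ∧
      (∀ v ∈ S, IsSquare (algebraMap k (v.adicCompletion k) a)) ∧
      ∀ v : InfinitePlace k, IsSquare (algebraMap k v.Completion a) := by
  obtain ⟨M, hM, hsq⟩ := sq_modulus S hS
  obtain ⟨I, hIfin, sgn, hsgn⟩ := exists_sgn k
  set T : Set (HeightOneSpectrum (𝓞 k)) := {v | Typ σ v} \ S with hT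
  have hTinf : T.Infinite := (typ_infinite σ).sdiff hS
  have : Infinite T := Set.infinite_coe_iff.2 hTinf
  have hnz : ∀ v : HeightOneSpectrum (𝓞 k), v.asIdeal ∈ nonZeroDivisors (Ideal (𝓞 k)) := fun v =>
    mem_nonZeroDivisors_of_ne_zero v.ne_bot
  let cl : T → ClassGroup (𝓞 k) := fun v => ClassGroup.mk0 ⟨v.1.asIdeal, hnz v.1⟩
  obtain ⟨y, hy⟩ := Finite.exists_infinite_fiber cl
  set F : Set T := cl ⁻¹' {y} with hF
  have : Infinite F := hy
  obtain ⟨v₀⟩ : Nonempty F := inferInstance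
  set n : ℕ := Fintype.card (ClassGroup (𝓞 k)) - 1 with hn
  have hn1 : n + 1 = Fintype.card (ClassGroup (𝓞 k)) := Nat.succ_pred_eq_of_pos Fintype.card_pos
  set J : Ideal (𝓞 k) := v₀.1.1.asIdeal ^ n with hJ
  have hJ0 : J ≠ ⊥ := pow_ne_zero _ v₀.1.1.ne_bot
  have hpr : ∀ v : F, ∃ α : 𝓞 k, v.1.1.asIdeal * J = Ideal.span {α} := by
    intro v
    have h1 : ClassGroup.mk0 (⟨v.1.1.asIdeal * J, mem_nonZeroDivisors_of_ne_zero
        (mul_ne_zero v.1.1.ne_bot hJ0)⟩ : nonZeroDivisors (Ideal (𝓞 k))) = 1 := by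
      have h2 : (⟨v.1.1.asIdeal * J, mem_nonZeroDivisors_of_ne_zero
          (mul_ne_zero v.1.1.ne_bot hJ0)⟩ : nonZeroDivisors (Ideal (𝓞 k))) =
          ⟨v.1.1.asIdeal, hnz _⟩ * ⟨v₀.1.1.asIdeal, hnz _⟩ ^ n := by
        ext : 1
        rfl
      have h3 : ClassGroup.mk0 (⟨v.1.1.asIdeal, hnz _⟩ : nonZeroDivisors (Ideal (𝓞 k))) = y := v.2
      have h4 : ClassGroup.mk0 (⟨v₀.1.1.asIdeal, hnz _⟩ : nonZeroDivisors (Ideal (𝓞 k))) = y :=
        v₀.2
      rw [h2, map_mul, map_pow, h3, h4, ← pow_succ', hn1]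
      exact pow_card_eq_one
    rw [ClassGroup.mk0_eq_one_iff] at h1
    obtain ⟨α, hα⟩ := h1
    exact ⟨α, hα⟩
  choose α hα using hpr
  have hα0 : ∀ v, α v ≠ 0 := by
    intro v h
    have := hα v
    rw [h, Ideal.span_singleton_zero] at this
    exact mul_ne_zero v.1.1.ne_bot hJ0 this
  have : Finite (𝓞 k ⧸ M) := Ideal.finiteQuotientOfFreeOfNeBot M hM
  obtain ⟨x, z, hxz, hg⟩ := Finite.exists_ne_map_eq_of_infinite
    (fun v : F => (Ideal.Quotient.mk M (α v), sgn (α v : k)))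
  have hg1 : α x - α z ∈ M := Ideal.Quotient.eq.1 (Prod.ext_iff.1 hg).1
  have hg2 : sgn (α x : k) = sgn (α z : k) := (Prod.ext_iff.1 hg).2
  have hne : x.1.1 ≠ z.1.1 := fun h => hxz (Subtype.ext (Subtype.ext h))
  have hx0 : (α x : k) ≠ 0 := by exact_mod_cast hα0 x
  have hz0 : (α z : k) ≠ 0 := by exact_mod_cast hα0 z
  have hval : ∀ w : HeightOneSpectrum (𝓞 k), w.valuation k ((α x : k) * (α z : k)) =
      WithZero.exp (-((g5ord w x.1.1.asIdeal + g5ord w z.1.1.asIdeal + 2 * g5ord w J : ℕ) : ℤ)) := by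
    intro w
    rw [map_mul, g5_val w _ (hα0 x), g5_val w _ (hα0 z), ← hα x, ← hα z,
      g5_mul w _ _ x.1.1.ne_bot hJ0, g5_mul w _ _ z.1.1.ne_bot hJ0, ← WithZero.exp_add]
    congr 1
    push_cast
    ring
  refine ⟨(α x : k) * (α z : k), x.1.1, z.1.1, mul_ne_zero hx0 hz0, hne, x.1.2.2, z.1.2.2,
    x.1.2.1, z.1.2.1, ?_, ?_, ?_, ?_, ?_⟩
  · refine g5_not_ev _ _ (-(g5ord x.1.1 J : ℤ) - 1) ?_
    rw [hval, g5_self, g5_ne x.1.1 z.1.1 hne.symm]
    congr 1
    push_cast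
    ring
  · refine g5_not_ev _ _ (-(g5ord z.1.1 J : ℤ) - 1) ?_
    rw [hval, g5_self, g5_ne z.1.1 x.1.1 hne]
    congr 1
    push_cast
    ring
  · intro w h1 h2
    refine g5_ev _ _ (-(g5ord w J : ℤ)) ?_
    rw [hval, g5_ne w x.1.1 h1.symm, g5_ne w z.1.1 h2.symm]
    congr 1
    push_cast
    ring
  · intro v hv
    have hxS : ∀ w ∈ S, α x ∉ w.asIdeal := by
      intro w hw hmem
      have h1 : w.asIdeal ∣ Ideal.span {α x} := Ideal.dvd_span_singleton.2 hmem
      rw [← hα x] at h1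
      rcases w.prime.dvd_or_dvd h1 with h2 | h2
      · have h3 : x.1.1.asIdeal = w.asIdeal := by
          have := (g5_irr_eq w x.1.1 h2)
          exact this.symm
        exact x.1.2.2 (by rw [HeightOneSpectrum.ext h3]; exact hw)
      · have h4 := w.prime.dvd_of_dvd_pow h2
        have h3 : v₀.1.1.asIdeal = w.asIdeal := (g5_irr_eq w v₀.1.1 h4).symm
        exact v₀.1.2.2 (by rw [HeightOneSpectrum.ext h3]; exact hw)
    have h5 := hsq (α x) (α z) hxS hg1 v hv
    rw [show ((α x * α z : 𝓞 k) : k) = (α x : k) * (α z : k) from map_mul _ _ _] at h5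
    exact h5
  · intro v
    exact hsgn _ _ hx0 hz0 hg2 v

end SC3
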