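import Pool.Agent.MP_c1dca2_ag.SC3.Defs

/-!
# [SC3-G0] valuation rings of finite places; good places

`exists_isVal`: as `SC4.exists_val` (file SC4/X4.lean, see its proof): `A` = the valuation subring of
`v.valuation k`; `A.valuation` and `v.valuation k` are equivalent valuations
(`Valuation.isEquiv_valuation_valuationSubring`), so `|d|_A = |b|_A²` iff `|d|_v = |b|_v²`.

`good_places`: for `f` separable and `N` in which `f` splits, for all but finitely many `v` and every `A`
with `IsVal v A`: `GoodAt A f`. From `SC4.good_primes f hf hs` (finite set `B` of ideals; `v ↦ v.asIdeal` is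
injective) and the finitely many `v` containing `2`.

`ev_mul`, `ev_sq`: `Ev` is multiplicative; squares are even; an element whose product with an even
nonzero element is even is even.
-/

set_option autoImplicit false

open Polynomial IsLocalRing NumberField IsDedekindDomain

namespace SC3

theorem exists_isVal {k : Type} [Field k] [NumberField k] (v : HeightOneSpectrum (𝓞 k)) :
    ∃ A : ValuationSubring k, IsVal v A := by
  let A : ValuationSubring k := (v.valuation k).valuationSubring
  have hequiv : (v.valuation k).IsEquiv A.valuation :=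
    (v.valuation k).isEquiv_valuation_valuationSubring
  have hmemA : ∀ x : 𝓞 k, (x : k) ∈ A := by
    intro x
    rw [Valuation.mem_valuationSubring_iff]
    exact v.valuation_le_one x
  have hlt : ∀ x : 𝓞 k, A.valuation (x : k) < 1 ↔ x ∈ v.asIdeal := by
    intro x
    rw [← hequiv.lt_one_iff_lt_one]
    exact v.valuation_lt_one_iff_mem x
  have hdvr : IsDiscreteValuationRing A :=
    inferInstanceAs (IsDiscreteValuationRing (v.valuation k).integer)
  let f : 𝓞 k →+* A :=
    { toFun := fun x => ⟨(x : k), hmemA x⟩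
      map_one' := by apply Subtype.ext; simp
      map_mul' := fun x y => by apply Subtype.ext; simp
      map_zero' := by apply Subtype.ext; simp
      map_add' := fun x y => by apply Subtype.ext; simp }
  let g : 𝓞 k →+* ResidueField A := (IsLocalRing.residue A).comp f
  have hsurj : Function.Surjective g := by
    intro y
    obtain ⟨a, rfl⟩ := IsLocalRing.residue_surjective y
    have ha : v.valuation k (a : k) ≤ 1 := (Valuation.mem_valuationSubring_iff _ _).mp a.2
    obtain ⟨b, hb⟩ := v.exists_valuation_sub_lt_of_integer ha 1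
    refine ⟨b, ?_⟩
    change IsLocalRing.residue A (f b) = IsLocalRing.residue A a
    rw [← sub_eq_zero, ← map_sub, IsLocalRing.residue_eq_zero_iff, A.valuation_lt_one_iff,
      ← hequiv.lt_one_iff_lt_one]
    rw [Units.val_one] at hb
    exact hb
  have hker : RingHom.ker g = v.asIdeal := by
    ext x
    rw [RingHom.mem_ker]
    change IsLocalRing.residue A (f x) = 0 ↔ _
    rw [IsLocalRing.residue_eq_zero_iff, A.valuation_lt_one_iff]
    exact hlt x
  have hcard : Nat.card (ResidueField A) = Ideal.absNorm v.asIdeal := by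
    rw [Ideal.absNorm_apply, Submodule.cardQuot_apply, ← hker]
    exact (Nat.card_congr (RingHom.quotientKerEquivOfSurjective hsurj).toEquiv).symm
  have hfin : Finite (ResidueField A) := by
    apply Nat.finite_of_card_ne_zero
    rw [hcard, Ne, Ideal.absNorm_eq_zero_iff]
    exact v.ne_bot
  refine ⟨A, hdvr, hfin, hcard, ?_, ?_, ?_⟩
  · intro x
    exact Valuation.mem_valuationSubring_iff _ _
  · intro x
    exact hequiv.lt_one_iff_lt_one.symm
  · intro d
    constructor
    · rintro ⟨b, hb⟩
      refine ⟨b, ?_⟩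
      rw [← map_pow] at hb ⊢
      exact hequiv.eq_iff.mpr hb
    · rintro ⟨b, hb⟩
      refine ⟨b, ?_⟩
      rw [← map_pow] at hb ⊢
      exact hequiv.eq_iff.mp hb

theorem G0_splitting (k : Type) [Field k] [NumberField k] (f : k[X]) :
    ∃ (N : Type) (_ : Field N) (_ : NumberField N) (_ : Algebra k N),
      (f.map (algebraMap k N)).Splits := by
  have h0 : CharZero f.SplittingField := charZero_of_injective_algebraMap
    (algebraMap k f.SplittingField).injective
  have h1 : FiniteDimensional ℚ f.SplittingField := FiniteDimensional.trans ℚ k f.SplittingField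
  exact ⟨f.SplittingField, inferInstance, { to_charZero := h0, to_finiteDimensional := h1 },
    inferInstance, SplittingField.splits f⟩

theorem G0_fin {k : Type} [Field k] [NumberField k] (z : 𝓞 k) (hz : z ≠ 0) :
    {v : HeightOneSpectrum (𝓞 k) | z ∈ v.asIdeal}.Finite := by
  have h := Ideal.finite_factors (R := 𝓞 k) (I := Ideal.span {z}) (by
    simpa only [Submodule.zero_eq_bot, ne_eq, Ideal.span_singleton_eq_bot] using hz)
  refine h.subset ?_
  intro v hv
  exact Ideal.dvd_span_singleton.mpr hv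

theorem good_places {k : Type} [Field k] [NumberField k] (f : k[X]) (hf : f.Separable) :
    {v : HeightOneSpectrum (𝓞 k) | ∃ A, IsVal v A ∧ ¬ GoodAt A f}.Finite := by
  obtain ⟨N, _, _, _, hN⟩ := G0_splitting k f
  obtain ⟨B, hBfin, hB⟩ := SC4.good_primes f hf hN
  have hfin1 : {v : HeightOneSpectrum (𝓞 k) | v.asIdeal ∈ B}.Finite := by
    apply Set.Finite.preimage _ hBfin
    intro v _ w _ h
    exact HeightOneSpectrum.ext h
  have hfin2 : {v : HeightOneSpectrum (𝓞 k) | (2 : 𝓞 k) ∈ v.asIdeal}.Finite :=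
    G0_fin 2 two_ne_zero
  refine (hfin1.union hfin2).subset ?_
  rintro v ⟨A, hA, hgood⟩
  by_contra hcon
  simp only [Set.mem_union, Set.mem_ofPred_eq, not_or] at hcon
  obtain ⟨hc1, hc2⟩ := hcon
  apply hgood
  have hmem : ∀ x : 𝓞 k, (x : k) ∈ A := by
    intro x
    rw [hA.mem]
    exact v.valuation_le_one x
  have hlt : ∀ x : 𝓞 k, A.valuation (x : k) < 1 ↔ x ∈ v.asIdeal := by
    intro x
    rw [hA.lt]
    exact v.valuation_lt_one_iff_mem x
  obtain ⟨g, hg1, hg2, hg3, -⟩ := hB v.asIdeal v.isPrime v.ne_bot hc1 A hmem hlt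
  refine ⟨hA.dvr, hA.fin, ?_, g, hg1, hg2, hg3⟩
  intro h2
  apply hc2
  rw [← hlt]
  have h3 : residue A (2 : A) = 0 := by rw [map_ofNat]; exact h2
  rw [IsLocalRing.residue_eq_zero_iff, ValuationSubring.valuation_lt_one_iff] at h3
  have e1 : ((2 : A) : k) = 2 := map_ofNat A.subtype 2
  have e2 : ((2 : 𝓞 k) : k) = 2 := map_ofNat (algebraMap (𝓞 k) k) 2
  rw [e1] at h3
  rw [e2]
  exact h3

theorem Ev.mul {k : Type} [Field k] [NumberField k] {v : HeightOneSpectrum (𝓞 k)} {a b : k}
    (ha : Ev v a) (hb : Ev v b) : Ev v (a * b) := by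
  obtain ⟨x, hx⟩ := ha
  obtain ⟨y, hy⟩ := hb
  refine ⟨x * y, ?_⟩
  rw [map_mul, map_mul, hx, hy, mul_pow]

theorem Ev.of_sq {k : Type} [Field k] [NumberField k] {v : HeightOneSpectrum (𝓞 k)} {a : k}
    (ha : IsSquare a) : Ev v a := by
  obtain ⟨x, rfl⟩ := ha
  exact ⟨x, by rw [map_mul, sq]⟩

theorem Ev.of_mul {k : Type} [Field k] [NumberField k] {v : HeightOneSpectrum (𝓞 k)} {a b : k}
    (ha : Ev v a) (ha0 : a ≠ 0) (hb : Ev v (a * b)) : Ev v b := by
  obtain ⟨x, hx⟩ := ha
  obtain ⟨y, hy⟩ := hb
  have hva : v.valuation k a ≠ 0 := (Valuation.ne_zero_iff _).mpr ha0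
  have hvx : v.valuation k x ≠ 0 := by
    intro h0
    rw [h0] at hx
    exact hva (by rw [hx]; simp)
  refine ⟨y / x, ?_⟩
  rw [map_mul, hx] at hy
  rw [map_div₀, div_pow, ← hy]
  field_simp

theorem G0_exp {k : Type} [Field k] [NumberField k] {v : HeightOneSpectrum (𝓞 k)} {a : k}
    (ha : ¬ Ev v a) : ∃ n : ℤ, v.valuation k a = WithZero.exp (2 * n + 1) := by
  have hva : v.valuation k a ≠ 0 := by
    intro h0
    apply ha
    refine ⟨0, ?_⟩
    rw [h0, map_zero]
    simp
  obtain ⟨m, hm⟩ : ∃ m : ℤ, v.valuation k a = WithZero.exp m :=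
    ⟨_, (WithZero.exp_log hva).symm⟩
  rcases Int.even_or_odd' m with ⟨n, hn | hn⟩
  · exfalso
    apply ha
    obtain ⟨b, hb⟩ := v.valuation_surjective k (WithZero.exp n)
    refine ⟨b, ?_⟩
    rw [hb, hm, hn, ← WithZero.exp_nsmul]
    congr 1
  · exact ⟨n, by rw [hm, hn]⟩

/-- The product of two odd elements is even (the value group is infinite cyclic). -/
theorem ev_of_not {k : Type} [Field k] [NumberField k] {v : HeightOneSpectrum (𝓞 k)} {a b : k}
    (ha : ¬ Ev v a) (hb : ¬ Ev v b) : Ev v (a * b) := by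
  obtain ⟨n, hn⟩ := G0_exp ha
  obtain ⟨m, hm⟩ := G0_exp hb
  obtain ⟨c, hc⟩ := v.valuation_surjective k (WithZero.exp (n + m + 1))
  refine ⟨c, ?_⟩
  rw [map_mul, hn, hm, hc, ← WithZero.exp_add, ← WithZero.exp_nsmul]
  congr 1
  simp only [nsmul_eq_mul]
  push_cast
  ring

/-- The odd places of a nonzero element are finitely many. -/
theorem finite_not_ev {k : Type} [Field k] [NumberField k] (a : k) (ha : a ≠ 0) :
    {v : HeightOneSpectrum (𝓞 k) | ¬ Ev v a}.Finite := by
  refine ((HeightOneSpectrum.Support.finite (𝓞 k) a).union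
    (HeightOneSpectrum.Support.finite (𝓞 k) a⁻¹)).subset ?_
  intro v hv
  by_contra hcon
  simp only [Set.mem_union, HeightOneSpectrum.Support, Set.mem_ofPred_eq, not_or, not_lt] at hcon
  obtain ⟨h1, h2⟩ := hcon
  apply hv
  refine ⟨1, ?_⟩
  rw [map_one, one_pow]
  apply le_antisymm h1
  rw [map_inv₀] at h2
  have hva : v.valuation k a ≠ 0 := (Valuation.ne_zero_iff _).mpr ha
  exact (inv_le_one₀ (zero_lt_iff.mpr hva)).mp h2

end SC3
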