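import Pool.Agent.MP_c1dca2_ag.SC3.T0
import Pool.Agent.MP_c1dca2_ag.SC3.G0

/-!
# [SC3-G6] the big extension and the element `σ`
-/

set_option autoImplicit false

open Polynomial IsLocalRing SC2

namespace SC3

/-- a square root -/
theorem g6_sqrt {Ω : Type} [Field Ω] [IsAlgClosed Ω] : ∃ sq : Ω → Ω, ∀ x, sq x ^ 2 = x := by
  have h : ∀ x : Ω, ∃ y, y ^ 2 = x := fun x => IsAlgClosed.exists_pow_nat_eq x (by norm_num)
  choose sq hsq using h
  exact ⟨sq, hsq⟩

/-- extension of `σ_q` to the algebraic closure -/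
theorem g6_lift {k Ω : Type} [Field k] [Field Ω] [Algebra k Ω] [IsAlgClosed Ω] [Normal k Ω]
    (f : k[X]) (s : f.SplittingField ≃ₐ[k] f.SplittingField) :
    ∃ (ι : f.SplittingField →ₐ[k] Ω) (ρ : Ω ≃ₐ[k] Ω),
      (∀ e, ρ (ι e) = ι (s e)) ∧ ∀ z : Ω, aeval z f = 0 → f ≠ 0 → ∃ e, ι e = z := by
  let ι : f.SplittingField →ₐ[k] Ω := IsAlgClosed.lift
  let _ : Algebra f.SplittingField Ω := ι.toRingHom.toAlgebra
  have : IsScalarTower k f.SplittingField Ω :=
    IsScalarTower.of_algebraMap_eq fun x => (ι.commutes x).symm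
  refine ⟨ι, s.liftNormal Ω, fun e => ?_, fun z hz hf => ?_⟩
  · exact AlgEquiv.liftNormal_commutes s Ω e
  · have h1 := (SplittingField.splits f).image_rootSet ι
    have h2 : z ∈ f.rootSet Ω := (mem_rootSet_of_ne hf).2 hz
    rw [← h1] at h2
    obtain ⟨e, -, he⟩ := h2
    exact ⟨e, he⟩

theorem g6_pow {k Ω E : Type} [Field k] [Field Ω] [Algebra k Ω] [Field E] [Algebra k E]
    (ι : E →ₐ[k] Ω) (ρ : Ω ≃ₐ[k] Ω) (s : E ≃ₐ[k] E) (h : ∀ e, ρ (ι e) = ι (s e)) (n : ℕ) (e : E) :
    (ρ ^ n) (ι e) = ι ((s ^ n) e) := by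
  induction n with
  | zero => simp
  | succ n ih => rw [pow_succ', AlgEquiv.mul_apply, ih, h, pow_succ', AlgEquiv.mul_apply]

theorem g6_neg_pow {k Ω : Type} [Field k] [Field Ω] [Algebra k Ω] (ρ : Ω ≃ₐ[k] Ω) (y : Ω)
    (h : ρ y = -y) (n : ℕ) (hn : Odd n) : (ρ ^ n) y = -y := by
  have h2 : (ρ ^ 2) y = y := by rw [pow_two, AlgEquiv.mul_apply, h, map_neg, h, neg_neg]
  obtain ⟨m, rfl⟩ := hn
  have h3 : ∀ m : ℕ, (ρ ^ (2 * m)) y = y := by
    intro m
    induction m with
    | zero => simp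
    | succ m ih => rw [show 2 * (m + 1) = 2 * m + 2 by ring, pow_add, AlgEquiv.mul_apply, h2, ih]
  rw [pow_succ', AlgEquiv.mul_apply, h3, h]

theorem exists_sigma {k : Type} [Field k] [NumberField k] (g h : k[X]) (hg : g.Monic)
    (hh : h.Monic) (hsep : (g * h).Separable)
    (hσ : ∃ σ : (g * h).SplittingField ≃ₐ[k] (g * h).SplittingField, Odd (orderOf σ) ∧
      ∀ r : (g * h).SplittingField, aeval r g = 0 → σ r ≠ r)
    (A : ValuationSubring k) (hA : GoodAt A (g * h)) (U : Finset k) (a : k) (ha : a ≠ 0)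
    (haA : ¬ EvA A a) (hU : ∀ u ∈ U, u ≠ 0 ∧ EvA A u) :
    ∃ (N : Type) (_ : Field N) (_ : NumberField N) (_ : Algebra k N) (_ : IsGalois k N)
      (σ : N ≃ₐ[k] N), Big g h U a σ := by
  classical
  obtain ⟨s, hsodd, hsg⟩ := hσ
  have : IsGalois k (AlgebraicClosure k) := inferInstance
  have hgh0 : g * h ≠ 0 := (hg.mul hh).ne_zero
  obtain ⟨ι, ρ₀, hρ₀, hιsurj⟩ := g6_lift (Ω := AlgebraicClosure k) (g * h) s
  obtain ⟨sq, hsq⟩ := g6_sqrt (Ω := AlgebraicClosure k)
  -- the finite set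
  set R : Set (AlgebraicClosure k) := (g * h).rootSet (AlgebraicClosure k) with hR
  have hRfin : R.Finite := rootSet_finite _ _
  set Z : Set (AlgebraicClosure k) := R ∪ ({sq (algebraMap k _ a)} ∪
    (((fun u : k => sq (algebraMap k _ u)) '' (U : Set k)) ∪ ((fun r => sq (aeval r g)) '' R)))
    with hZ
  have hZfin : Z.Finite := hRfin.union ((Set.finite_singleton _).union
    ((U.finite_toSet.image _).union (hRfin.image _)))
  have : Finite Z := hZfin
  set NN := FiniteGaloisIntermediateField.adjoin k Z with hNN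
  set N := NN.toIntermediateField with hN
  have : FiniteDimensional k N := NN.finiteDimensional
  have : IsGalois k N := NN.isGalois
  have : NumberField N := NumberField.of_module_finite k N
  have hZN : ∀ z ∈ Z, z ∈ N := fun z hz => FiniteGaloisIntermediateField.subset_adjoin k Z hz
  -- restriction
  set res := AlgEquiv.restrictNormalHom (F := k) (K₁ := AlgebraicClosure k) N with hres
  have hres_apply : ∀ (χ : AlgebraicClosure k ≃ₐ[k] AlgebraicClosure k) (y : N),
      ((res χ y : N) : AlgebraicClosure k) = χ y := fun χ y =>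
    AlgEquiv.restrictNormal_commutes χ N y
  obtain ⟨t, m, hmodd, hcard⟩ := Nat.exists_eq_two_pow_mul_odd
    (n := Nat.card (N ≃ₐ[k] N)) Nat.card_pos.ne'
  set ρ₁ := ρ₀ ^ (2 ^ t) with hρ₁
  have hρ₁m : ∀ y ∈ N, (ρ₁ ^ m) y = y := by
    intro y hy
    have h1 : res (ρ₁ ^ m) = 1 := by
      rw [hρ₁, ← pow_mul, ← hcard, map_pow]
      exact pow_card_eq_one'
    have h2 := hres_apply (ρ₁ ^ m) ⟨y, hy⟩
    rw [h1] at h2
    simpa using h2.symm
  have hfix : ∀ y ∈ N, ρ₁ y = y ∨ ρ₁ y = -y → ρ₁ y = y := by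
    rintro y hy (h1 | h1)
    · exact h1
    · have h2 := g6_neg_pow ρ₁ y h1 m hmodd
      rw [hρ₁m y hy] at h2
      rw [h1]
      exact h2.symm
  have hsqfix : ∀ (χ : AlgebraicClosure k ≃ₐ[k] AlgebraicClosure k) (y : AlgebraicClosure k),
      χ (y ^ 2) = y ^ 2 → χ y = y ∨ χ y = -y := by
    intro χ y h1
    rw [map_pow] at h1
    exact sq_eq_sq_iff_eq_or_eq_neg.1 h1
  have haeval : ∀ (χ : AlgebraicClosure k ≃ₐ[k] AlgebraicClosure k) (p : k[X])
      (r : AlgebraicClosure k), χ (aeval r p) = aeval (χ r) p := fun χ p r =>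
    (aeval_algHom_apply χ.toAlgHom r p).symm
  -- `ρ₁` and the roots of `g`
  have hρ₁g : ∀ r : AlgebraicClosure k, aeval r g = 0 → ρ₁ r ≠ r := by
    intro r hr h1
    obtain ⟨e, he⟩ := hιsurj r (by rw [map_mul, hr, zero_mul]) hgh0
    rw [← he, hρ₁, g6_pow ι ρ₀ s hρ₀] at h1
    have h2 := ι.injective h1
    obtain ⟨b, hb⟩ := exists_pow_eq_self_of_coprime (x := s) (n := 2 ^ t)
      ((Nat.coprime_two_left.2 hsodd).pow_left t)
    have h3 : ∀ b : ℕ, ((s ^ (2 ^ t)) ^ b) e = e := by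
      intro b
      induction b with
      | zero => simp
      | succ b ih => rw [pow_succ', AlgEquiv.mul_apply, ih, h2]
    refine hsg e ?_ (by rw [← hb]; exact h3 b)
    apply ι.injective
    rw [map_zero, ← hr, ← he]
    exact (aeval_algHom_apply ι e g).symm
  -- valuation ring and inertia element
  obtain ⟨V, hV⟩ := exists_above (C := AlgebraicClosure k) A
  have h2V := f_two hV hA.two
  set wa := sq (algebraMap k _ a) with hwa
  have hwa2 : wa ^ 2 = algebraMap k (AlgebraicClosure k) a := hsq _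
  obtain ⟨τ, hτ, hτa⟩ := exists_tau hV h2V a (fun b hb => haA ⟨b, hb⟩) wa hwa2
  obtain ⟨F, hF, hFsep, hFdeg⟩ := hA.red
  obtain ⟨r, l, hl, hfr, hmem, hdist⟩ := exists_roots hV F hFsep hFdeg
  rw [hF] at hfr
  have hl0 : l ≠ 0 := by
    rintro rfl
    rw [map_zero, map_zero] at hl
    exact zero_ne_one hl
  have hτr : ∀ i, τ (r i) = r i := fun i =>
    f_iner_root r hmem hdist (fun χ j => f_perm (g * h) l hl0 r hfr χ j) τ hτ i
  have hrinj : Function.Injective r := by
    intro i j hij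
    by_contra hne
    have h1 := hdist i j hne
    rw [hij, sub_self, map_zero] at h1
    exact zero_ne_one h1
  have hroot : ∀ z : AlgebraicClosure k, aeval z (g * h) = 0 → ∃ i, r i = z := by
    intro z hz
    have h1 : ((g * h).map (algebraMap k (AlgebraicClosure k))).eval z = 0 := by
      rw [eval_map_algebraMap]; exact hz
    rw [hfr, eval_mul, eval_C, eval_prod, mul_eq_zero] at h1
    rcases h1 with h1 | h1
    · rw [map_eq_zero] at h1; exact absurd h1 hl0
    · obtain ⟨i, -, hi⟩ := Finset.prod_eq_zero_iff.1 h1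
      rw [eval_sub, eval_X, eval_C, sub_eq_zero] at hi
      exact ⟨i, hi.symm⟩
  have hτroot : ∀ z : AlgebraicClosure k, aeval z (g * h) = 0 → τ z = z := by
    intro z hz
    obtain ⟨i, rfl⟩ := hroot z hz
    exact hτr i
  -- `τ γ = γ`
  obtain ⟨G, hG1, hG2, -⟩ := roots_of_factor g h hg l r hrinj hl0 hfr
  have hτγ : ∀ z γ : AlgebraicClosure k, aeval z h = 0 → γ ^ 2 = aeval z g → τ γ = γ := by
    intro z γ hz hγ
    obtain ⟨j, rfl⟩ := hroot z (by rw [map_mul, hz, mul_zero])
    have hjG : j ∉ G := by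
      intro hj
      obtain ⟨u, v, huv⟩ := hsep.isCoprime
      have h1 := congrArg (aeval (r j)) huv
      rw [map_add, map_mul, map_mul, (hG1 j).1 hj, hz, mul_zero, mul_zero, add_zero,
        map_one] at h1
      exact zero_ne_one h1
    have h1 : aeval (r j) g = ∏ i ∈ G, (r j - r i) := by
      rw [← eval_map_algebraMap, hG2, eval_prod]
      simp
    have h3 : V.valuation γ = 1 := by
      have h4 : V.valuation γ ^ 2 = 1 := by
        rw [← map_pow, hγ, h1, map_prod]
        refine Finset.prod_eq_one fun i hi => hdist j i ?_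
        rintro rfl
        exact hjG hi
      exact (pow_eq_one_iff_of_nonneg zero_le (by norm_num)).1 h4
    rcases hsqfix τ γ (by rw [hγ, haeval, hτr]) with h4 | h4
    · exact h4
    · exfalso
      have h5 := hτ.triv γ ((V.valuation_le_one_iff γ).1 h3.le)
      rw [h4, V.mem_nonunits_iff] at h5
      have h6 : -γ - γ = -(2 * γ) := by ring
      rw [h6, Valuation.map_neg, map_mul, h2V, h3, one_mul] at h5
      exact absurd h5 (lt_irrefl _)
  -- memberships
  have hRN : ∀ z : AlgebraicClosure k, aeval z (g * h) = 0 → z ∈ N := fun z hz =>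
    hZN z (Or.inl ((mem_rootSet_of_ne hgh0).2 hz))
  have hwaN : wa ∈ N := hZN _ (Or.inr (Or.inl rfl))
  have hwuN : ∀ u ∈ U, sq (algebraMap k _ u) ∈ N := fun u hu =>
    hZN _ (Or.inr (Or.inr (Or.inl ⟨u, hu, rfl⟩)))
  have hwrN : ∀ z : AlgebraicClosure k, aeval z (g * h) = 0 → sq (aeval z g) ∈ N := fun z hz =>
    hZN _ (Or.inr (Or.inr (Or.inr ⟨z, (mem_rootSet_of_ne hgh0).2 hz, rfl⟩)))
  set σ := res (ρ₁ * τ) with hσdef
  have hσ_apply : ∀ y : N, ((σ y : N) : AlgebraicClosure k) = ρ₁ (τ y) := fun y => by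
    rw [hσdef, hres_apply, AlgEquiv.mul_apply]
  have hcoe : ∀ (y : N) (p : k[X]), ((aeval y p : N) : AlgebraicClosure k) =
      aeval (y : AlgebraicClosure k) p := fun y p => (aeval_algHom_apply N.val y p).symm
  refine ⟨N, inferInstance, inferInstance, inferInstance, inferInstance, σ, ?_⟩
  refine ⟨?_, ?_, ?_, ?_, ?_, ?_⟩
  · refine IntermediateField.splits_of_splits (IsAlgClosed.splits _) fun z hz => ?_
    exact hRN z ((mem_rootSet_of_ne hgh0).1 hz)
  · refine ⟨⟨wa, hwaN⟩, ?_, ?_⟩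
    · apply Subtype.ext
      exact hwa2
    · intro h1
      have h2 := congrArg (Subtype.val) h1
      rw [hσ_apply] at h2
      change ρ₁ (τ wa) = wa at h2
      rw [hτa, map_neg, hfix wa hwaN (hsqfix ρ₁ wa (by rw [hwa2, AlgEquiv.commutes]))] at h2
      have h3 : wa = 0 := by
        have h4 : (2 : AlgebraicClosure k) * wa = 0 := by linear_combination -h2
        rcases mul_eq_zero.1 h4 with h5 | h5
        · exact absurd h5 two_ne_zero
        · exact h5
      rw [h3, zero_pow two_ne_zero, eq_comm, map_eq_zero] at hwa2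
      exact ha hwa2
  · intro u hu
    refine ⟨⟨_, hwuN u hu⟩, ?_, ?_⟩
    · apply Subtype.ext
      exact hsq _
    · apply Subtype.ext
      rw [hσ_apply]
      change ρ₁ (τ (sq (algebraMap k _ u))) = sq (algebraMap k _ u)
      rw [ev_fix hV h2V u (hU u hu).2 _ (hsq _) τ hτ]
      exact hfix _ (hwuN u hu) (hsqfix ρ₁ _ (by rw [hsq, AlgEquiv.commutes]))
  · intro y hy h1
    have h2 : aeval (y : AlgebraicClosure k) g = 0 := by rw [← hcoe, hy]; rfl
    have h3 := congrArg (Subtype.val) h1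
    rw [hσ_apply, hτroot _ (by rw [map_mul, h2, zero_mul])] at h3
    exact hρ₁g _ h2 h3
  · refine ⟨m, hmodd, fun y hy => ?_⟩
    have h2 : aeval (y : AlgebraicClosure k) (g * h) = 0 := by rw [← hcoe, hy]; rfl
    have h3 : ∀ n : ℕ, (((σ ^ n) y : N) : AlgebraicClosure k) = (ρ₁ ^ n) y ∧
        aeval ((ρ₁ ^ n) (y : AlgebraicClosure k)) (g * h) = 0 := by
      intro n
      induction n with
      | zero => exact ⟨by simp, by simpa using h2⟩
      | succ n ih =>
        constructor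
        · rw [pow_succ', AlgEquiv.mul_apply, hσ_apply, ih.1, hτroot _ ih.2, pow_succ',
            AlgEquiv.mul_apply]
        · rw [pow_succ', AlgEquiv.mul_apply, ← haeval, ih.2, map_zero]
    apply Subtype.ext
    rw [(h3 m).1]
    exact hρ₁m _ y.2
  · intro y hy h1
    have h2 : aeval (y : AlgebraicClosure k) h = 0 := by rw [← hcoe, hy]; rfl
    have h2' : aeval (y : AlgebraicClosure k) (g * h) = 0 := by rw [map_mul, h2, mul_zero]
    have h3 := congrArg (Subtype.val) h1
    rw [hσ_apply, hτroot _ h2'] at h3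
    refine ⟨⟨_, hwrN _ h2'⟩, ?_, ?_⟩
    · apply Subtype.ext
      rw [hcoe]
      exact hsq _
    · apply Subtype.ext
      rw [hσ_apply]
      change ρ₁ (τ (sq (aeval (y : AlgebraicClosure k) g))) = sq (aeval (y : AlgebraicClosure k) g)
      rw [hτγ _ _ h2 (hsq _)]
      exact hfix _ (hwrN _ h2') (hsqfix ρ₁ _ (by rw [hsq, haeval, h3]))

end SC3
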