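import Pool.Agent.MP_c1dca2_ag.SC3.G7

/-!
# [SC3-G9] the global contradiction

Proof. For every place `v` take `A` with `IsVal v A` (`exists_isVal`), `V` above `A`
(`SC2.exists_above`), `hA.ev`. Claim: `Ev v (a * d)` for all `v ∉ S`.
* `v ≠ v₁, v₂, v₃, v₄`: `Ev v a`, `Ev v b`, so `Ev v (a b)`, `Out.even`: `Ev v d`, `Ev.mul`.
* `v = v₁` or `v₂` (so `v ≠ v₃, v₄`, `Ev v b`, and `a b` is not even, `Ev.of_mul`): `Typ σ₁ v` gives `R, φ₀`;
  `frob_lift` gives `i : N₁ → L`, `V`, `φ` with `φ (i x) = i (φ₀ x)`. If `r ∈ L` is a root of `h` with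
  `φ r = r`, then `r = i r'` (`h` splits in `N₁`, so all its roots in `L` come from `N₁`), `φ₀ r' = r'`, and
  `σ₁ ∈ ⟨φ₀⟩` fixes `r'`: contradiction to `hσ₁`. So `Out.odd` applies: `d` is not even at `v`, and
  `Ev v (a d)` (`ev_of_not`).
* `v = v₃` or `v₄` (`Ev v a`, `a b` not even): `Typ σ₂ v`, `frob_lift` with `i : N₂ → L`; no root of `g` is
  fixed by `φ` (`Big.rg`, `g h` splits in `N₂`, same argument), so `Out.sign` gives `Ev v d`, `Ev v (a d)`.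
So `hsel` gives `u ∈ U` and `t ∈ k` with `a d u = t²`, `t ≠ 0`.
At `v = v₃` (with `i, V, φ, φ₀`): let `m` be from `Big.odd` for `σ₂`; `φ₀ ∈ ⟨σ₂⟩`, so `φ₀^m` fixes the
roots of `g h` (`⟨σ₂⟩` is commutative: `φ₀ = σ₂^n`, `φ₀^m = (σ₂^m)^n`), hence `φ^m` fixes the roots of
`g` in `L`. `Out.sign` gives a root `r` of `h` in `L` with `φ r = r`, `r = i r'`, `φ₀ r' = r'`, `σ₂ r' = r'`
(`σ₂ ∈ ⟨φ₀⟩`), `Big.rh` gives `γ' ∈ N₂`, `γ'² = g(r')`, `σ₂ γ' = γ'`, so `φ₀ γ' = γ'`; `γ = i γ'`: `φ γ = γ`, `γ ≠ 0`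
(`g(r) ≠ 0`: `g`, `h` coprime). Let `δ ∈ L`, `δ² = d`: `φ δ · γ = δ · φ γ = δ γ`, so `φ δ = δ`. Let
`w, w' ∈ N₂` be the square roots of `a`, `u` from `Big.sa`, `Big.sU`: `σ₂ w ≠ w`, so `φ₀ w ≠ w`
(else `σ₂ ∈ ⟨φ₀⟩` fixes `w`), `φ₀ w = - w`; `φ₀ w' = w'`. `(i w · δ · i w')² = a d u = t²`, so
`i w · δ · i w' = ± t` is fixed by `φ`; but `φ` changes its sign and it is not `0`
(characteristic `0`): contradiction.
-/

set_option autoImplicit false

open Polynomial NumberField IsDedekindDomain IsLocalRing SC2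

namespace SC3

/-- roots in `L` come from `N` -/
private theorem g9_root {k N L : Type} [Field k] [Field N] [Field L] [Algebra k N] [Algebra k L]
    (i : N →ₐ[k] L) (p : k[X]) (hp : p ≠ 0) (hs : (p.map (algebraMap k N)).Splits) (r : L)
    (hr : aeval r p = 0) : ∃ r' : N, i r' = r ∧ aeval r' p = 0 := by
  have h0 : (p.map (algebraMap k N)) ≠ 0 := (Polynomial.map_ne_zero_iff
    (algebraMap k N).injective).2 hp
  have h1 : ((p.map (algebraMap k N)).map (i : N →+* L)).IsRoot r := by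
    rw [Polynomial.map_map, Polynomial.IsRoot.def, Polynomial.eval_map]
    have h2 : ((i : N →+* L).comp (algebraMap k N)) = algebraMap k L := i.comp_algebraMap
    rw [h2, ← Polynomial.aeval_def, hr]
  obtain ⟨r', hr'⟩ := hs.mem_range_of_isRoot h0 h1
  refine ⟨r', hr', ?_⟩
  have h2 : i (aeval r' p) = 0 := by
    rw [← Polynomial.aeval_algHom_apply]
    have h3 : i r' = r := hr'
    rw [h3, hr]
  exact (map_eq_zero i).1 h2

/-- elements of `⟨φ⟩` fix the fixed points of `φ` -/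
private theorem g9_fix {k N : Type} [Field k] [Field N] [Algebra k N] (φ σ : N ≃ₐ[k] N)
    (h : σ ∈ Subgroup.zpowers φ) (x : N) (hx : φ x = x) : σ x = x := by
  have h1 : Subgroup.zpowers φ ≤ MulAction.stabilizer (N ≃ₐ[k] N) x := by
    rw [Subgroup.zpowers_le]
    exact hx
  exact h1 h

private theorem g9_pow {k N L : Type} [Field k] [Field N] [Field L] [Algebra k N] [Algebra k L]
    (i : N →ₐ[k] L) (φ₀ : N ≃ₐ[k] N) (φ : L ≃ₐ[k] L) (h : ∀ x : N, φ (i x) = i (φ₀ x)) (m : ℕ)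
    (x : N) : (φ ^ m) (i x) = i ((φ₀ ^ m) x) := by
  induction m generalizing x with
  | zero => simp
  | succ m ih => rw [pow_succ, pow_succ, AlgEquiv.mul_apply, AlgEquiv.mul_apply, h, ih]


theorem contra {k : Type} [Field k] [NumberField k] {L : Type} [Field L] [Algebra k L]
    [IsAlgClosed L] [IsGalois k L] (g h : k[X]) (hg : g.Monic) (hh : h.Monic)
    (hsep : (g * h).Separable) (S : Set (HeightOneSpectrum (𝓞 k)))
    (hgood : ∀ v, v ∉ S → ∀ A, IsVal v A → GoodAt A (g * h)) (U : Finset k)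
    (hU : ∀ u ∈ U, u ≠ 0)
    (hsel : ∀ d : k, d ≠ 0 → (∀ v, v ∉ S → Ev v d) → ∃ u ∈ U, IsSquare (d * u))
    {N₁ : Type} [Field N₁] [NumberField N₁] [Algebra k N₁] [IsGalois k N₁] (σ₁ : N₁ ≃ₐ[k] N₁)
    (hspl₁ : (h.map (algebraMap k N₁)).Splits) (hσ₁ : ∀ r : N₁, aeval r h = 0 → σ₁ r ≠ r)
    {N₂ : Type} [Field N₂] [NumberField N₂] [Algebra k N₂] [IsGalois k N₂] (σ₂ : N₂ ≃ₐ[k] N₂)
    (a b : k) (ha : a ≠ 0) (hb : b ≠ 0) (hbig : Big g h U a σ₂)
    (v₁ v₂ v₃ v₄ : HeightOneSpectrum (𝓞 k)) (h1 : v₁ ∉ S) (h2 : v₂ ∉ S) (h3 : v₃ ∉ S)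
    (h4 : v₄ ∉ S) (h31 : v₃ ≠ v₁) (h32 : v₃ ≠ v₂) (h41 : v₄ ≠ v₁) (h42 : v₄ ≠ v₂)
    (t1 : Typ σ₁ v₁) (t2 : Typ σ₁ v₂) (t3 : Typ σ₂ v₃) (t4 : Typ σ₂ v₄)
    (a1 : ¬ Ev v₁ a) (a2 : ¬ Ev v₂ a) (ae : ∀ v, v ≠ v₁ → v ≠ v₂ → Ev v a)
    (b3 : ¬ Ev v₃ b) (b4 : ¬ Ev v₄ b) (be : ∀ v, v ≠ v₃ → v ≠ v₄ → Ev v b)
    (d : k) (hd : d ≠ 0)
    (hout : ∀ A : ValuationSubring k, GoodAt A (g * h) →
      ∀ V : ValuationSubring L, Above A V → Out A V (a * b) g h d) : False := by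
  have hg0 : g ≠ 0 := hg.ne_zero
  have hh0 : h ≠ 0 := hh.ne_zero
  -- the roots of `g`, `h` are different
  have hcop : IsCoprime g h := hsep.isCoprime
  have hsplg : (g.map (algebraMap k N₂)).Splits := by
    refine Polynomial.Splits.of_dvd hbig.spl ?_ ?_
    · rw [Ne, Polynomial.map_eq_zero]
      exact mul_ne_zero hg0 hh0
    · exact Polynomial.map_dvd _ (dvd_mul_right g h)
  have hsplh : (h.map (algebraMap k N₂)).Splits := by
    refine Polynomial.Splits.of_dvd hbig.spl ?_ ?_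
    · rw [Ne, Polynomial.map_eq_zero]
      exact mul_ne_zero hg0 hh0
    · exact Polynomial.map_dvd _ (dvd_mul_left h g)
  -- the places of type `σ₁`
  have hodd : ∀ v, v ∉ S → v ≠ v₃ → v ≠ v₄ → ¬ Ev v a → Typ σ₁ v → Ev v (a * d) := by
    intro v hv hv3 hv4 hva ht
    obtain ⟨A, hA⟩ := exists_isVal v
    have hgA := hgood v hv A hA
    have hvb : Ev v b := be v hv3 hv4
    have hab : ¬ Ev v (a * b) := by
      intro hab
      rw [mul_comm] at hab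
      exact hva (hvb.of_mul hb hab)
    obtain ⟨R, φ₀, hRp, hRv, hfr, hzp, hRt⟩ := ht
    obtain ⟨i, V, φ, hV, hφ, hi⟩ := frob_lift (L := L) v A hA R hRp hRv hRt φ₀ hfr
    have ho := hout A hgA V hV
    have h5 : ¬ EvA A d := by
      refine ho.odd (fun h6 => hab ((hA.ev _).1 h6)) φ hφ ?_
      intro r hr hfix
      obtain ⟨r', hr', hr0⟩ := g9_root i h hh0 hspl₁ r hr
      have h7 : φ₀ r' = r' := by
        refine (show Function.Injective i from i.toRingHom.injective) ?_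
        rw [← hi, hr', hfix]
      refine hσ₁ r' hr0 (g9_fix φ₀ σ₁ ?_ r' h7)
      rw [hzp]
      exact Subgroup.mem_zpowers σ₁
    exact ev_of_not hva (fun h6 => h5 ((hA.ev _).2 h6))
  -- the places of type `σ₂`
  have hsgn : ∀ v, v ∉ S → v ≠ v₁ → v ≠ v₂ → ¬ Ev v b → Typ σ₂ v → Ev v d := by
    intro v hv hv1 hv2 hvb ht
    obtain ⟨A, hA⟩ := exists_isVal v
    have hgA := hgood v hv A hA
    have hva : Ev v a := ae v hv1 hv2
    have hab : ¬ Ev v (a * b) := fun hab => hvb (hva.of_mul ha hab)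
    obtain ⟨R, φ₀, hRp, hRv, hfr, hzp, hRt⟩ := ht
    obtain ⟨i, V, φ, hV, hφ, hi⟩ := frob_lift (L := L) v A hA R hRp hRv hRt φ₀ hfr
    have ho := hout A hgA V hV
    have h5 := (ho.sign (fun h6 => hab ((hA.ev _).1 h6)) φ hφ (by
      intro r hr hfix
      obtain ⟨r', hr', hr0⟩ := g9_root i g hg0 hsplg r hr
      have h7 : φ₀ r' = r' := by
        refine (show Function.Injective i from i.toRingHom.injective) ?_
        rw [← hi, hr', hfix]
      refine hbig.rg r' hr0 (g9_fix φ₀ σ₂ ?_ r' h7)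
      rw [hzp]
      exact Subgroup.mem_zpowers σ₂)).1
    exact (hA.ev _).1 h5
  have hall : ∀ v, v ∉ S → Ev v (a * d) := by
    intro v hv
    by_cases e1 : v = v₁
    · subst e1
      exact hodd _ hv h31.symm h41.symm a1 t1
    by_cases e2 : v = v₂
    · subst e2
      exact hodd _ hv h32.symm h42.symm a2 t2
    have hva : Ev v a := ae v e1 e2
    by_cases e3 : v = v₃
    · subst e3
      exact hva.mul (hsgn _ hv e1 e2 b3 t3)
    by_cases e4 : v = v₄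
    · subst e4
      exact hva.mul (hsgn _ hv e1 e2 b4 t4)
    obtain ⟨A, hA⟩ := exists_isVal v
    have hgA := hgood v hv A hA
    obtain ⟨V, hV⟩ := exists_above (C := L) A
    have ho := hout A hgA V hV
    have h5 := ho.even ((hA.ev _).2 (hva.mul (be v e3 e4)))
    exact hva.mul ((hA.ev _).1 h5)
  obtain ⟨u, hu, t, ht⟩ := hsel (a * d) (mul_ne_zero ha hd) hall
  have hu0 : u ≠ 0 := hU u hu
  have ht0 : t ≠ 0 := by
    rintro rfl
    rw [mul_zero] at ht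
    exact mul_ne_zero (mul_ne_zero ha hd) hu0 ht
  -- the place `v₃`
  obtain ⟨A, hA⟩ := exists_isVal v₃
  have hgA := hgood v₃ h3 A hA
  have hva : Ev v₃ a := ae v₃ h31 h32
  have hab : ¬ Ev v₃ (a * b) := fun hab => b3 (hva.of_mul ha hab)
  obtain ⟨R, φ₀, hRp, hRv, hfr, hzp, hRt⟩ := t3
  obtain ⟨i, V, φ, hV, hφ, hi⟩ := frob_lift (L := L) v₃ A hA R hRp hRv hRt φ₀ hfr
  have ho := hout A hgA V hV
  have hσφ : σ₂ ∈ Subgroup.zpowers φ₀ := by
    rw [hzp]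
    exact Subgroup.mem_zpowers σ₂
  have hφσ : φ₀ ∈ Subgroup.zpowers σ₂ := by
    rw [← hzp]
    exact Subgroup.mem_zpowers φ₀
  obtain ⟨m, hm, hmfix⟩ := hbig.odd
  have h5 := (ho.sign (fun h6 => hab ((hA.ev _).1 h6)) φ hφ (by
      intro r hr hfix
      obtain ⟨r', hr', hr0⟩ := g9_root i g hg0 hsplg r hr
      have h7 : φ₀ r' = r' := by
        refine (show Function.Injective i from i.toRingHom.injective) ?_
        rw [← hi, hr', hfix]
      exact hbig.rg r' hr0 (g9_fix φ₀ σ₂ hσφ r' h7))).2 m hm (by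
      intro r hr
      obtain ⟨r', hr', hr0⟩ := g9_root i g hg0 hsplg r hr
      have h8 : (σ₂ ^ m) r' = r' := hmfix r' (by rw [map_mul, hr0, zero_mul])
      have h9 : φ₀ ^ m ∈ Subgroup.zpowers (σ₂ ^ m) := by
        obtain ⟨n, hn⟩ := Subgroup.mem_zpowers_iff.1 hφσ
        rw [Subgroup.mem_zpowers_iff]
        refine ⟨n, ?_⟩
        rw [← hn, ← zpow_natCast, ← zpow_natCast, ← zpow_mul, ← zpow_mul, mul_comm]
      rw [← hr', g9_pow i φ₀ φ hi, g9_fix (σ₂ ^ m) (φ₀ ^ m) h9 r' h8])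
  obtain ⟨r, hrh, hrfix, hrs⟩ := h5
  obtain ⟨r', hr', hr0⟩ := g9_root i h hh0 hsplh r hrh
  have h7 : φ₀ r' = r' := by
    refine (show Function.Injective i from i.toRingHom.injective) ?_
    rw [← hi, hr', hrfix]
  obtain ⟨γ', hγ', hγσ⟩ := hbig.rh r' hr0 (g9_fix φ₀ σ₂ hσφ r' h7)
  have hγφ : φ₀ γ' = γ' := g9_fix σ₂ φ₀ hφσ γ' hγσ
  have hgr' : aeval r' g ≠ 0 := by
    intro h8
    obtain ⟨x, y, hxy⟩ := hcop
    have h9 := congrArg (aeval r') hxy
    rw [map_add, map_mul, map_mul, h8, hr0, mul_zero, mul_zero, add_zero, map_one] at h9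
    exact zero_ne_one h9
  have hγ0 : γ' ≠ 0 := by
    rintro rfl
    rw [zero_pow two_ne_zero] at hγ'
    exact hgr' hγ'.symm
  obtain ⟨δ, hδ⟩ := IsAlgClosed.exists_pow_nat_eq (algebraMap k L d) two_pos
  have h10 := hrs (i γ') δ (by rw [← map_pow, hγ', ← Polynomial.aeval_algHom_apply, hr']) hδ
  rw [hi, hγφ] at h10
  have hδφ : φ δ = δ := mul_right_cancel₀ ((map_ne_zero i).2 hγ0) h10
  obtain ⟨w, hw, hwσ⟩ := hbig.sa
  obtain ⟨w', hw', hw'σ⟩ := hbig.sU u hu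
  have hwφ : φ₀ w ≠ w := fun h8 => hwσ (g9_fix φ₀ σ₂ hσφ w h8)
  have hw'φ : φ₀ w' = w' := g9_fix σ₂ φ₀ hφσ w' hw'σ
  have hwφ' : φ₀ w = - w := by
    have h8 : (φ₀ w) ^ 2 = w ^ 2 := by rw [← map_pow, hw, AlgEquiv.commutes]
    rcases sq_eq_sq_iff_eq_or_eq_neg.1 h8 with h9 | h9
    · exact absurd h9 hwφ
    · exact h9
  have h11 : (i w * δ * i w') ^ 2 = (algebraMap k L t) ^ 2 := by
    rw [mul_pow, mul_pow, ← map_pow, ← map_pow, hw, hw', hδ, AlgHom.commutes, AlgHom.commutes,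
      ← map_mul, ← map_mul, ht, ← map_pow, sq]
  have h12 : φ (i w * δ * i w') = i w * δ * i w' := by
    rcases sq_eq_sq_iff_eq_or_eq_neg.1 h11 with h13 | h13
    · rw [h13, AlgEquiv.commutes]
    · rw [h13, map_neg, AlgEquiv.commutes]
  rw [map_mul, map_mul, hi, hi, hwφ', hw'φ, hδφ, map_neg] at h12
  have h13 : (2 : L) * (i w * δ * i w') = 0 := by linear_combination -h12
  have : CharZero L := charZero_of_injective_algebraMap (algebraMap k L).injective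
  have h14 : i w * δ * i w' = 0 := (mul_eq_zero.1 h13).resolve_left two_ne_zero
  rw [h14, zero_pow two_ne_zero] at h11
  have h15 : algebraMap k L t = 0 := (pow_eq_zero_iff two_ne_zero).1 h11.symm
  exact ht0 ((map_eq_zero _).1 h15)

end SC3
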