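import Pool.Agent.MP_c1dca2_ag.SC3.T0

/-!
# [SC3-R1] the class of a rational point

Compare `SC2.no_place` (file SC2/C3.lean) and `SEC.output_of_place` (file SEC/R.lean) for the residues.
If `x ∉ P.A`: the residue `η` of `y / x^(deg (g h) / 2)` satisfies `η² = c`; `d = 1`: `c` is even at every
`A`, so only `Out.even` has content and `EvA A 1` holds.
If `x ∈ P.A`: let `x₀, y₀ ∈ k` be the residues of `x`, `y`: `y₀² = c g(x₀) h(x₀)`, and
`d = g(x₀) ≠ 0`, `h(x₀) ≠ 0` (no roots in `k`), so `y₀ ≠ 0`. Let `A` be good for `g h`, `V` above `A`.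
`g`, `h` have coefficients in `A` (monic factors of a monic polynomial over the integrally closed
`A`; or: the roots of `g h` in `C = k^alg` are in `V`). The roots `r i ∈ V` of `g h` are incongruent
(`SC2.exists_roots`), `g = ∏_G (X - r i)`, `h` = the product over the complement (`roots_of_factor`).
* If `x₀ ∉ A`: `|g(x₀)| = |x₀|^(deg g)`, `|h(x₀)| = |x₀|^(deg h)`: squares, so `c` and `d` are even.
* If `x₀ ∈ A`: at most one `r i` satisfies `|x₀ - r i| < 1`. If none: `|g(x₀)| = |h(x₀)| = 1`,
  `|c| = |y₀|²`, `d` even, `c` even. If one, `i`, with `i ∈ G`: `|h(x₀)| = 1`, `|d| = |y₀|² / |c|`, so `d` is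
  even iff `c` is even; if `i ∉ G`: `|d| = |g(x₀)| = 1`, `d` is even.
  A Frobenius element `φ` fixes `r i`: `φ (r i) ≡ (r i)^q ≡ x₀^q ≡ x₀ ≡ r i` modulo the maximal ideal
  (`x₀ ∈ A`, the residue field of `A` has `q` elements), `φ (r i)` is a root and the roots are
  incongruent.
So: `Out.even` holds. `Out.odd`: `c` not even implies `x₀ ∈ A` and an `i` exists, `φ (r i) = r i`, so `r i`
is not a root of `h`, `i ∈ G`, `d` is not even. `Out.sign`: an `i` exists, `φ (r i) = r i`, so `i ∉ G`: `d` is
even. `r = r i` is a root of `h`. `γ² = g(r)`, `δ² = g(x₀)`: both are units and `g(r) ≡ g(x₀)`, so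
`(δ/γ)² ≡ 1`, `δ/γ ≡ ± 1`; `φ (δ/γ) = ± δ/γ` (`γ²` and `δ²` are fixed by `φ`) and
`φ (δ/γ) ≡ ± 1`, so `φ (δ/γ) = δ/γ` (`|2| = 1`).
-/

set_option autoImplicit false

open Polynomial IsLocalRing SEC SC2

namespace SC3

section core

variable {k C : Type} [Field k] [Field C] [Algebra k C] {A : ValuationSubring k}
  {V : ValuationSubring C}

theorem R1_eva (h : Above A V) (d : k) :
    EvA A d ↔ ∃ b : k, V.valuation (algebraMap k C d) = V.valuation (algebraMap k C b) ^ 2 := by
  unfold EvA
  refine exists_congr fun b => ?_
  rw [← map_pow, ← map_pow, ← map_pow, a5_val_eq h]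

theorem R1_one (h : Above A V) (d : k) (hd : V.valuation (algebraMap k C d) = 1) : EvA A d := by
  rw [R1_eva h]
  exact ⟨1, by rw [hd]; simp⟩

theorem R1_add_lt {a b : C} (ha : V.valuation a < 1) (hb : V.valuation b < 1) :
    V.valuation (a + b) < 1 := Valuation.map_add_lt _ ha hb

theorem R1_sub_lt {a b : C} (ha : V.valuation a < 1) (hb : V.valuation b < 1) :
    V.valuation (a - b) < 1 := by
  rw [sub_eq_add_neg]
  exact R1_add_lt ha (by rw [Valuation.map_neg]; exact hb)

theorem R1_swap (a b : C) : V.valuation (a - b) = V.valuation (b - a) :=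
  Valuation.map_sub_swap _ _ _

/-- congruent products -/
theorem R1_prod_congr {ι : Type} (G : Finset ι) (f g : ι → C) (hf : ∀ i ∈ G, V.valuation (f i) ≤ 1)
    (hg : ∀ i ∈ G, V.valuation (g i) ≤ 1) (hfg : ∀ i ∈ G, V.valuation (f i - g i) < 1) :
    V.valuation (∏ i ∈ G, f i - ∏ i ∈ G, g i) < 1 := by
  classical
  induction G using Finset.induction_on with
  | empty => simp
  | insert a s ha ih =>
    rw [Finset.prod_insert ha, Finset.prod_insert ha]
    have h1 := ih (fun i hi => hf i (Finset.mem_insert_of_mem hi))
      (fun i hi => hg i (Finset.mem_insert_of_mem hi))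
      (fun i hi => hfg i (Finset.mem_insert_of_mem hi))
    have h2 : f a * ∏ i ∈ s, f i - g a * ∏ i ∈ s, g i =
        f a * (∏ i ∈ s, f i - ∏ i ∈ s, g i) + (f a - g a) * ∏ i ∈ s, g i := by ring
    rw [h2]
    apply R1_add_lt
    · rw [map_mul, mul_comm]
      exact mul_lt_one_of_lt_of_le h1 (hf a (Finset.mem_insert_self _ _))
    · rw [map_mul]
      refine mul_lt_one_of_lt_of_le (hfg a (Finset.mem_insert_self _ _)) ?_
      rw [map_prod]
      exact Finset.prod_le_one' fun i hi => hg i (Finset.mem_insert_of_mem hi)

theorem R1_eval {ι : Type} (g : k[X]) (G : Finset ι) (r : ι → C)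
    (hg : g.map (algebraMap k C) = ∏ i ∈ G, (X - Polynomial.C (r i))) (z : C) :
    aeval z g = ∏ i ∈ G, (z - r i) := by
  rw [← eval_map_algebraMap, hg, eval_prod]
  exact Finset.prod_congr rfl fun i _ => by rw [eval_sub, eval_X, eval_C]

/-- the local statement -/
theorem R1_out [Finite (ResidueField A)] (hV : Above A V) (h2 : V.valuation 2 = 1) (g h : k[X])
    {ι : Type} (G H : Finset ι) (r : ι → C)
    (hg : g.map (algebraMap k C) = ∏ i ∈ G, (X - Polynomial.C (r i)))
    (hh : h.map (algebraMap k C) = ∏ i ∈ H, (X - Polynomial.C (r i)))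
    (hGH : ∀ i, i ∈ G ∨ i ∈ H) (hdis : ∀ i ∈ G, i ∉ H) (hGe : Even G.card) (hHe : Even H.card)
    (hint : ∀ i, r i ∈ V) (hd : ∀ i j, i ≠ j → V.valuation (r i - r j) = 1)
    (hp : ∀ (σ : C ≃ₐ[k] C) i, ∃ j, σ (r i) = r j) (c x0 y0 : k) (hc : c ≠ 0)
    (hg0 : g.eval x0 ≠ 0) (hh0 : h.eval x0 ≠ 0)
    (hy : y0 ^ 2 = c * (g.eval x0 * h.eval x0)) : Out A V c g h (g.eval x0) := by
  classical
  set X0 : C := algebraMap k C x0 with hX0
  have hgx : algebraMap k C (g.eval x0) = ∏ i ∈ G, (X0 - r i) := by
    rw [← R1_eval g G r hg, hX0, aeval_algebraMap_apply, aeval_def, eval₂_eq_eval_map]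
    simp
  have hhx : algebraMap k C (h.eval x0) = ∏ i ∈ H, (X0 - r i) := by
    rw [← R1_eval h H r hh, hX0, aeval_algebraMap_apply, aeval_def, eval₂_eq_eval_map]
    simp
  have hvy : V.valuation (algebraMap k C y0) ^ 2 = V.valuation (algebraMap k C c) *
      (V.valuation (algebraMap k C (g.eval x0)) * V.valuation (algebraMap k C (h.eval x0))) := by
    rw [← map_pow, ← map_pow, hy]
    simp only [map_mul]
  have hvg0 : V.valuation (algebraMap k C (g.eval x0)) ≠ 0 := by
    rw [Ne, Valuation.zero_iff, map_eq_zero]; exact hg0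
  have hvh0 : V.valuation (algebraMap k C (h.eval x0)) ≠ 0 := by
    rw [Ne, Valuation.zero_iff, map_eq_zero]; exact hh0
  have hvc0 : V.valuation (algebraMap k C c) ≠ 0 := by
    rw [Ne, Valuation.zero_iff, map_eq_zero]; exact hc
  by_cases hxA : x0 ∈ A
  · have hX0V : V.valuation X0 ≤ 1 := (V.valuation_le_one_iff _).2 ((hV x0).2 hxA)
    have hle : ∀ i, V.valuation (X0 - r i) ≤ 1 := fun i =>
      (Valuation.map_sub _ _ _).trans (max_le hX0V ((V.valuation_le_one_iff _).2 (hint i)))
    by_cases hex : ∃ i, V.valuation (X0 - r i) < 1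
    · obtain ⟨i, hi⟩ := hex
      have hone : ∀ j, j ≠ i → V.valuation (X0 - r j) = 1 := by
        intro j hj
        refine le_antisymm (hle j) (not_lt.1 fun hlt => ?_)
        have h3 : V.valuation (r i - r j) < 1 := by
          have : r i - r j = (X0 - r j) - (X0 - r i) := by ring
          rw [this]
          exact R1_sub_lt hlt hi
        rw [hd i j (Ne.symm hj)] at h3
        exact lt_irrefl _ h3
      have hgone : i ∉ G → V.valuation (algebraMap k C (g.eval x0)) = 1 := by
        intro hiG
        rw [hgx, map_prod]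
        exact Finset.prod_eq_one fun j hj => hone j (fun h => hiG (h ▸ hj))
      have hhone : i ∉ H → V.valuation (algebraMap k C (h.eval x0)) = 1 := by
        intro hiH
        rw [hhx, map_prod]
        exact Finset.prod_eq_one fun j hj => hone j (fun h => hiH (h ▸ hj))
      -- Frobenius fixes `r i`
      have hfix : ∀ φ : C ≃ₐ[k] C, Frob (Nat.card (ResidueField A)) V φ → φ (r i) = r i := by
        intro φ hφ
        obtain ⟨j, hj⟩ := hp φ i
        by_cases hij : j = i
        · rw [hj, hij]
        exfalso
        set q := Nat.card (ResidueField A) with hq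
        have h3 := hφ.frob (r i) (hint i)
        rw [V.mem_nonunits_iff] at h3
        have h4 : V.valuation (X0 ^ q - r i ^ q) < 1 := by
          obtain ⟨w, hw⟩ := sub_dvd_pow_sub_pow X0 (r i) q
          have hwle : V.valuation w ≤ 1 := by
            have h5 : X0 ^ q - r i ^ q = (X0 - r i) * ∑ l ∈ Finset.range q,
                X0 ^ l * r i ^ (q - 1 - l) := by
              rw [mul_comm]
              exact (Commute.all X0 (r i)).geom_sum₂_mul q |>.symm
            by_cases hz : X0 - r i = 0
            · exact (by
                have h6 : V.valuation (∑ l ∈ Finset.range q, X0 ^ l * r i ^ (q - 1 - l)) ≤ 1 := by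
                  apply Valuation.map_sum_le
                  intro l _
                  rw [map_mul, map_pow, map_pow]
                  exact mul_le_one' (pow_le_one' hX0V _)
                    (pow_le_one' ((V.valuation_le_one_iff _).2 (hint i)) _)
                by_contra hcon
                exact hcon (by
                  exfalso
                  have h7 : φ (r i) - r i ^ q = r j - r i ^ q := by rw [hj]
                  rw [h7] at h3
                  have h8 : X0 = r i := sub_eq_zero.1 hz
                  have h9 : r i ^ q - r i = algebraMap k C (x0 ^ q - x0) := by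
                    rw [← h8, hX0, map_sub, map_pow]
                  have h10 : V.valuation (r i ^ q - r i) < 1 := by
                    rw [h9, a2_under hV]
                    let _ := Fintype.ofFinite (ResidueField A)
                    have h11 : residue A (⟨x0, hxA⟩ ^ q - ⟨x0, hxA⟩) = 0 := by
                      rw [map_sub, map_pow, hq, Nat.card_eq_fintype_card, FiniteField.pow_card,
                        sub_self]
                    rw [residue_eq_zero_iff, A.valuation_lt_one_iff] at h11
                    exact h11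
                  have h12 := R1_add_lt h3 h10
                  have h13 : r j - r i ^ q + (r i ^ q - r i) = r j - r i := by ring
                  rw [h13, hd j i hij] at h12
                  exact lt_irrefl _ h12))
            · have h6 : w = ∑ l ∈ Finset.range q, X0 ^ l * r i ^ (q - 1 - l) :=
                mul_left_cancel₀ hz (hw.symm.trans h5)
              rw [h6]
              apply Valuation.map_sum_le
              intro l _
              rw [map_mul, map_pow, map_pow]
              exact mul_le_one' (pow_le_one' hX0V _)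
                (pow_le_one' ((V.valuation_le_one_iff _).2 (hint i)) _)
          rw [hw, map_mul]
          exact mul_lt_one_of_lt_of_le hi hwle
        have h5 : V.valuation (X0 ^ q - X0) < 1 := by
          have h9 : X0 ^ q - X0 = algebraMap k C (x0 ^ q - x0) := by
            rw [hX0, map_sub, map_pow]
          rw [h9, a2_under hV]
          let _ := Fintype.ofFinite (ResidueField A)
          have h11 : residue A (⟨x0, hxA⟩ ^ q - ⟨x0, hxA⟩) = 0 := by
            rw [map_sub, map_pow, hq, Nat.card_eq_fintype_card, FiniteField.pow_card, sub_self]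
          rw [residue_eq_zero_iff, A.valuation_lt_one_iff] at h11
          exact h11
        have h6 : r j - r i = (φ (r i) - r i ^ q) - (X0 ^ q - r i ^ q) + (X0 ^ q - X0) +
            (X0 - r i) := by
          rw [hj]; ring
        have h7 : V.valuation (r j - r i) < 1 := by
          rw [h6]
          exact R1_add_lt (R1_add_lt (R1_sub_lt h3 h4) h5) hi
        rw [hd j i hij] at h7
        exact lt_irrefl _ h7
      refine ⟨?_, ?_, ?_⟩
      · -- even
        intro hcev
        by_cases hiG : i ∈ G
        · have hhv := hhone (hdis i hiG)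
          rw [hhv, mul_one] at hvy
          rw [R1_eva hV] at hcev ⊢
          obtain ⟨b, hb⟩ := hcev
          have hb0 : V.valuation (algebraMap k C b) ≠ 0 := by
            intro h0
            rw [h0] at hb
            exact hvc0 (by rw [hb]; simp)
          refine ⟨y0 / b, ?_⟩
          rw [map_div₀, map_div₀, div_pow, hvy, hb]
          field_simp
        · exact R1_one hV _ (hgone hiG)
      · -- odd
        intro hcne φ hφ hroot hdev
        have hiH : i ∉ H := by
          intro hiH
          apply hroot (r i) _ (hfix φ hφ)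
          rw [R1_eval h H r hh]
          exact Finset.prod_eq_zero hiH (sub_self _)
        have hhv := hhone hiH
        rw [hhv, mul_one] at hvy
        apply hcne
        rw [R1_eva hV] at hdev ⊢
        obtain ⟨b, hb⟩ := hdev
        have hb0 : V.valuation (algebraMap k C b) ≠ 0 := by
          intro h0
          rw [h0] at hb
          exact hvg0 (by rw [hb]; simp)
        refine ⟨y0 / b, ?_⟩
        rw [map_div₀, map_div₀, div_pow, hvy, hb]
        field_simp
      · -- sign
        intro hcne φ hφ hroot
        have hiG : i ∉ G := by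
          intro hiG
          apply hroot (r i) _ (hfix φ hφ)
          rw [R1_eval g G r hg]
          exact Finset.prod_eq_zero hiG (sub_self _)
        have hiH : i ∈ H := (hGH i).resolve_left hiG
        refine ⟨R1_one hV _ (hgone hiG), fun m _ _ => ⟨r i, ?_, hfix φ hφ, ?_⟩⟩
        · rw [R1_eval h H r hh]
          exact Finset.prod_eq_zero hiH (sub_self _)
        intro γ δ hγ hδ
        have hgr : aeval (r i) g = ∏ j ∈ G, (r i - r j) := R1_eval g G r hg _
        have hvgr : V.valuation (aeval (r i) g) = 1 := by
          rw [hgr, map_prod]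
          exact Finset.prod_eq_one fun j hj => hd i j (fun h => hiG (h ▸ hj))
        have hcong : V.valuation (δ ^ 2 - γ ^ 2) < 1 := by
          rw [hγ, hδ, hgr, hgx]
          apply R1_prod_congr
          · intro j _; exact hle j
          · intro j hj
            rw [hd i j (fun h => hiG (h ▸ hj))]
          · intro j _
            have : X0 - r j - (r i - r j) = X0 - r i := by ring
            rw [this]; exact hi
        have hvγ2 : V.valuation γ ^ 2 = 1 := by rw [← map_pow, hγ, hvgr]
        have hvγ : V.valuation γ = 1 := by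
          rcases lt_trichotomy (V.valuation γ) 1 with h3 | h3 | h3
          · have h4 := pow_lt_one' h3 two_ne_zero
            rw [hvγ2] at h4
            exact absurd h4 (lt_irrefl _)
          · exact h3
          · have h4 := one_lt_pow' h3 two_ne_zero
            rw [hvγ2] at h4
            exact absurd h4 (lt_irrefl _)
        have hv2γ : V.valuation (2 * γ) = 1 := by rw [map_mul, h2, hvγ, one_mul]
        have hφγ : φ γ = γ ∨ φ γ = -γ := by
          have h3 : (φ γ) ^ 2 = γ ^ 2 := by
            rw [← map_pow, hγ]
            have h4 : φ (aeval (r i) g) = aeval (φ (r i)) g :=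
              (aeval_algHom_apply φ.toAlgHom (r i) g).symm
            rw [h4, hfix φ hφ]
          exact sq_eq_sq_iff_eq_or_eq_neg.1 h3
        have hφδ : φ δ = δ ∨ φ δ = -δ := by
          have h3 : (φ δ) ^ 2 = δ ^ 2 := by
            rw [← map_pow, hδ, AlgEquiv.commutes]
          exact sq_eq_sq_iff_eq_or_eq_neg.1 h3
        -- `φ` preserves the maximal ideal
        have hφm : ∀ z : C, V.valuation z < 1 → V.valuation (φ z) < 1 := by
          intro z hz
          by_cases hz0 : z = 0
          · rw [hz0, map_zero, map_zero]; exact zero_lt_one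
          by_contra hcon
          have h3 : (φ z)⁻¹ ∈ V := by
            rw [← V.valuation_le_one_iff, map_inv₀]
            exact inv_le_one_of_one_le₀ (not_lt.1 hcon)
          rw [← map_inv₀, hφ.stab, ← V.valuation_le_one_iff, map_inv₀] at h3
          have h4 : 1 < (V.valuation z)⁻¹ := (one_lt_inv₀
            (lt_of_le_of_ne zero_le (Ne.symm ((Valuation.ne_zero_iff _).2 hz0)))).2 hz
          exact absurd h3 (not_le.2 h4)
        have hor : V.valuation (δ - γ) < 1 ∨ V.valuation (δ + γ) < 1 := by
          by_contra hcon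
          push Not at hcon
          have h3 : δ ^ 2 - γ ^ 2 = (δ - γ) * (δ + γ) := by ring
          rw [h3, map_mul] at hcong
          exact absurd hcong (not_lt.2 (one_le_mul hcon.1 hcon.2))
        rcases hφγ with h3 | h3 <;> rcases hφδ with h4 | h4
        · rw [h3, h4]
        · exfalso
          rcases hor with h5 | h5
          · have h6 := hφm _ h5
            rw [map_sub, h3, h4] at h6
            have h7 := R1_add_lt h5 h6
            have h8 : δ - γ + (-δ - γ) = -(2 * γ) := by ring
            rw [h8, Valuation.map_neg, hv2γ] at h7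
            exact lt_irrefl _ h7
          · have h6 := hφm _ h5
            rw [map_add, h3, h4] at h6
            have h7 := R1_add_lt h5 h6
            have h8 : δ + γ + (-δ + γ) = 2 * γ := by ring
            rw [h8, hv2γ] at h7
            exact lt_irrefl _ h7
        · exfalso
          rcases hor with h5 | h5
          · have h6 := hφm _ h5
            rw [map_sub, h3, h4] at h6
            have h7 := R1_sub_lt h6 h5
            have h8 : δ - -γ - (δ - γ) = 2 * γ := by ring
            rw [h8, hv2γ] at h7
            exact lt_irrefl _ h7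
          · have h6 := hφm _ h5
            rw [map_add, h3, h4] at h6
            have h7 := R1_sub_lt h5 h6
            have h8 : δ + γ - (δ + -γ) = 2 * γ := by ring
            rw [h8, hv2γ] at h7
            exact lt_irrefl _ h7
        · rw [h3, h4]; ring
    · -- no root is congruent to `x₀`
      push Not at hex
      have hone : ∀ j, V.valuation (X0 - r j) = 1 := fun j => le_antisymm (hle j) (hex j)
      have hg1 : V.valuation (algebraMap k C (g.eval x0)) = 1 := by
        rw [hgx, map_prod]
        exact Finset.prod_eq_one fun j _ => hone j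
      have hh1 : V.valuation (algebraMap k C (h.eval x0)) = 1 := by
        rw [hhx, map_prod]
        exact Finset.prod_eq_one fun j _ => hone j
      have hcev : EvA A c := by
        rw [R1_eva hV]
        refine ⟨y0, ?_⟩
        rw [hvy, hg1, hh1, mul_one, mul_one]
      exact ⟨fun _ => R1_one hV _ hg1, fun hne => absurd hcev hne, fun hne => absurd hcev hne⟩
  · -- `x₀ ∉ A`
    have hX0V : 1 < V.valuation X0 := by
      rw [← not_le, V.valuation_le_one_iff]
      exact fun h => hxA ((hV x0).1 h)
    have hval : ∀ j, V.valuation (X0 - r j) = V.valuation X0 := by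
      intro j
      apply Valuation.map_sub_eq_of_lt_left
      exact lt_of_le_of_lt ((V.valuation_le_one_iff _).2 (hint j)) hX0V
    have hX00 : V.valuation X0 ≠ 0 := (lt_trans zero_lt_one hX0V).ne'
    obtain ⟨a, ha⟩ := hGe
    obtain ⟨b, hb⟩ := hHe
    have hg1 : V.valuation (algebraMap k C (g.eval x0)) =
        V.valuation (algebraMap k C (x0 ^ a)) ^ 2 := by
      rw [hgx, map_prod, Finset.prod_congr rfl fun j _ => hval j, Finset.prod_const, ha, map_pow,
        map_pow, ← hX0, ← pow_mul]
      congr 1; ring
    have hh1 : V.valuation (algebraMap k C (h.eval x0)) =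
        V.valuation (algebraMap k C (x0 ^ b)) ^ 2 := by
      rw [hhx, map_prod, Finset.prod_congr rfl fun j _ => hval j, Finset.prod_const, hb, map_pow,
        map_pow, ← hX0, ← pow_mul]
      congr 1; ring
    have hcev : EvA A c := by
      rw [R1_eva hV]
      refine ⟨y0 / (x0 ^ a * x0 ^ b), ?_⟩
      rw [map_div₀, map_div₀, div_pow, hvy, hg1, hh1, map_mul, map_mul]
      have ha0 : V.valuation (algebraMap k C (x0 ^ a)) ≠ 0 := by
        rw [map_pow, map_pow, ← hX0]; exact pow_ne_zero _ hX00
      have hb0 : V.valuation (algebraMap k C (x0 ^ b)) ≠ 0 := by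
        rw [map_pow, map_pow, ← hX0]; exact pow_ne_zero _ hX00
      field_simp
    refine ⟨fun _ => ?_, fun hne => absurd hcev hne, fun hne => absurd hcev hne⟩
    rw [R1_eva hV]
    exact ⟨x0 ^ a, hg1⟩

end core

theorem R1_mem {k K : Type} [Field k] [Field K] [Algebra k K] (P : SEC.RatPlace k K) (g : k[X])
    (z : K) (hz : z ∈ P.A) : aeval z g ∈ P.A := by
  let ι : k →+* P.A := (algebraMap k K).codRestrict P.A.toSubring P.alg
  have h4 : (((g.map ι).eval ⟨z, hz⟩ : P.A) : K) = aeval z g := by
    have h5 := (Polynomial.eval_map_apply (f := P.A.subtype) (p := g.map ι) ⟨z, hz⟩).symm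
    refine Eq.trans h5 ?_
    rw [Polynomial.map_map, Polynomial.aeval_def, Polynomial.eval_map]
    rfl
  rw [← h4]
  exact ((g.map ι).eval ⟨z, hz⟩ : P.A).2

theorem out_of_place {k K : Type} [Field k] [CharZero k] [Field K] [Algebra k K] (g h : k[X])
    (hg : g.Monic) (hh : h.Monic) (hsep : (g * h).Separable) (hge : Even g.natDegree)
    (hhe : Even h.natDegree) (hgr : ∀ a, g.eval a ≠ 0) (hhr : ∀ a, h.eval a ≠ 0) (c : k)
    (hc : c ≠ 0) (x y : K) (hx : Transcendental k x)
    (hxy : y ^ 2 = algebraMap k K c * aeval x (g * h)) (P : SEC.RatPlace k K) :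
    ∃ d : k, d ≠ 0 ∧ ∀ A : ValuationSubring k, GoodAt A (g * h) →
      ∀ V : ValuationSubring (kb k K), Above A V → Out A V c g h d := by
  classical
  have hxy' : y ^ 2 = aeval x (C c * (g * h)) := by
    rw [hxy, map_mul (aeval x) (C c), aeval_C]
  by_cases hxP : x ∈ P.A
  · obtain ⟨x0, hx0⟩ := P.rat x hxP
    have h1 := c3_spec P (C c * (g * h)) x hxP x0 hx0
    obtain ⟨y0, hy0⟩ := c3_sq P y _ _ hxy' (R1_mem P _ _ hxP) h1
    rw [eval_mul, eval_C, eval_mul] at hy0
    refine ⟨g.eval x0, hgr x0, fun A hA V hV => ?_⟩
    have hac : IsAlgClosed (kb k K) := kb_isAlgClosed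
    have _ := hA.dvr
    have _ := hA.fin
    obtain ⟨F, hF, hFs, hFd⟩ := hA.red
    have hV2 : V.valuation 2 = 1 := f_two hV hA.two
    obtain ⟨r, l, hl, hfr, hr, hd⟩ := exists_roots hV F hFs hFd
    rw [hF] at hfr
    have hl0 : l ≠ 0 := by
      rintro rfl
      rw [map_zero, map_zero] at hl
      exact zero_ne_one hl
    have hrinj : Function.Injective r := by
      intro i j hij
      by_contra hne
      have h1 := hd i j hne
      rw [hij, sub_self, map_zero] at h1
      exact zero_ne_one h1
    obtain ⟨G, hG1, hG2, hG3⟩ := roots_of_factor g h hg l r hrinj hl0 hfr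
    have hfr' : (h * g).map (algebraMap k (kb k K)) =
        C (algebraMap k (kb k K) l) * ∏ i, (X - C (r i)) := by rw [mul_comm h g, hfr]
    obtain ⟨H, hH1, hH2, hH3⟩ := roots_of_factor h g hh l r hrinj hl0 hfr'
    have hGH : ∀ i, i ∈ G ∨ i ∈ H := by
      intro i
      have h3 : aeval (r i) (g * h) = 0 := by
        rw [← eval_map_algebraMap, hfr, eval_mul, eval_prod,
          Finset.prod_eq_zero (Finset.mem_univ i), mul_zero]
        rw [eval_sub, eval_X, eval_C, sub_self]
      rw [map_mul, mul_eq_zero] at h3
      rcases h3 with h3 | h3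
      · exact Or.inl ((hG1 i).2 h3)
      · exact Or.inr ((hH1 i).2 h3)
    have hcop : IsCoprime g h := hsep.isCoprime
    have hdis : ∀ i ∈ G, i ∉ H := by
      intro i hi hi'
      have h3 := (hG1 i).1 hi
      have h4 := (hH1 i).1 hi'
      obtain ⟨a, b, hab⟩ := hcop
      have h5 := congrArg (aeval (r i)) hab
      rw [map_add, map_mul, map_mul, h3, h4, mul_zero, mul_zero, add_zero, map_one] at h5
      exact zero_ne_one h5
    exact R1_out hV hV2 g h G H r hG2 hH2 hGH hdis (by rw [hG3]; exact hge)
      (by rw [hH3]; exact hhe) hr hd (fun σ i => f_perm (g * h) l hl0 r hfr σ i) c x0 y0 hc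
      (hgr x0) (hhr x0) hy0
  · -- `x ∉ P.A`
    have hxn : x ≠ 0 := by
      rintro rfl
      exact hxP P.A.zero_mem
    have hu : x⁻¹ ∈ P.A := (P.A.mem_or_inv_mem x).resolve_left hxP
    have hu0 : x⁻¹ - algebraMap k K 0 ∈ P.A.nonunits := by
      rw [map_zero, sub_zero, ValuationSubring.mem_nonunits_iff]
      rw [← P.A.valuation_le_one_iff, not_le] at hxP
      rw [map_inv₀]
      exact inv_lt_one_of_one_lt₀ hxP
    have hFm : (g * h).Monic := hg.mul hh
    have heven : Even (g * h).natDegree := by
      rw [hg.natDegree_mul hh]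
      exact hge.add hhe
    obtain ⟨m, hm⟩ := heven
    let _ : Invertible x := invertibleOfNonzero hxn
    have h1 := eval₂_reverse_mul_pow (algebraMap k K) x (g * h)
    rw [← aeval_def, ← aeval_def, invOf_eq_inv] at h1
    have h2 : (y / x ^ m) ^ 2 = aeval x⁻¹ (C c * (g * h).reverse) := by
      rw [div_pow, hxy', map_mul (aeval x) (C c), map_mul (aeval x⁻¹) (C c), aeval_C, aeval_C,
        ← h1, hm, div_eq_iff (pow_ne_zero _ (pow_ne_zero _ hxn))]
      ring
    have h3 := c3_spec P (C c * (g * h).reverse) x⁻¹ hu 0 hu0
    obtain ⟨y0, hy0⟩ := c3_sq P _ _ _ h2 (R1_mem P _ _ hu) h3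
    rw [eval_mul, eval_C, ← coeff_zero_eq_eval_zero, coeff_zero_reverse, hFm.leadingCoeff,
      mul_one] at hy0
    refine ⟨1, one_ne_zero, fun A _ V _ => ?_⟩
    have hcev : EvA A c := ⟨y0, by rw [← map_pow, hy0]⟩
    exact ⟨fun _ => ⟨1, by simp⟩, fun hne => absurd hcev hne, fun hne => absurd hcev hne⟩

end SC3
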