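import Pool.Agent.MP_c1dca2_ag.SC3.X1

/-!
# [SC3-X2] the Galois conditions for the example

`p = X^3 - r X - r`, `D = 4 r - 27` (`D ≠ 0`), `g = p(X) p(X+1)`, `h = ∏_{i=1}^{n} (X^2 - D i^2)`, `n ≥ 1`.
`p` is irreducible over `k`, `D` is not a square in `k`.

`ex_sep`: `g h` is separable: `p(X)`, `p(X+1)`, `X^2 - D i^2` are irreducible monic (the
quadratics because `D i^2` is not a square) and distinct (`p(X+1) = X^3 + 3 X^2 + ...`), hence pairwise
coprime, and irreducible polynomials in characteristic `0` are separable (`Polynomial.Separable.mul`,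
`Polynomial.separable_prod'`, `Irreducible.separable`).

`ex_fix` (every `σ ∈ Gal(k)` fixes a root): let `E = (g h).SplittingField`, `θ₁, θ₂, θ₃ ∈ E` the (distinct) roots
of `p`. `((θ₁-θ₂)(θ₂-θ₃)(θ₃-θ₁))² = 4 r³ - 27 r² = r² D` (discriminant of `X³ - r X - r`;
with `e₁ = 0`, `e₂ = - r`, `e₃ = r`). Let `w ∈ E`, `w² = D`. `σ w = w`: `w` is a root of `h` (`i = 1`).
`σ w = - w`: then `σ` changes the sign of `(θ₁-θ₂)(θ₂-θ₃)(θ₃-θ₁) = ± r w`, so `σ` permutes the `θ_i` by an
odd permutation of `3` elements, a transposition, which fixes one `θ_i` (`decide` over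
`Equiv.Perm (Fin 3)` or case distinction: if no `θ_i` is fixed then `σ` is a `3`-cycle and fixes the product).

`ex_p` (some `σ` fixes no root of `h`): `w ∉ k`, so some `σ` has `σ w ≠ w` (Galois: an element fixed by all
`σ` is in `k`), `σ w = - w`; the roots of `h` are `± i w`.

`ex_q` (some `σ` of odd order fixes no root of `g`): `p` is irreducible, so `3` divides
`[k(θ₁) : k]`, which divides `[E : k] = #Gal`; Cauchy's theorem (`exists_prime_orderOf_dvd_card`)... this
element could act trivially on the `θ_i`? No: `E = k(θ₁, θ₂, θ₃, w)` and `w = ± (...)/r ∈ k(θ_i)`, and the roots of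
`p(X+1)` are `θ_i - 1`, so the Galois group acts faithfully on `{θ₁, θ₂, θ₃}`; an element of order `3` is then a
`3`-cycle on them and fixes none, and no `θ_i - 1`.
(Alternatively: the Galois group acts transitively on the roots of the irreducible `p`; take `σ` with
`σ θ₁ = θ₂` and modify.)
-/

set_option autoImplicit false

open Polynomial

namespace SC3

/-- `(X³ - r X - r) ((X+1)³ - r (X+1) - r)` -/
noncomputable def exg (k : Type) [Field k] (r : ℕ) : k[X] :=
  (X ^ 3 - C (r : k) * X - C (r : k)) * ((X + 1) ^ 3 - C (r : k) * (X + 1) - C (r : k))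

/-- `∏_{i=1}^n (X² - (4 r - 27) i²)` -/
noncomputable def exh (k : Type) [Field k] (r n : ℕ) : k[X] :=
  ∏ i ∈ Finset.Icc 1 n, (X ^ 2 - C ((4 * (r : k) - 27) * (i : k) ^ 2))

section aux

variable {k : Type} [Field k]

private theorem x2_p_monic (r : k) : (X ^ 3 - C r * X - C r : k[X]).Monic := by
  monicity!

private theorem x2_p_deg (r : k) : (X ^ 3 - C r * X - C r : k[X]).natDegree = 3 := by
  compute_degree!

private theorem x2_q_comp (r : k) : ((X + 1) ^ 3 - C r * (X + 1) - C r : k[X]) =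
    (X ^ 3 - C r * X - C r : k[X]).comp (X + C 1) := by
  simp

private theorem x2_q_monic (r : k) : ((X + 1) ^ 3 - C r * (X + 1) - C r : k[X]).Monic := by
  rw [x2_q_comp]
  exact (x2_p_monic r).comp_X_add_C 1

private theorem x2_q_deg (r : k) : ((X + 1) ^ 3 - C r * (X + 1) - C r : k[X]).natDegree = 3 := by
  rw [x2_q_comp, natDegree_comp, x2_p_deg, natDegree_X_add_C]

private theorem x2_h_monic (a : k) : (X ^ 2 - C a : k[X]).Monic := by
  monicity!

private theorem x2_h_deg (a : k) : (X ^ 2 - C a : k[X]).natDegree = 2 := by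
  compute_degree!

private theorem x2_coprime {f g : k[X]} (hf : Irreducible f) (hg : Irreducible g) (hfm : f.Monic)
    (hgm : g.Monic) (hne : f ≠ g) : IsCoprime f g := by
  rw [hf.coprime_iff_not_dvd]
  intro h
  exact hne (eq_of_monic_of_associated hfm hgm (hf.associated_of_dvd hg h))

end aux

variable {k : Type} [Field k] [CharZero k] (r n : ℕ) (hr : 7 ≤ r) (hn : 1 ≤ n)
  (hirr : Irreducible (X ^ 3 - C (r : k) * X - C (r : k) : k[X]))
  (hsq : ¬ IsSquare (4 * (r : k) - 27))

theorem ex_deg : (exg k r).Monic ∧ (exh k r n).Monic ∧ (exg k r).natDegree = 6 ∧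
    (exh k r n).natDegree = 2 * n := by
  refine ⟨(x2_p_monic _).mul (x2_q_monic _), monic_prod_of_monic _ _ fun i _ => x2_h_monic _,
    ?_, ?_⟩
  · rw [exg, (x2_p_monic _).natDegree_mul (x2_q_monic _), x2_p_deg, x2_q_deg]
  · rw [exh, natDegree_prod_of_monic _ _ fun i _ => x2_h_monic _]
    simp only [x2_h_deg, Finset.sum_const, Nat.card_Icc, smul_eq_mul]
    omega

include hr hn hirr hsq

omit hr hn hirr in
private theorem x2_D_ne : (4 * (r : k) - 27) ≠ 0 := by
  intro h
  apply hsq
  rw [h]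
  exact ⟨0, by simp⟩

omit hr hn hirr in
private theorem x2_h_irr {i : ℕ} (hi : i ≠ 0) :
    Irreducible (X ^ 2 - C ((4 * (r : k) - 27) * (i : k) ^ 2) : k[X]) := by
  refine X_pow_sub_C_irreducible_of_prime Nat.prime_two fun b hb => hsq ?_
  have hi' : (i : k) ≠ 0 := Nat.cast_ne_zero.2 hi
  refine ⟨b / i, ?_⟩
  field_simp
  rw [hb]

theorem ex_sep : (exg k r * exh k r n).Separable := by
  have hD := x2_D_ne r hsq
  have hp2 : Irreducible ((X + 1) ^ 3 - C (r : k) * (X + 1) - C (r : k) : k[X]) := by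
    have h := (MulEquiv.irreducible_iff (Polynomial.algEquivAevalXAddC (1 : k))).2 hirr
    have h1 : (Polynomial.algEquivAevalXAddC (1 : k)) (X ^ 3 - C (r : k) * X - C (r : k)) =
        ((X + 1) ^ 3 - C (r : k) * (X + 1) - C (r : k) : k[X]) := by
      simp
    rwa [h1] at h
  have hne : (X ^ 3 - C (r : k) * X - C (r : k) : k[X]) ≠
      ((X + 1) ^ 3 - C (r : k) * (X + 1) - C (r : k) : k[X]) := by
    intro h
    have h1 := congrArg (fun f : k[X] => f.coeff 2) h
    have e1 : (X ^ 3 - C (r : k) * X - C (r : k) : k[X]).coeff 2 = 0 := by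
      simp [coeff_X, coeff_C]
    have e2 : ((X + 1) ^ 3 - C (r : k) * (X + 1) - C (r : k) : k[X]).coeff 2 = 3 := by
      have e3 : ((X + 1) ^ 3 - C (r : k) * (X + 1) - C (r : k) : k[X]) =
          X ^ 3 + C 3 * X ^ 2 + C (3 - (r : k)) * X + C (1 - 2 * (r : k)) := by
        simp only [map_sub, map_one, map_mul, map_ofNat]
        ring
      rw [e3]
      simp [coeff_X, coeff_C, coeff_X_pow, coeff_one]
    rw [e1, e2] at h1
    exact three_ne_zero h1.symm
  have hc12 : IsCoprime (X ^ 3 - C (r : k) * X - C (r : k) : k[X])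
      ((X + 1) ^ 3 - C (r : k) * (X + 1) - C (r : k) : k[X]) :=
    x2_coprime hirr hp2 (x2_p_monic _) (x2_q_monic _) hne
  have hgs : (exg k r).Separable := Separable.mul hirr.separable hp2.separable hc12
  have hhs : (exh k r n).Separable := by
    refine separable_prod' ?_ ?_
    · intro i hi j hj hij
      rw [Finset.mem_Icc] at hi hj
      refine x2_coprime (x2_h_irr r hsq (by omega)) (x2_h_irr r hsq (by omega)) (x2_h_monic _)
        (x2_h_monic _) ?_
      intro h
      have h1 : C ((4 * (r : k) - 27) * (i : k) ^ 2) = C ((4 * (r : k) - 27) * (j : k) ^ 2) :=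
        sub_right_injective h
      have h2 := mul_left_cancel₀ hD (C_injective h1)
      have h3 : i ^ 2 = j ^ 2 := by exact_mod_cast h2
      exact hij (Nat.pow_left_injective two_ne_zero h3)
    · intro i hi
      rw [Finset.mem_Icc] at hi
      exact (x2_h_irr r hsq (by omega)).separable
  refine Separable.mul hgs hhs ?_
  refine IsCoprime.prod_right fun i hi => ?_
  rw [Finset.mem_Icc] at hi
  refine IsCoprime.mul_left ?_ ?_
  · refine x2_coprime hirr (x2_h_irr r hsq (by omega)) (x2_p_monic _) (x2_h_monic _) ?_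
    intro h
    have := congrArg natDegree h
    rw [x2_p_deg, x2_h_deg] at this
    omega
  · refine x2_coprime hp2 (x2_h_irr r hsq (by omega)) (x2_q_monic _) (x2_h_monic _) ?_
    intro h
    have := congrArg natDegree h
    rw [x2_q_deg, x2_h_deg] at this
    omega

/-- the data of the roots -/
structure x2_Data {k : Type} [Field k] (E : Type) [Field E] [Algebra k E] (r : ℕ) (x y z w : E) :
    Prop where
  e1 : x + y + z = 0
  e2 : x * y + y * z + z * x = -r
  e3 : x * y * z = r
  w : w ^ 2 = 4 * r - 27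

omit hr hn hirr hsq in
private theorem x2_exists {E : Type} [Field E] [Algebra k E]
    (hs : ((exg k r * exh k r n).map (algebraMap k E)).Splits) (hn : 1 ≤ n) :
    ∃ x y z w : E, x2_Data (k := k) E r x y z w := by
  have : CharZero E := charZero_of_injective_algebraMap (algebraMap k E).injective
  have h0 : ((exg k r * exh k r n).map (algebraMap k E)) ≠ 0 :=
    (((ex_deg r n).1.mul (ex_deg r n).2.1).map _).ne_zero
  have hs1 : ((X ^ 3 - C (r : k) * X - C (r : k) : k[X]).map (algebraMap k E)).Splits := by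
    refine hs.of_dvd h0 (Polynomial.map_dvd _ ?_)
    exact Dvd.intro _ (mul_assoc _ _ _).symm
  have hs2 : ((X ^ 2 - C ((4 * (r : k) - 27) * ((1 : ℕ) : k) ^ 2) : k[X]).map
      (algebraMap k E)).Splits := by
    refine hs.of_dvd h0 (Polynomial.map_dvd _ (Dvd.dvd.mul_left ?_ _))
    exact Finset.dvd_prod_of_mem (fun i : ℕ => (X ^ 2 - C ((4 * (r : k) - 27) * (i : k) ^ 2) : k[X]))
      (Finset.mem_Icc.2 ⟨le_refl 1, hn⟩)
  have hm1 := (x2_p_monic (r : k)).map (algebraMap k E)
  have hcard : ((X ^ 3 - C (r : k) * X - C (r : k) : k[X]).map (algebraMap k E)).roots.card = 3 := by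
    rw [← hs1.natDegree_eq_card_roots, (x2_p_monic (r : k)).natDegree_map, x2_p_deg]
  obtain ⟨x, y, z, hxyz⟩ := Multiset.card_eq_three.1 hcard
  have hprod := hs1.eq_prod_roots_of_monic hm1
  rw [hxyz] at hprod
  have hprod' : (X ^ 3 - C (r : k) * X - C (r : k) : k[X]).map (algebraMap k E) =
      (X - C x) * ((X - C y) * (X - C z)) := by
    rw [hprod]
    simp
  have hev : ∀ t : E, t ^ 3 - r * t - r = (t - x) * ((t - y) * (t - z)) := by
    intro t
    have h := congrArg (eval t) hprod'
    simpa using h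
  have hw : ∃ w : E, w ^ 2 = 4 * (r : E) - 27 := by
    obtain ⟨w, hw⟩ := hs2.exists_eval_eq_zero (by
      rw [degree_map]
      intro h
      have h1 := natDegree_eq_zero_iff_degree_le_zero.2 h.le
      rw [x2_h_deg] at h1
      omega)
    refine ⟨w, ?_⟩
    rw [eval_map_algebraMap] at hw
    simp only [map_sub, map_mul, map_pow, aeval_X, map_natCast, map_ofNat, Nat.cast_one, one_pow,
      mul_one] at hw
    linear_combination hw
  obtain ⟨w, hw⟩ := hw
  have f0 := hev 0
  have f1 := hev 1
  have f2 := hev (-1)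
  have g3 : x * y * z = r := by linear_combination f0
  have g1 : 2 * (x + y + z) = 0 := by linear_combination f1 + f2 - 2 * f0
  have g1' : x + y + z = 0 := (mul_eq_zero.1 g1).resolve_left two_ne_zero
  refine ⟨x, y, z, w, ⟨g1', ?_, g3, hw⟩⟩
  linear_combination f2 - g1' - f0

section main

variable {E : Type} [Field E] [Algebra k E] {x y z w : E}

omit hr hn hirr hsq [CharZero k] in
private theorem x2_root (hd : x2_Data (k := k) E r x y z w) (t : E) :
    aeval t (X ^ 3 - C (r : k) * X - C (r : k) : k[X]) = 0 ↔ t = x ∨ t = y ∨ t = z := by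
  have h1 : aeval t (X ^ 3 - C (r : k) * X - C (r : k) : k[X]) = t ^ 3 - r * t - r := by
    simp
  have h2 : t ^ 3 - r * t - r = (t - x) * ((t - y) * (t - z)) := by
    linear_combination t ^ 2 * hd.e1 - t * hd.e2 + hd.e3
  rw [h1, h2, mul_eq_zero, mul_eq_zero, sub_eq_zero, sub_eq_zero, sub_eq_zero]

omit hr hn hirr hsq [CharZero k] in
private theorem x2_disc (hd : x2_Data (k := k) E r x y z w) :
    ((x - y) * (y - z) * (z - x)) ^ 2 = ((r : E) * w) ^ 2 := by
  have key : ((x - y) * (y - z) * (z - x)) ^ 2 = (x + y + z) ^ 2 * (x * y + y * z + z * x) ^ 2 -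
      4 * (x * y + y * z + z * x) ^ 3 - 4 * (x + y + z) ^ 3 * (x * y * z) +
      18 * (x + y + z) * (x * y + y * z + z * x) * (x * y * z) - 27 * (x * y * z) ^ 2 := by ring
  rw [hd.e1, hd.e2, hd.e3] at key
  linear_combination key - (r : E) ^ 2 * hd.w

omit hn hirr in
private theorem x2_w_ne (hd : x2_Data (k := k) E r x y z w) : w ≠ 0 ∧ (r : E) ≠ 0 := by
  have : CharZero E := charZero_of_injective_algebraMap (algebraMap k E).injective
  constructor
  · intro h
    apply x2_D_ne (k := k) r hsq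
    apply (algebraMap k E).injective
    have := hd.w
    rw [h] at this
    simp only [map_sub, map_mul, map_ofNat, map_natCast, map_zero]
    linear_combination -this
  · exact Nat.cast_ne_zero.2 (by omega)

omit hn hirr in
private theorem x2_disc_ne (hd : x2_Data (k := k) E r x y z w) :
    (x - y) * (y - z) * (z - x) ≠ 0 := by
  intro h
  have h1 := x2_disc r hd
  obtain ⟨h2, h3⟩ := x2_w_ne r hr hsq hd
  rw [h] at h1
  exact pow_ne_zero 2 (mul_ne_zero h3 h2) (by rw [← h1]; ring)

omit hn hirr in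
private theorem x2_dist (hd : x2_Data (k := k) E r x y z w) : x ≠ y ∧ y ≠ z ∧ z ≠ x := by
  have h := x2_disc_ne r hr hsq hd
  refine ⟨?_, ?_, ?_⟩ <;>
  · rintro rfl
    apply h
    ring

omit hr hn hirr hsq [CharZero k] in
private theorem x2_perm (hd : x2_Data (k := k) E r x y z w) (σ : E ≃ₐ[k] E) {t : E}
    (ht : t = x ∨ t = y ∨ t = z) : σ t = x ∨ σ t = y ∨ σ t = z := by
  rw [← x2_root r hd] at ht ⊢
  have h := Polynomial.aeval_algHom_apply (σ : E →ₐ[k] E) t
    (X ^ 3 - C (r : k) * X - C (r : k) : k[X])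
  rw [ht, map_zero] at h
  exact h

omit hr hn hirr hsq [CharZero k] in
private theorem x2_sw (hd : x2_Data (k := k) E r x y z w) (σ : E ≃ₐ[k] E) :
    σ w = w ∨ σ w = -w := by
  have h : (σ w) ^ 2 = w ^ 2 := by
    rw [← map_pow, hd.w, map_sub, map_mul, map_ofNat, map_ofNat, map_natCast]
  exact sq_eq_sq_iff_eq_or_eq_neg.1 h

omit hr hn hirr hsq [CharZero k] in
private theorem x2_sd (hd : x2_Data (k := k) E r x y z w) (σ : E ≃ₐ[k] E) :
    (σ w = w → (σ x - σ y) * (σ y - σ z) * (σ z - σ x) = (x - y) * (y - z) * (z - x)) ∧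
    (σ w = -w → (σ x - σ y) * (σ y - σ z) * (σ z - σ x) = -((x - y) * (y - z) * (z - x))) := by
  have h := sq_eq_sq_iff_eq_or_eq_neg.1 (x2_disc r hd)
  have h1 : (σ x - σ y) * (σ y - σ z) * (σ z - σ x) = σ ((x - y) * (y - z) * (z - x)) := by
    simp
  rw [h1]
  rcases h with h | h <;> rw [h] <;> constructor <;> intro h2 <;> simp [h2]

/-- cyclic -/
def x2_Cyc (x y z : E) (σ : E ≃ₐ[k] E) : Prop :=
  (σ x = y ∧ σ y = z ∧ σ z = x) ∨ (σ x = z ∧ σ z = y ∧ σ y = x)

omit hn hirr in
private theorem x2_cases (hd : x2_Data (k := k) E r x y z w) (σ : E ≃ₐ[k] E) :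
    (σ w = w → σ x ≠ x → x2_Cyc x y z σ) ∧
    (σ w = -w → σ x = x ∨ σ y = y ∨ σ z = z) := by
  have : CharZero E := charZero_of_injective_algebraMap (algebraMap k E).injective
  obtain ⟨d1, d2, d3⟩ := x2_dist r hr hsq hd
  have hne := x2_disc_ne r hr hsq hd
  obtain ⟨hs1, hs2⟩ := x2_sd r hd σ
  have hx := x2_perm r hd σ (Or.inl rfl : x = x ∨ x = y ∨ x = z)
  have hy := x2_perm r hd σ (Or.inr (Or.inl rfl) : y = x ∨ y = y ∨ y = z)
  have hz := x2_perm r hd σ (Or.inr (Or.inr rfl) : z = x ∨ z = y ∨ z = z)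
  have i1 : σ x ≠ σ y := fun h => d1 (σ.injective h)
  have i2 : σ y ≠ σ z := fun h => d2 (σ.injective h)
  have i3 : σ z ≠ σ x := fun h => d3 (σ.injective h)
  have hneg : (x - y) * (y - z) * (z - x) ≠ -((x - y) * (y - z) * (z - x)) := by
    intro h
    apply hne
    have h2 : 2 * ((x - y) * (y - z) * (z - x)) = 0 := by linear_combination h
    exact (mul_eq_zero.1 h2).resolve_left two_ne_zero
  constructor
  · intro hw hxx
    have h := hs1 hw
    rcases hx with hx | hx | hx
    · exact absurd hx hxx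
    · rcases hy with hy | hy | hy
      · rcases hz with hz | hz | hz
        · rw [hy, hz] at i2
          exact absurd rfl i2
        · rw [hz, hx] at i3
          exact absurd rfl i3
        · rw [hx, hy, hz] at h
          exact absurd (by linear_combination -h) hneg
      · rw [hx, hy] at i1
        exact absurd rfl i1
      · rcases hz with hz | hz | hz
        · exact Or.inl ⟨hx, hy, hz⟩
        · rw [hz, hx] at i3
          exact absurd rfl i3
        · rw [hy, hz] at i2
          exact absurd rfl i2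
    · rcases hy with hy | hy | hy
      · rcases hz with hz | hz | hz
        · rw [hy, hz] at i2
          exact absurd rfl i2
        · exact Or.inr ⟨hx, hz, hy⟩
        · rw [hz, hx] at i3
          exact absurd rfl i3
      · rcases hz with hz | hz | hz
        · rw [hx, hy, hz] at h
          exact absurd (by linear_combination -h) hneg
        · rw [hy, hz] at i2
          exact absurd rfl i2
        · rw [hz, hx] at i3
          exact absurd rfl i3
      · rw [hx, hy] at i1
        exact absurd rfl i1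
  · intro hw
    have h := hs2 hw
    by_contra hc
    push Not at hc
    obtain ⟨c1, c2, c3⟩ := hc
    rcases hx with hx | hx | hx
    · exact c1 hx
    · rcases hy with hy | hy | hy
      · rcases hz with hz | hz | hz
        · rw [hy, hz] at i2
          exact i2 rfl
        · rw [hz, hx] at i3
          exact i3 rfl
        · exact c3 hz
      · exact c2 hy
      · rcases hz with hz | hz | hz
        · rw [hx, hy, hz] at h
          exact hneg (by linear_combination h)
        · rw [hz, hx] at i3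
          exact i3 rfl
        · exact c3 hz
    · rcases hy with hy | hy | hy
      · rcases hz with hz | hz | hz
        · rw [hy, hz] at i2
          exact i2 rfl
        · rw [hx, hy, hz] at h
          exact hneg (by linear_combination h)
        · exact c3 hz
      · exact c2 hy
      · rw [hx, hy] at i1
        exact i1 rfl

omit hr hn hirr hsq [CharZero k] in
private theorem x2_hroot {i : ℕ} (hi : i ∈ Finset.Icc 1 n) {t : E}
    (h : aeval t (X ^ 2 - C ((4 * (r : k) - 27) * (i : k) ^ 2) : k[X]) = 0) :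
    aeval t (exh k r n) = 0 := by
  obtain ⟨q, hq⟩ := Finset.dvd_prod_of_mem
    (fun i : ℕ => (X ^ 2 - C ((4 * (r : k) - 27) * (i : k) ^ 2) : k[X])) hi
  rw [exh, hq, map_mul, h, zero_mul]

omit hr hn hirr hsq [CharZero k] in
private theorem x2_aeval2 (i : ℕ) (t : E) :
    aeval t (X ^ 2 - C ((4 * (r : k) - 27) * (i : k) ^ 2) : k[X]) =
      t ^ 2 - (4 * (r : E) - 27) * (i : E) ^ 2 := by
  simp only [map_sub, map_mul, map_pow, aeval_X, map_natCast, map_ofNat]

omit hirr in
private theorem x2_fix (hd : x2_Data (k := k) E r x y z w) (σ : E ≃ₐ[k] E) :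
    ∃ t : E, aeval t (exg k r * exh k r n) = 0 ∧ σ t = t := by
  have hroot : ∀ t : E, (t = x ∨ t = y ∨ t = z) → aeval t (exg k r * exh k r n) = 0 := by
    intro t ht
    rw [← x2_root r hd] at ht
    rw [map_mul, exg, map_mul, ht, zero_mul, zero_mul]
  rcases x2_sw r hd σ with hw | hw
  · refine ⟨w, ?_, hw⟩
    rw [map_mul, x2_hroot r n (i := 1) (Finset.mem_Icc.2 ⟨le_refl 1, hn⟩), mul_zero]
    rw [x2_aeval2, hd.w]
    simp
  · rcases (x2_cases r hr hsq hd σ).2 hw with h | h | h
    · exact ⟨x, hroot x (Or.inl rfl), h⟩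
    · exact ⟨y, hroot y (Or.inr (Or.inl rfl)), h⟩
    · exact ⟨z, hroot z (Or.inr (Or.inr rfl)), h⟩

omit hn hirr in
private theorem x2_noh (hd : x2_Data (k := k) E r x y z w) (σ : E ≃ₐ[k] E) (hw : σ w = -w) (t : E)
    (ht : aeval t (exh k r n) = 0) : σ t ≠ t := by
  have : CharZero E := charZero_of_injective_algebraMap (algebraMap k E).injective
  rw [exh, map_prod, Finset.prod_eq_zero_iff] at ht
  obtain ⟨i, hi, ht⟩ := ht
  rw [Finset.mem_Icc] at hi
  rw [x2_aeval2, ← hd.w] at ht
  have h1 : t ^ 2 = (w * i) ^ 2 := by linear_combination ht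
  have hi0 : (i : E) ≠ 0 := Nat.cast_ne_zero.2 (by omega)
  have hw0 := (x2_w_ne r hr hsq hd).1
  have h0 : w * i ≠ 0 := mul_ne_zero hw0 hi0
  have h3 : σ (w * i) = -(w * i) := by
    rw [map_mul, hw, map_natCast]
    ring
  intro h4
  have h2 : (2 : E) ≠ 0 := two_ne_zero
  rcases sq_eq_sq_iff_eq_or_eq_neg.1 h1 with h | h
  · rw [h, h3] at h4
    apply h0
    have h5 : 2 * (w * (i : E)) = 0 := by linear_combination -h4
    exact (mul_eq_zero.1 h5).resolve_left h2
  · rw [h, map_neg, h3] at h4
    apply h0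
    have h5 : 2 * (w * (i : E)) = 0 := by linear_combination h4
    exact (mul_eq_zero.1 h5).resolve_left h2

omit hn hirr in
private theorem x2_p [IsGalois k E] [FiniteDimensional k E] (hd : x2_Data (k := k) E r x y z w) :
    ∃ σ : E ≃ₐ[k] E, ∀ t : E, aeval t (exh k r n) = 0 → σ t ≠ t := by
  by_contra hc
  push Not at hc
  have hall : ∀ σ : E ≃ₐ[k] E, σ w = w := by
    intro σ
    rcases x2_sw r hd σ with hw | hw
    · exact hw
    · obtain ⟨t, ht, ht'⟩ := hc σ
      exact absurd ht' (x2_noh r n hr hsq hd σ hw t ht)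
  obtain ⟨w0, hw0⟩ := (IsGalois.mem_range_algebraMap_iff_fixed w).2 hall
  apply hsq
  refine ⟨w0, ?_⟩
  apply (algebraMap k E).injective
  have := hd.w
  rw [← hw0] at this
  simp only [map_sub, map_mul, map_ofNat, map_natCast]
  linear_combination -this

omit hr hn hirr hsq [CharZero k] in
private theorem x2_cyc_pow (σ : E ≃ₐ[k] E) (h : x2_Cyc x y z σ) (a : ℕ) :
    x2_Cyc x y z (σ ^ (2 ^ a)) := by
  induction a with
  | zero => simpa using h
  | succ a ih =>
    rw [pow_succ, pow_mul, pow_two]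
    rcases ih with ⟨h1, h2, h3⟩ | ⟨h1, h2, h3⟩
    · right
      refine ⟨?_, ?_, ?_⟩ <;> simp only [AlgEquiv.mul_apply, h1, h2, h3]
    · left
      refine ⟨?_, ?_, ?_⟩ <;> simp only [AlgEquiv.mul_apply, h1, h2, h3]

omit hn in
private theorem x2_q [IsGalois k E] [FiniteDimensional k E] (hd : x2_Data (k := k) E r x y z w) :
    ∃ σ : E ≃ₐ[k] E, Odd (orderOf σ) ∧ ∀ t : E, aeval t (exg k r) = 0 → σ t ≠ t := by
  obtain ⟨d1, d2, d3⟩ := x2_dist r hr hsq hd
  have hmin : ∀ t : E, (t = x ∨ t = y ∨ t = z) →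
      minpoly k t = (X ^ 3 - C (r : k) * X - C (r : k) : k[X]) := by
    intro t ht
    exact (minpoly.eq_of_irreducible_of_monic hirr ((x2_root r hd t).2 ht) (x2_p_monic _)).symm
  have htr : ∀ t : E, (t = x ∨ t = y ∨ t = z) → ∃ σ : E ≃ₐ[k] E, σ x = t := by
    intro t ht
    have hc : IsConjRoot k t x := by
      rw [IsConjRoot, hmin t ht, hmin x (Or.inl rfl)]
    obtain ⟨σ, hσ⟩ := isConjRoot_iff_exists_algEquiv.1 hc
    exact ⟨σ, by first | exact hσ | exact hσ.symm⟩
  have hρ : ∃ ρ : E ≃ₐ[k] E, ρ w = w ∧ ρ x ≠ x := by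
    obtain ⟨σ, hσ⟩ := htr y (Or.inr (Or.inl rfl))
    obtain ⟨τ, hτ⟩ := htr z (Or.inr (Or.inr rfl))
    rcases x2_sw r hd σ with h1 | h1
    · exact ⟨σ, h1, by rw [hσ]; exact d1.symm⟩
    · rcases x2_sw r hd τ with h2 | h2
      · exact ⟨τ, h2, by rw [hτ]; exact d3⟩
      · refine ⟨σ⁻¹ * τ, ?_, ?_⟩
        · rw [AlgEquiv.mul_apply, h2]
          change σ.symm (-w) = w
          rw [AlgEquiv.symm_apply_eq, h1]
        · rw [AlgEquiv.mul_apply, hτ]
          change σ.symm z ≠ x
          rw [Ne, AlgEquiv.symm_apply_eq, hσ]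
          exact d2.symm
  obtain ⟨ρ, hρw, hρx⟩ := hρ
  have hcyc := (x2_cases r hr hsq hd ρ).1 hρw hρx
  have hord : orderOf ρ ≠ 0 := (orderOf_pos ρ).ne'
  obtain ⟨a, m, hm, ham⟩ := Nat.exists_eq_two_pow_mul_odd hord
  refine ⟨ρ ^ (2 ^ a), ?_, ?_⟩
  · rw [orderOf_pow_of_dvd (by positivity) (by rw [ham]; exact Dvd.intro _ rfl), ham,
      Nat.mul_div_cancel_left _ (by positivity)]
    exact hm
  · have hc := x2_cyc_pow ρ hcyc a
    have hno : ∀ t : E, (t = x ∨ t = y ∨ t = z) → (ρ ^ (2 ^ a)) t ≠ t := by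
      intro t ht
      rcases hc with ⟨h1, h2, h3⟩ | ⟨h1, h2, h3⟩
      · rcases ht with rfl | rfl | rfl
        · rw [h1]; exact d1.symm
        · rw [h2]; exact d2.symm
        · rw [h3]; exact d3.symm
      · rcases ht with rfl | rfl | rfl
        · rw [h1]; exact d3
        · rw [h3]; exact d1
        · rw [h2]; exact d2
    intro t ht
    rw [exg, map_mul, mul_eq_zero] at ht
    rcases ht with ht | ht
    · exact hno t ((x2_root r hd t).1 ht)
    · have ht' : aeval (t + 1) (X ^ 3 - C (r : k) * X - C (r : k) : k[X]) = 0 := by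
        rw [← ht]
        simp
      intro h
      refine hno (t + 1) ((x2_root r hd (t + 1)).1 ht') ?_
      rw [map_add, h, map_one]

end main

theorem ex_fix (σ : (exg k r * exh k r n).SplittingField ≃ₐ[k]
    (exg k r * exh k r n).SplittingField) :
    ∃ z : (exg k r * exh k r n).SplittingField,
      aeval z (exg k r * exh k r n) = 0 ∧ σ z = z := by
  obtain ⟨x, y, z, w, hd⟩ := x2_exists r n (SplittingField.splits (exg k r * exh k r n)) hn
  exact x2_fix r n hr hn hsq hd σ

theorem ex_p : ∃ σ : (exg k r * exh k r n).SplittingField ≃ₐ[k]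
    (exg k r * exh k r n).SplittingField,
    ∀ z : (exg k r * exh k r n).SplittingField, aeval z (exh k r n) = 0 → σ z ≠ z := by
  obtain ⟨x, y, z, w, hd⟩ := x2_exists r n (SplittingField.splits (exg k r * exh k r n)) hn
  have := IsGalois.of_separable_splitting_field (E := (exg k r * exh k r n).SplittingField)
    (ex_sep r n hr hn hirr hsq)
  exact x2_p r n hr hsq hd

theorem ex_q : ∃ σ : (exg k r * exh k r n).SplittingField ≃ₐ[k]
    (exg k r * exh k r n).SplittingField, Odd (orderOf σ) ∧
    ∀ z : (exg k r * exh k r n).SplittingField, aeval z (exg k r) = 0 → σ z ≠ z := by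
  obtain ⟨x, y, z, w, hd⟩ := x2_exists r n (SplittingField.splits (exg k r * exh k r n)) hn
  have := IsGalois.of_separable_splitting_field (E := (exg k r * exh k r n).SplittingField)
    (ex_sep r n hr hn hirr hsq)
  exact x2_q r hr hirr hsq hd

end SC3
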