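import Pool.Agent.MP_c1dca2_ag.SC3.T7
import Pool.Agent.MP_c1dca2_ag.SC3.R1
import Pool.Agent.MP_c1dca2_ag.SC3.G2
import Pool.Agent.MP_c1dca2_ag.SC3.G5
import Pool.Agent.MP_c1dca2_ag.SC3.G6
import Pool.Agent.MP_c1dca2_ag.SC3.G8
import Pool.Agent.MP_c1dca2_ag.SC3.G9
import Pool.Agent.MP_c1dca2_ag.SC3.X2
import Pool.Agent.MP_c1dca2_ag.SEC.G

/-!
# [SC3-F] Assembly
-/

set_option autoImplicit false

open Polynomial NumberField IsDedekindDomain IsLocalRing SEC SC2

namespace SC3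

theorem general {k : Type} [Field k] [NumberField k] (g h : k[X]) (hg : g.Monic)
    (hh : h.Monic) (hsep : (g * h).Separable) (hge : Even g.natDegree) (hhe : Even h.natDegree)
    (hg4 : 4 ≤ g.natDegree)
    (H1 : ∀ σ : (g * h).SplittingField ≃ₐ[k] (g * h).SplittingField,
      ∃ r : (g * h).SplittingField, aeval r (g * h) = 0 ∧ σ r = r)
    (Hp : ∃ σ : (g * h).SplittingField ≃ₐ[k] (g * h).SplittingField,
      ∀ r : (g * h).SplittingField, aeval r h = 0 → σ r ≠ r)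
    (Hq : ∃ σ : (g * h).SplittingField ≃ₐ[k] (g * h).SplittingField, Odd (orderOf σ) ∧
      ∀ r : (g * h).SplittingField, aeval r g = 0 → σ r ≠ r)
    (F0 : Finset k) (hF0 : ∀ x ∈ F0, x ≠ 0) :
    ∃ c : k, c ≠ 0 ∧ (∀ x ∈ F0, ¬ IsSquare (x * c)) ∧
      SEC.LocallySoluble k (C c * (g * h)) ∧ SCJ.NoSection k (C c * (g * h)) := by
  classical
  have hfin : Module.Finite k (g * h).SplittingField := inferInstance
  have hnf : NumberField (g * h).SplittingField := NumberField.of_module_finite k _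
  have hgal : IsGalois k (g * h).SplittingField := by
    have : Algebra.IsSeparable k (g * h).SplittingField := inferInstance
    have : Normal k (g * h).SplittingField := inferInstance
    exact ⟨⟩
  have hspl : ((g * h).map (algebraMap k (g * h).SplittingField)).Splits :=
    SplittingField.splits (g * h)
  have hgh0 : (g * h) ≠ 0 := (hg.mul hh).ne_zero
  -- the bad places
  let S : Set (HeightOneSpectrum (𝓞 k)) :=
    {v | ∃ A, IsVal v A ∧ ¬ GoodAt A (g * h)} ∪ ⋃ x ∈ F0, {v | ¬ Ev v x}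
  have hS : S.Finite := by
    refine (good_places (g * h) hsep).union ?_
    exact Set.Finite.biUnion F0.finite_toSet fun x hx => finite_not_ev x (hF0 x hx)
  have hgood : ∀ v, v ∉ S → ∀ A, IsVal v A → GoodAt A (g * h) := by
    intro v hv A hA
    by_contra hcon
    exact hv (Or.inl ⟨A, hA, hcon⟩)
  obtain ⟨U, hU1, hU2⟩ := finite_sel S hS
  obtain ⟨σ₁, hσ₁⟩ := Hp
  obtain ⟨a, v₁, v₂, ha, h12, h1, h2, t1, t2, a1, a2, ae, aS, ainf⟩ := exists_a σ₁ S hS
  obtain ⟨A₁, hA₁⟩ := exists_isVal v₁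
  have hGood₁ := hgood v₁ h1 A₁ hA₁
  obtain ⟨N, _, _, _, _, σ₂, hbig⟩ := exists_sigma g h hg hh hsep Hq A₁ hGood₁ U a ha
    (fun hcon => a1 ((hA₁.ev a).1 hcon)) (fun u hu => ⟨(hU1 u hu).1, (hA₁.ev u).2 ((hU1 u hu).2 v₁ h1)⟩)
  obtain ⟨b, v₃, v₄, hb, h34, h3, h4, t3, t4, b3, b4, be, bS, binf⟩ :=
    exists_a σ₂ (S ∪ {v₁, v₂}) (hS.union (by simp))
  have h31 : v₃ ≠ v₁ := fun hcon => h3 (Or.inr (by simp [hcon]))
  have h32 : v₃ ≠ v₂ := fun hcon => h3 (Or.inr (by simp [hcon]))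
  have h41 : v₄ ≠ v₁ := fun hcon => h4 (Or.inr (by simp [hcon]))
  have h42 : v₄ ≠ v₂ := fun hcon => h4 (Or.inr (by simp [hcon]))
  have h3' : v₃ ∉ S := fun hcon => h3 (Or.inl hcon)
  have h4' : v₄ ∉ S := fun hcon => h4 (Or.inl hcon)
  have hab : a * b ≠ 0 := mul_ne_zero ha hb
  have hsplh : (h.map (algebraMap k (g * h).SplittingField)).Splits := by
    refine Splits.of_dvd hspl ?_ ?_
    · exact (Polynomial.map_ne_zero_iff (algebraMap k (g * h).SplittingField).injective).2 hgh0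
    · exact Polynomial.map_dvd _ (Dvd.intro_left g rfl)
  have hcontra : ∀ {L : Type} [Field L] [Algebra k L] [IsAlgClosed L] [IsGalois k L] (d : k),
      d ≠ 0 → (∀ A : ValuationSubring k, GoodAt A (g * h) →
        ∀ V : ValuationSubring L, Above A V → Out A V (a * b) g h d) → False := by
    intro L _ _ _ _ d hd hout
    exact contra g h hg hh hsep S hgood U (fun u hu => (hU1 u hu).1) hU2 σ₁ hsplh hσ₁ σ₂ a b ha
      hb hbig v₁ v₂ v₃ v₄ h1 h2 h3' h4' h31 h32 h41 h42 t1 t2 t3 t4 a1 a2 ae b3 b4 be d hd hout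
  have hroot : ∀ (p : k[X]) (z : k), p.eval z = 0 →
      aeval (algebraMap k (g * h).SplittingField z) p = 0 := by
    intro p z hz
    rw [aeval_algebraMap_apply_eq_algebraMap_eval, hz, map_zero]
  refine ⟨a * b, hab, ?_, ?_, ?_⟩
  · intro x hx hsq
    have hxv : Ev v₁ x := by
      by_contra hcon
      exact h1 (Or.inr (Set.mem_biUnion hx hcon))
    have h5 : Ev v₁ (a * b) := Ev.of_mul hxv (hF0 x hx) (Ev.of_sq hsq)
    have h6 : Ev v₁ (b * a) := by rw [mul_comm]; exact h5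
    exact a1 (Ev.of_mul (be v₁ h31.symm h41.symm) hb h6)
  · have hdeg : Even (g * h).natDegree := by
      rw [hg.natDegree_mul hh]; exact hge.add hhe
    have hpos : 0 < (g * h).natDegree := by
      rw [hg.natDegree_mul hh]; omega
    constructor
    · intro v
      by_cases hv : v ∈ S
      · refine point_fin v (g * h) (hg.mul hh) hdeg hpos (a * b) ?_
        rw [map_mul]
        exact (aS v hv).mul (bS v (Or.inl hv))
      · obtain ⟨A, hA⟩ := exists_isVal v
        obtain ⟨Z, hZ⟩ := root_local (g * h) v A hA (hgood v hv A hA) H1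
        refine ⟨Z, 0, ?_⟩
        rw [Polynomial.map_mul, eval_mul, hZ]
        simp
    · intro v
      refine point_inf v (g * h) (hg.mul hh) hdeg hpos (a * b) ?_
      rw [map_mul]
      exact (ainf v).mul (binf v)
  · intro K _ _ x y hx hxy
    have hxy' : y ^ 2 = algebraMap k K (a * b) * aeval x (g * h) := by
      rw [hxy, map_mul, aeval_C]
    have hac : IsAlgClosed (kb k K) := kb_isAlgClosed
    have hgal' : IsGalois k (kb k K) := kb_isGalois
    have e1 : IsEmpty (SCJ.Sect k K) := by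
      refine ⟨fun s => ?_⟩
      obtain ⟨d, hd, hout⟩ := out_of_sect g h hg hh hsep hge hhe hg4 (a * b) hab x y hx hxy'
        s.toOld
      exact hcontra d hd hout
    have e2 : IsEmpty (SCJ.RatPlace k K) := by
      refine ⟨fun P => ?_⟩
      obtain ⟨σq, -, hσq⟩ := Hq
      obtain ⟨d, hd, hout⟩ := out_of_place g h hg hh hsep hge hhe
        (fun z hz => hσq _ (hroot g z hz) (σq.commutes z))
        (fun z hz => hσ₁ _ (hroot h z hz) (σ₁.commutes z)) (a * b) hab x y hx hxy' P.toOld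
      exact hcontra d hd hout
    exact ⟨⟨fun P => e2.elim P, fun s => e1.elim s⟩, e1, e2⟩

/-- Infinitely many classes. -/
theorem general_seq {k : Type} [Field k] [NumberField k] (g h : k[X]) (hg : g.Monic)
    (hh : h.Monic) (hsep : (g * h).Separable) (hge : Even g.natDegree) (hhe : Even h.natDegree)
    (hg4 : 4 ≤ g.natDegree)
    (H1 : ∀ σ : (g * h).SplittingField ≃ₐ[k] (g * h).SplittingField,
      ∃ r : (g * h).SplittingField, aeval r (g * h) = 0 ∧ σ r = r)
    (Hp : ∃ σ : (g * h).SplittingField ≃ₐ[k] (g * h).SplittingField,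
      ∀ r : (g * h).SplittingField, aeval r h = 0 → σ r ≠ r)
    (Hq : ∃ σ : (g * h).SplittingField ≃ₐ[k] (g * h).SplittingField, Odd (orderOf σ) ∧
      ∀ r : (g * h).SplittingField, aeval r g = 0 → σ r ≠ r) :
    ∃ c : ℕ → k, (∀ i j, i ≠ j → ¬ IsSquare (c i * c j)) ∧ ∀ i,
      SEC.LocallySoluble k (C (c i) * (g * h)) ∧ SCJ.NoSection k (C (c i) * (g * h)) := by
  obtain ⟨c, hc1, hc2⟩ := exists_seq_of_forall_finset_exists
    (fun c : k => c ≠ 0 ∧ SEC.LocallySoluble k (C c * (g * h)) ∧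
      SCJ.NoSection k (C c * (g * h))) (fun x y => ¬ IsSquare (x * y)) (by
      intro F0 hF0
      obtain ⟨c, hc0, hc1, hc2, hc3⟩ := general g h hg hh hsep hge hhe hg4 H1 Hp Hq F0
        (fun x hx => (hF0 x hx).1)
      exact ⟨c, ⟨hc0, hc2, hc3⟩, hc1⟩)
  refine ⟨c, ?_, fun i => (hc1 i).2⟩
  intro i j hij
  rcases lt_or_gt_of_ne hij with h | h
  · exact hc2 i j h
  · rw [mul_comm]
    exact hc2 j i h

theorem main (k : Type) [Field k] [NumberField k] (n : ℕ) (hn : 3 ≤ n) :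
    ∃ f : k[X], f.Monic ∧ f.Separable ∧ f.natDegree = 2 * n + 2 ∧
      (∃ p : k[X], p ∣ f ∧ Irreducible p ∧ p.natDegree = 3) ∧
      ∃ c : ℕ → k, (∀ i j, i ≠ j → ¬ IsSquare (c i * c j)) ∧ ∀ i,
        SEC.LocallySoluble k (C (c i) * f) ∧ SCJ.NoSection k (C (c i) * f) := by
  obtain ⟨r, hr, hirr, hsq⟩ := exists_cubic k
  obtain ⟨m, rfl⟩ : ∃ m, n = m + 2 := ⟨n - 2, by omega⟩
  have hm : 1 ≤ m := by omega
  obtain ⟨hg, hh, hgd, hhd⟩ := ex_deg (k := k) r m
  refine ⟨exg k r * exh k r m, hg.mul hh, ex_sep r m hr hm hirr hsq, ?_, ?_, ?_⟩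
  · rw [hg.natDegree_mul hh, hgd, hhd]; ring
  · refine ⟨X ^ 3 - C (r : k) * X - C (r : k), ?_, hirr, ?_⟩
    · exact Dvd.dvd.mul_right (Dvd.intro _ rfl) _
    · compute_degree!
  · exact general_seq _ _ hg hh (ex_sep r m hr hm hirr hsq) (by rw [hgd]; decide)
      (by rw [hhd]; exact even_two_mul m) (by rw [hgd]; norm_num)
      (ex_fix r m hr hm hirr hsq) (ex_p r m hr hm hirr hsq) (ex_q r m hr hm hirr hsq)

end SC3
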