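import Pool.Agent.MP_c1dca2_ag.SC3.G0

/-!
# [SC3-G3] infinitely many places of given Frobenius type

Proof. Compare `SC4.good_set` (file SC4/F.lean), where the same construction is made for
`N = f.SplittingField`. `F = IntermediateField.fixedField (Subgroup.zpowers σ)`, `σ' : N ≃ₐ[F] N` the
corresponding element, a generator of `Gal(N/F)`. Let `B` be the finite set of primes of `𝓞 N` from
`SC4.exists_bad k N` and `B' = {R.comap (algebraMap (𝓞 F) (𝓞 N)) | R ∈ B}`, finite.
`SC4.not_summable σ' hgen B' hB'`: the set of the `p = absNorm P`, `P ∈ SC4.T σ'`, `P ∉ B'` is not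
summable, hence infinite. For such `P` (prime, nonzero, norm `p`) let `v` be the place
`P.comap (algebraMap (𝓞 k) (𝓞 F))`, of norm `p` (`SC4.norm_comap`); by the definition of `SC4.T`
there are `R` above `P`, `j` prime to the order with `σ'^j` a Frobenius at `R`; `R ≠ ⊥`,
`R ∉ B` since `P ∉ B'`, so the last condition of `Typ` holds; `φ = σ^j` generates the same group as `σ`.
Different `p` give different `v`, so the set of these `v` is infinite.
-/

set_option autoImplicit false

open NumberField IsDedekindDomain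

namespace SC3

theorem typ_infinite {k N : Type} [Field k] [NumberField k] [Field N] [NumberField N]
    [Algebra k N] [IsGalois k N] (σ : N ≃ₐ[k] N) :
    {v : HeightOneSpectrum (𝓞 k) | Typ σ v}.Infinite := by
  classical
  have hfd : FiniteDimensional k N := FiniteDimensional.right ℚ k N
  let F : IntermediateField k N := IntermediateField.fixedField (Subgroup.zpowers σ)
  have hF : NumberField F := SC4.nf F
  have hgal' : IsGalois F N := inferInstance
  -- the generator
  have hfix : F.fixingSubgroup = Subgroup.zpowers σ :=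
    IntermediateField.fixingSubgroup_fixedField _
  have hσF : σ ∈ F.fixingSubgroup := by rw [hfix]; exact Subgroup.mem_zpowers σ
  let σ' : N ≃ₐ[F] N := IntermediateField.fixingSubgroupEquiv F ⟨σ, hσF⟩
  have hσ' : ∀ x, σ' x = σ x := fun x => rfl
  have hgen : ∀ τ : N ≃ₐ[F] N, τ ∈ Subgroup.zpowers σ' := by
    intro τ
    have h2 : ((IntermediateField.fixingSubgroupEquiv F).symm τ).1 ∈ Subgroup.zpowers σ := by
      rw [← hfix]; exact ((IntermediateField.fixingSubgroupEquiv F).symm τ).2
    obtain ⟨n, hn⟩ := h2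
    refine ⟨n, ?_⟩
    change σ' ^ n = τ
    have h3 : (⟨σ, hσF⟩ : F.fixingSubgroup) ^ n = (IntermediateField.fixingSubgroupEquiv F).symm τ :=
      Subtype.ext (by simpa using hn)
    have h4 : σ' ^ n = IntermediateField.fixingSubgroupEquiv F ((⟨σ, hσF⟩ : F.fixingSubgroup) ^ n) :=
      (map_zpow _ _ _).symm
    rw [h4, h3, MulEquiv.apply_symm_apply]
  -- the powers of `σ'` and `σ` agree
  have h5 : ∀ (n : ℕ) (z : N), (σ' ^ n) z = (σ ^ n) z := by
    intro n
    induction n with
    | zero => intro z; rfl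
    | succ n ih =>
      intro z; rw [pow_succ, pow_succ, AlgEquiv.mul_apply, AlgEquiv.mul_apply, ih, hσ']
  obtain ⟨B, hBfin, hB⟩ := SC4.exists_bad k N
  let B' : Set (Ideal (𝓞 F)) := (fun R : Ideal (𝓞 N) => R.comap (algebraMap (𝓞 F) (𝓞 N))) '' B
  have hB' : B'.Finite := hBfin.image _
  have key := SC4.not_summable σ' hgen B' hB'
  intro hfin
  apply key
  have hsub : {p : ℕ | ∃ P ∈ SC4.T σ', P ∉ B' ∧ Ideal.absNorm P = p} ⊆
      (fun v : HeightOneSpectrum (𝓞 k) => Ideal.absNorm v.asIdeal) ''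
        {v : HeightOneSpectrum (𝓞 k) | Typ σ v} := by
    rintro p ⟨P, ⟨hP1, R, j, hR, hRP, hj, hfrob⟩, hPB, rfl⟩
    have hPk1 : P.comap (algebraMap (𝓞 k) (𝓞 F)) ∈ SC4.P1 k := by
      change (Ideal.absNorm _).Prime
      rw [SC4.norm_comap P hP1]; exact hP1
    have hRbot : R ≠ ⊥ := by
      rintro rfl
      apply SC4.P1.ne_bot hP1
      rw [← hRP]
      exact Ideal.comap_bot_of_injective _ (FaithfulSMul.algebraMap_injective (𝓞 F) (𝓞 N))
    have hRB : R ∉ B := fun h => hPB ⟨R, h, hRP⟩
    refine ⟨⟨P.comap (algebraMap (𝓞 k) (𝓞 F)), SC4.P1.isPrime hPk1, SC4.P1.ne_bot hPk1⟩,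
      ⟨R, σ ^ j, hR, ?_, ?_, ?_, hB R hR hRbot hRB⟩, SC4.norm_comap P hP1⟩
    · show R.comap (algebraMap (𝓞 k) (𝓞 N)) = P.comap (algebraMap (𝓞 k) (𝓞 F))
      rw [← hRP, Ideal.comap_comap]
      rfl
    · intro x y hxy
      show y - x ^ Ideal.absNorm (P.comap (algebraMap (𝓞 k) (𝓞 F))) ∈ R
      rw [SC4.norm_comap P hP1]
      refine hfrob x y ?_
      rw [hxy]
      exact (h5 j x).symm
    · apply le_antisymm
      · rw [Subgroup.zpowers_le]
        exact Subgroup.npow_mem_zpowers σ j
      · rw [Subgroup.zpowers_le]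
        obtain ⟨i, hi⟩ := exists_pow_eq_self_of_coprime hj
        refine ⟨i, ?_⟩
        show (σ ^ j) ^ (i : ℤ) = σ
        rw [zpow_natCast, ← pow_mul]
        ext z
        rw [← h5, pow_mul, hi, hσ']
  have hfin' := (hfin.image (fun v : HeightOneSpectrum (𝓞 k) => Ideal.absNorm v.asIdeal)).subset hsub
  have : Finite {p : ℕ | ∃ P ∈ SC4.T σ', P ∉ B' ∧ Ideal.absNorm P = p} := hfin'
  exact Summable.of_finite

end SC3
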