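import Pool.Agent.MP_c1dca2_ag.SC3.G0

/-!
# [SC3-G7] a Frobenius element of `k^alg` which extends a given one

Proof. Choose an embedding `i : N →ₐ[k] L` (`L` algebraically closed, `N/k` algebraic:
`IsAlgClosed.lift`), and regard `L` as an `N`-algebra by `i`. Let `A_R` be the valuation ring of `N`
at the prime `R` (`SC4.exists_val R`; `R ≠ ⊥`); `A_R ∩ k = A` (an element `x` of `k` is in `A` iff
`v(x) ≤ 1`; both are valuation rings of `k` containing `𝓞 k` whose maximal ideals meet `𝓞 k` in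
`v.asIdeal`: `x ∈ A` can be written `x = y / z`, `y, z ∈ 𝓞 k`, `z ∉ v`; then `z` is a unit of `A_R`, so
`x ∈ A_R`; if `x ∉ A` then `x⁻¹` is in the maximal ideal of `A`, similarly in that of `A_R`, and `x ∉ A_R`).
Let `V` be a valuation ring of `L` above `A_R` (`SC2.exists_above` for `N → L`); it is above `A`.
`φ'` = a Frobenius element (`SC2.exists_frob`, `q = #(ResidueField A) = absNorm v`). `N/k` is normal, so
`φ' (i x) = i (ψ x)` for some `ψ ∈ Gal(N/k)` (`AlgHom.restrictNormal`); for `x ∈ 𝓞 N`: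
`i (ψ x) - i x^q ∈ V.nonunits`, so `ψ x - x^q ∈ R`. So `ψ` and `φ₀` are both Frobenius elements at `R`:
`φ₀⁻¹ ψ` acts trivially modulo `R` (`φ₀` and `ψ` stabilise `R`;
`φ₀ (φ₀⁻¹ ψ x - x) = ψ x - φ₀ x ∈ R`, and `φ₀⁻¹ R = R`),
hence `ψ = φ₀` by `hRt`.
-/

set_option autoImplicit false

open NumberField IsDedekindDomain IsLocalRing SC2

namespace SC3

private theorem g7_val_lt {k C : Type} [Field k] [Field C] [Algebra k C] {A : ValuationSubring k}
    {V : ValuationSubring C} (h : Above A V) {x : k} (hx : V.valuation (algebraMap k C x) < 1) :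
    A.valuation x < 1 := by
  by_contra hcon
  push Not at hcon
  have h0 : V.valuation (algebraMap k C x) ≠ 0 := by
    intro h0
    rw [Valuation.zero_iff, map_eq_zero] at h0
    rw [h0, map_zero] at hcon
    exact absurd hcon (by simp)
  have h1 : x⁻¹ ∈ A := by
    rw [← A.valuation_le_one_iff, map_inv₀]
    exact inv_le_one_of_one_le₀ hcon
  have h2 := (h _).2 h1
  rw [← V.valuation_le_one_iff, map_inv₀, map_inv₀] at h2
  have h4 : V.valuation (algebraMap k C x) * (V.valuation (algebraMap k C x))⁻¹ < 1 :=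
    mul_lt_one_of_lt_of_le hx h2
  rw [mul_inv_cancel₀ h0] at h4
  exact lt_irrefl _ h4

/-- `A_R ∩ k = A` -/
private theorem g7_above {k N : Type} [Field k] [NumberField k] [Field N] [NumberField N]
    [Algebra k N] (v : HeightOneSpectrum (𝓞 k)) (A : ValuationSubring k) (hA : IsVal v A)
    (R : Ideal (𝓞 N)) (hRv : R.comap (algebraMap (𝓞 k) (𝓞 N)) = v.asIdeal)
    (B : ValuationSubring N) (hB1 : ∀ x : 𝓞 N, (x : N) ∈ B)
    (hB2 : ∀ x : 𝓞 N, B.valuation (x : N) < 1 ↔ x ∈ R) : Above A B := by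
  have e : ∀ n : 𝓞 k, algebraMap k N (algebraMap (𝓞 k) k n) =
      ((algebraMap (𝓞 k) (𝓞 N) n : 𝓞 N) : N) := by
    intro n
    rfl
  have c1 : ∀ n : 𝓞 k, B.valuation (algebraMap k N (algebraMap (𝓞 k) k n)) ≤ 1 := by
    intro n
    rw [e, B.valuation_le_one_iff]
    exact hB1 _
  have c2 : ∀ n : 𝓞 k, B.valuation (algebraMap k N (algebraMap (𝓞 k) k n)) < 1 ↔
      n ∈ v.asIdeal := by
    intro n
    rw [e, hB2, ← hRv, Ideal.mem_comap]
  have c3 : ∀ n : 𝓞 k, n ∉ v.asIdeal →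
      B.valuation (algebraMap k N (algebraMap (𝓞 k) k n)) = 1 := by
    intro n hn
    exact le_antisymm (c1 n) (not_lt.1 fun h => hn ((c2 n).1 h))
  have d1 : ∀ n : 𝓞 k, v.valuation k (algebraMap (𝓞 k) k n) ≤ 1 := fun n =>
    v.valuation_le_one n
  have d2 : ∀ n : 𝓞 k, v.valuation k (algebraMap (𝓞 k) k n) < 1 ↔ n ∈ v.asIdeal := fun n =>
    v.valuation_lt_one_iff_mem n
  have d3 : ∀ n : 𝓞 k, n ∉ v.asIdeal → v.valuation k (algebraMap (𝓞 k) k n) = 1 := by
    intro n hn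
    exact le_antisymm (d1 n) (not_lt.1 fun h => hn ((d2 n).1 h))
  intro x
  rw [hA.mem, ← B.valuation_le_one_iff]
  obtain ⟨n, ⟨d, hd⟩, h | h⟩ := v.exists_primeCompl_mul_eq_or_mul_eq (K := k) x
  · have hd' : d ∉ v.asIdeal := hd
    change x * algebraMap (𝓞 k) k d = algebraMap (𝓞 k) k n at h
    have h1 := congrArg (fun t => B.valuation (algebraMap k N t)) h
    have h2 := congrArg (fun t => v.valuation k t) h
    simp only [map_mul] at h1 h2
    rw [c3 d hd', mul_one] at h1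
    rw [d3 d hd', mul_one] at h2
    rw [h1, h2]
    exact ⟨fun _ => d1 n, fun _ => c1 n⟩
  · have hd' : d ∉ v.asIdeal := hd
    change x * algebraMap (𝓞 k) k n = algebraMap (𝓞 k) k d at h
    have h1 := congrArg (fun t => B.valuation (algebraMap k N t)) h
    have h2 := congrArg (fun t => v.valuation k t) h
    simp only [map_mul] at h1 h2
    rw [c3 d hd'] at h1
    rw [d3 d hd'] at h2
    by_cases hn : n ∈ v.asIdeal
    · constructor
      · intro h3
        have h4 := mul_lt_one_of_lt_of_le ((c2 n).2 hn) h3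
        rw [mul_comm, h1] at h4
        exact absurd h4 (lt_irrefl _)
      · intro h3
        have h4 := mul_lt_one_of_lt_of_le ((d2 n).2 hn) h3
        rw [mul_comm, h2] at h4
        exact absurd h4 (lt_irrefl _)
    · rw [c3 n hn, mul_one] at h1
      rw [d3 n hn, mul_one] at h2
      rw [h1, h2]
      exact ⟨fun _ => le_rfl, fun _ => le_rfl⟩

/-- automorphisms act on the ring of integers -/
private theorem g7_int {k N : Type} [Field k] [Field N] [NumberField N] [Algebra k N]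
    (φ : N ≃ₐ[k] N) (x : 𝓞 N) : ∃ y : 𝓞 N, (y : N) = φ (x : N) :=
  ⟨⟨φ (x : N), map_isIntegral_int (φ : N →+* N) x.isIntegral_coe⟩, rfl⟩

private theorem g7_eq {k N : Type} [Field k] [Field N] [NumberField N] [Algebra k N]
    (R : Ideal (𝓞 N)) (hR : R.IsPrime) (q : ℕ)
    (hRt : ∀ τ : N ≃ₐ[k] N, (∀ x y : 𝓞 N, (y : N) = τ (x : N) → y - x ∈ R) → τ = 1)
    (φ₀ ψ : N ≃ₐ[k] N) (hφ₀ : SC4.FrobAt φ₀ R q) (hψ : SC4.FrobAt ψ R q) : ψ = φ₀ := by
  have h : φ₀⁻¹ * ψ = 1 := by
    apply hRt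
    intro x y hxy
    have h1 : φ₀ (y : N) = ψ (x : N) := by
      rw [hxy, AlgEquiv.mul_apply, ← AlgEquiv.mul_apply, mul_inv_cancel, AlgEquiv.one_apply]
    obtain ⟨a, ha⟩ := g7_int ψ x
    obtain ⟨b, hb⟩ := g7_int φ₀ x
    have h2 := hψ x a ha
    have h3 := hφ₀ x b hb
    have h4 : ((a - b : 𝓞 N) : N) = φ₀ ((y - x : 𝓞 N) : N) := by
      change algebraMap (𝓞 N) N (a - b) = φ₀ (algebraMap (𝓞 N) N (y - x))
      rw [map_sub, map_sub, map_sub]
      change (a : N) - (b : N) = φ₀ (y : N) - φ₀ (x : N)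
      rw [ha, hb, h1]
    have h5 := hφ₀ (y - x) (a - b) h4
    have h6 : a - b ∈ R := by
      have e : a - b = (a - x ^ q) - (b - x ^ q) := by ring
      rw [e]
      exact R.sub_mem h2 h3
    have h7 : (y - x) ^ q ∈ R := by
      have e : (y - x) ^ q = (a - b) - ((a - b) - (y - x) ^ q) := by ring
      rw [e]
      exact R.sub_mem h6 h5
    exact hR.mem_of_pow_mem _ h7
  calc ψ = φ₀ * (φ₀⁻¹ * ψ) := by rw [mul_inv_cancel_left]
    _ = φ₀ := by rw [h, mul_one]

theorem frob_lift {k N : Type} [Field k] [NumberField k] [Field N] [NumberField N]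
    [Algebra k N] [IsGalois k N] {L : Type} [Field L] [Algebra k L] [IsAlgClosed L]
    [IsGalois k L] (v : HeightOneSpectrum (𝓞 k)) (A : ValuationSubring k) (hA : IsVal v A)
    (R : Ideal (𝓞 N)) (hR : R.IsPrime)
    (hRv : R.comap (algebraMap (𝓞 k) (𝓞 N)) = v.asIdeal)
    (hRt : ∀ τ : N ≃ₐ[k] N, (∀ x y : 𝓞 N, (y : N) = τ (x : N) → y - x ∈ R) → τ = 1)
    (φ₀ : N ≃ₐ[k] N) (hφ₀ : SC4.FrobAt φ₀ R (Ideal.absNorm v.asIdeal)) :
    ∃ (i : N →ₐ[k] L) (V : ValuationSubring L) (φ : L ≃ₐ[k] L), Above A V ∧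
      Frob (Nat.card (ResidueField A)) V φ ∧ ∀ x : N, φ (i x) = i (φ₀ x) := by
  obtain ⟨i⟩ : Nonempty (N →ₐ[k] L) := ⟨IsAlgClosed.lift⟩
  let _ : Algebra N L := i.toRingHom.toAlgebra
  have : IsScalarTower k N L := IsScalarTower.of_algebraMap_eq fun x => (i.commutes x).symm
  have hi : ∀ x : N, algebraMap N L x = i x := fun x => rfl
  have hR0 : R ≠ ⊥ := by
    rintro rfl
    apply v.ne_bot
    rw [← hRv, eq_bot_iff]
    intro x hx
    rw [Ideal.mem_comap, Ideal.mem_bot] at hx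
    rw [Ideal.mem_bot]
    have h1 : Function.Injective (algebraMap (𝓞 k) (𝓞 N)) := FaithfulSMul.algebraMap_injective _ _
    exact (map_eq_zero_iff _ h1).1 hx
  obtain ⟨B, -, -, -, hB1, hB2, -⟩ := SC4.exists_val R hR hR0
  have hAB := g7_above v A hA R hRv B hB1 hB2
  obtain ⟨V, hV⟩ := SC2.exists_above (C := L) B
  have hAV : Above A V := by
    intro a
    rw [IsScalarTower.algebraMap_apply k N L, hV, hAB]
  have : Finite (ResidueField A) := hA.fin
  obtain ⟨φ, hφ⟩ := SC2.exists_frob (C := L) hAV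
  have hψ : ∀ x : N, i (φ.restrictNormal N x) = φ (i x) := fun x =>
    φ.restrictNormal_commutes N x
  have hF : SC4.FrobAt (φ.restrictNormal N) R (Ideal.absNorm v.asIdeal) := by
    intro x y hxy
    rw [← hB2]
    apply g7_val_lt hV
    have h1 : i (x : N) ∈ V := (hV _).2 (hB1 x)
    have h2 := hφ.frob _ h1
    rw [V.mem_nonunits_iff] at h2
    have h3 : algebraMap N L ((y - x ^ Ideal.absNorm v.asIdeal : 𝓞 N) : N) =
        φ (i (x : N)) - i (x : N) ^ Nat.card (ResidueField A) := by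
      rw [hi]
      change i (algebraMap (𝓞 N) N (y - x ^ Ideal.absNorm v.asIdeal)) = _
      rw [map_sub, map_pow, map_sub, map_pow, hA.card]
      change i (y : N) - i (x : N) ^ _ = _
      rw [hxy, hψ]
    rw [h3]
    exact h2
  have hψφ := g7_eq R hR _ hRt φ₀ _ hφ₀ hF
  exact ⟨i, V, φ, hAV, hφ, fun x => by rw [← hψ, hψφ]⟩

end SC3
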