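import Pool.Agent.MP_c1dca2_ag.SC3.Defs

/-!
# [SC3-T0] elementary lemmas for the local analysis

`ev_fix`: `|d| = |b|²`, `δ² = d`: if `d = 0` trivial; otherwise `b ≠ 0` and `δ / b` is a unit of `V`
(`|δ|² = |d|` in `V`: the valuation of `V` restricted to `k` is equivalent to that of `A` by `Above`).
`τ δ = ± δ`; if `τ δ = - δ` then
`τ (δ / b) - δ / b = - 2 δ / b` is a unit, contradiction to `Iner.triv`.

`u_formula`: `G` = the set of the `i` with `r i` a root of `g`, `g` monic, `u² = g(x)`. Then
`g(x) = ∏_G (x - r i) = (x - r j)^#G ∏_G (S i)²`, so `u = ± (x - r j)^(#G/2) ∏_G S i`.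

`loc_exists`: `A` good for `g h`, `V` above: local data with `ι = Fin (natDegree F)` from
`SC2.exists_roots` (file SC2/C2.lean) and `SC2.f_two`, as in `SC2.no_section_core`.

`roots_of_factor`: if `f = g h` and `f.map = l ∏ (X - r i)` with distinct `r i`, `g` monic, then
`g.map = ∏_{i ∈ G} (X - r i)`, `G = {i | g(r i) = 0}` (`g.map` divides a product of distinct linear
factors, so it splits with simple roots among the `r i`); in particular `#G = natDegree g`.
-/

set_option autoImplicit false

open Polynomial IsLocalRing SEC SC2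

namespace SC3

theorem ev_fix {k C : Type} [Field k] [Field C] [Algebra k C] {A : ValuationSubring k}
    {V : ValuationSubring C} (h : Above A V) (h2 : V.valuation 2 = 1) (d : k) (hd : EvA A d)
    (δ : C) (hδ : δ ^ 2 = algebraMap k C d) (τ : C ≃ₐ[k] C) (hτ : Iner V τ) : τ δ = δ := by
  by_cases hd0 : d = 0
  · rw [hd0, map_zero] at hδ
    have h3 : δ = 0 := by
      rcases pow_eq_zero_iff (two_ne_zero) |>.1 hδ with h4
      exact h4
    rw [h3, map_zero]
  obtain ⟨b, hb⟩ := hd
  have hb0 : b ≠ 0 := by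
    rintro rfl
    rw [map_zero, zero_pow two_ne_zero, Valuation.zero_iff] at hb
    exact hd0 hb
  have he : A.valuation (d / b ^ 2) = 1 := by
    rw [map_div₀, map_pow, hb]
    apply div_self
    apply pow_ne_zero
    rw [Ne, Valuation.zero_iff]
    exact hb0
  have he0 : d / b ^ 2 ≠ 0 := by
    intro h3
    rw [h3, map_zero] at he
    exact zero_ne_one he
  have h3 : V.valuation (algebraMap k C (d / b ^ 2)) ≤ 1 :=
    (V.valuation_le_one_iff _).2 ((h _).2 ((A.valuation_le_one_iff _).1 he.le))
  have h4 : V.valuation (algebraMap k C (d / b ^ 2)⁻¹) ≤ 1 := by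
    refine (V.valuation_le_one_iff _).2 ((h _).2 ((A.valuation_le_one_iff _).1 ?_))
    rw [map_inv₀, he, inv_one]
  have h5 : V.valuation (algebraMap k C (d / b ^ 2)) = 1 := by
    apply le_antisymm h3
    rw [map_inv₀, map_inv₀] at h4
    have h6 : V.valuation (algebraMap k C (d / b ^ 2)) ≠ 0 := by
      rw [Ne, Valuation.zero_iff, map_eq_zero]
      exact he0
    by_contra h7
    push Not at h7
    have h8 := one_lt_inv₀ (zero_lt_iff.2 h6) |>.2 h7
    exact absurd h4 (not_le.2 h8)
  have hbC : algebraMap k C b ≠ 0 := by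
    rw [Ne, map_eq_zero]
    exact hb0
  set z : C := δ / algebraMap k C b with hz
  have hzb : δ = z * algebraMap k C b := by
    rw [hz, div_mul_cancel₀ _ hbC]
  have hz2 : z ^ 2 = algebraMap k C (d / b ^ 2) := by
    rw [hz, div_pow, hδ, map_div₀, map_pow]
  have hv : V.valuation z = 1 := by
    have h6 : V.valuation z ^ 2 = 1 := by
      rw [← map_pow, hz2, h5]
    exact (pow_eq_one_iff_of_nonneg zero_le two_ne_zero).1 h6
  have hzV : z ∈ V := (V.valuation_le_one_iff _).1 hv.le
  have h6 := hτ.triv z hzV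
  have h7 : τ z = z := by
    have h8 : (τ z) ^ 2 = z ^ 2 := by
      rw [← map_pow, hz2, AlgEquiv.commutes]
    rcases sq_eq_sq_iff_eq_or_eq_neg.1 h8 with h9 | h9
    · exact h9
    · exfalso
      rw [h9, V.mem_nonunits_iff] at h6
      have h10 : -z - z = -(2 * z) := by ring
      rw [h10, Valuation.map_neg, map_mul, h2, hv, one_mul] at h6
      exact absurd h6 (lt_irrefl _)
  rw [hzb, map_mul, h7, AlgEquiv.commutes]

theorem roots_of_factor {k L : Type} [Field k] [Field L] [Algebra k L] (g h : k[X])
    (hg : g.Monic) {ι : Type} [Fintype ι] [DecidableEq ι] (l : k) (r : ι → L)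
    (hr : Function.Injective r) (hl : l ≠ 0)
    (hfr : (g * h).map (algebraMap k L) = C (algebraMap k L l) * ∏ i, (X - C (r i))) :
    ∃ G : Finset ι, (∀ i, i ∈ G ↔ aeval (r i) g = 0) ∧
      g.map (algebraMap k L) = ∏ i ∈ G, (X - C (r i)) ∧ G.card = g.natDegree := by
  classical
  have hlL : algebraMap k L l ≠ 0 := by
    rw [Ne, map_eq_zero]
    exact hl
  have hP0 : (C (algebraMap k L l) * ∏ i, (X - C (r i)) : L[X]) ≠ 0 := by
    apply mul_ne_zero
    · rw [Ne, C_eq_zero]
      exact hlL
    · exact Finset.prod_ne_zero_iff.2 (fun i _ => X_sub_C_ne_zero _)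
  have hPr : (C (algebraMap k L l) * ∏ i, (X - C (r i)) : L[X]).roots =
      Finset.univ.val.map r := by
    rw [roots_C_mul _ hlL]
    have h1 : (∏ i, (X - C (r i)) : L[X]) =
        ((Finset.univ.val.map r).map (fun a => X - C a)).prod := by
      rw [Multiset.map_map]
      rfl
    rw [h1, roots_multiset_prod_X_sub_C]
  have hdvd : g.map (algebraMap k L) ∣ C (algebraMap k L l) * ∏ i, (X - C (r i)) := by
    rw [← hfr, Polynomial.map_mul]
    exact dvd_mul_right _ _
  have hPs : (C (algebraMap k L l) * ∏ i, (X - C (r i)) : L[X]).Splits := by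
    apply Splits.mul (Splits.C _)
    exact Splits.prod (fun i _ => Splits.X_sub_C _)
  have hgs : (g.map (algebraMap k L)).Splits := hPs.of_dvd hP0 hdvd
  have hgm : (g.map (algebraMap k L)).Monic := hg.map _
  have hle : (g.map (algebraMap k L)).roots ≤ Finset.univ.val.map r := by
    rw [← hPr]
    exact roots.le_of_dvd hP0 hdvd
  have hnd : (Finset.univ.val.map r : Multiset L).Nodup :=
    Multiset.Nodup.map hr Finset.univ.nodup
  have hgnd : (g.map (algebraMap k L)).roots.Nodup := Multiset.nodup_of_le hle hnd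
  set G : Finset ι := Finset.univ.filter (fun i => aeval (r i) g = 0) with hG
  have hmem : ∀ i, i ∈ G ↔ aeval (r i) g = 0 := by
    intro i
    simp [hG]
  have hroots : (g.map (algebraMap k L)).roots = G.val.map r := by
    rw [Multiset.Nodup.ext hgnd (Multiset.Nodup.map hr G.nodup)]
    intro a
    rw [mem_roots hgm.ne_zero, IsRoot.def, eval_map_algebraMap, Multiset.mem_map]
    constructor
    · intro ha
      have h1 : a ∈ (g.map (algebraMap k L)).roots := by
        rw [mem_roots hgm.ne_zero, IsRoot.def, eval_map_algebraMap]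
        exact ha
      have h2 := Multiset.mem_of_le hle h1
      rw [Multiset.mem_map] at h2
      obtain ⟨i, -, rfl⟩ := h2
      exact ⟨i, (hmem i).2 ha, rfl⟩
    · rintro ⟨i, hi, rfl⟩
      exact (hmem i).1 hi
  refine ⟨G, hmem, ?_, ?_⟩
  · have h1 := hgs.eq_prod_roots_of_monic hgm
    rw [hroots, Multiset.map_map] at h1
    exact h1
  · have h1 := hgs.natDegree_eq_card_roots
    rw [hroots, Multiset.card_map, natDegree_map] at h1
    exact h1.symm

variable {k K : Type} [Field k] [Field K] [Algebra k K]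

theorem u_formula {A : ValuationSubring k} {V : ValuationSubring (kb k K)} {f : k[X]} {c : k}
    {x y : K} {ι : Type} [Fintype ι] (D : Loc A V f c x y ι) (j : ι) (S : ι → Mnr k K)
    (hS : ∀ i, (S i : Om K) ^ 2 * (algebraMap K (Om K) x - (D.r j : Om K)) =
      algebraMap K (Om K) x - (D.r i : Om K)) (G : Finset ι) (hG : Even G.card) (g : k[X])
    (hg : g.map (algebraMap k (kb k K)) = ∏ i ∈ G, (X - C (D.r i))) (u : Mnr k K)
    (hu : (u : Om K) ^ 2 = algebraMap K (Om K) (aeval x g)) :
    ∃ ε : Om K, (ε = 1 ∨ ε = -1) ∧ (u : Om K) =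
      ε * (algebraMap K (Om K) x - (D.r j : Om K)) ^ (G.card / 2) * ∏ i ∈ G, (S i : Om K) := by
  have h1 : algebraMap K (Om K) (aeval x g) =
      ∏ i ∈ G, (algebraMap K (Om K) x - (D.r i : Om K)) := by
    have h2 : algebraMap K (Om K) (aeval x g) = aeval (algebraMap K (Om K) x) g :=
      (aeval_algebraMap_apply (Om K) x g).symm
    have h3 : aeval (algebraMap K (Om K) x) g =
        aeval (algebraMap K (Om K) x) (g.map (algebraMap k (kb k K))) := by
      rw [aeval_map_algebraMap]
    rw [h2, h3, hg, map_prod]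
    apply Finset.prod_congr rfl
    intro i _
    rw [map_sub, aeval_X, aeval_C]
    rfl
  have h2 : (u : Om K) ^ 2 = ((algebraMap K (Om K) x - (D.r j : Om K)) ^ (G.card / 2) *
      ∏ i ∈ G, (S i : Om K)) ^ 2 := by
    rw [hu, h1, mul_pow, ← pow_mul, Nat.div_mul_cancel hG.two_dvd, ← Finset.prod_pow,
      ← Finset.prod_const, ← Finset.prod_mul_distrib]
    apply Finset.prod_congr rfl
    intro i _
    rw [← hS i, mul_comm]
  rcases sq_eq_sq_iff_eq_or_eq_neg.1 h2 with h3 | h3
  · exact ⟨1, Or.inl rfl, by rw [h3, one_mul]⟩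
  · exact ⟨-1, Or.inr rfl, by rw [h3, neg_one_mul, neg_mul]⟩

theorem loc_exists [CharZero k] {A : ValuationSubring k} {V : ValuationSubring (kb k K)}
    (f : k[X]) (hA : GoodAt A f) (hV : Above A V) (heven : Even f.natDegree)
    (h4 : 4 ≤ f.natDegree) (c : k) (hc : c ≠ 0) (x y : K) (hx : Transcendental k x)
    (hxy : y ^ 2 = algebraMap k K c * aeval x f) :
    ∃ n : ℕ, Nonempty (Loc A V f c x y (Fin n)) := by
  have hac : IsAlgClosed (kb k K) := kb_isAlgClosed
  obtain ⟨F, hF, hsep, hdeg⟩ := hA.red
  have hn : F.natDegree = f.natDegree := by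
    rw [← hF, natDegree_map_eq_of_injective A.subtype_injective]
  obtain ⟨r, l, hl, hfr, hr, hd⟩ := exists_roots hV F hsep hdeg
  rw [hF] at hfr
  have hl0 : l ≠ 0 := by
    rintro rfl
    rw [map_zero, map_zero] at hl
    exact zero_ne_one hl
  have hrinj : Function.Injective r := by
    intro i j hij
    by_contra hne
    have h1 := hd i j hne
    rw [hij, sub_self, map_zero] at h1
    exact zero_ne_one h1
  have hfk : f.Separable := by
    rw [← separable_map (algebraMap k (kb k K)), hfr]
    have h1 : (∏ i, (X - C (r i)) : (kb k K)[X]).Separable :=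
      separable_prod_X_sub_C_iff.2 hrinj
    have h3 : IsUnit (C (algebraMap k (kb k K) l)) := by
      rw [isUnit_C, isUnit_iff_ne_zero]
      intro h
      rw [map_eq_zero] at h
      exact hl0 h
    exact (associated_unit_mul_left _ _ h3).symm.separable h1
  exact ⟨F.natDegree, ⟨{
    above := hV
    two := f_two hV hA.two
    tr := hx
    eq := hxy
    c0 := hc
    sep := hfk
    l := l
    hl := hl
    r := r
    fr := hfr
    int := hr
    dist := hd
    even := by rw [Fintype.card_fin, hn]; exact heven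
    four := by rw [Fintype.card_fin, hn]; exact h4 }⟩⟩

end SC3
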