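import Pool.Agent.MP_c1dca2_ag.SC3.Defs

/-!
# [SC3-T1] parity and combinatorics of the signs of an inertia element

`parity_even`: as `SC2.parity` (file SC2/B7.lean), with `τ z = z` instead of `τ z = - z`:
`y² = c l (x - r o)^N ∏ (S i)²`, `N` even, so `y = ± z λ (x - r o)^(N/2) ∏ S i` with `z² = c`,
`λ² = l` in `k^alg`; `λ` (a unit) is fixed by `τ`, `z` is fixed, `s τ y = y`, so the product of the
signs of `s τ` on the `S i` is `+ 1`.

`comb_odd`: the proof of `SC2.comb` (file SC2/C1.lean) gives the stronger conclusion: let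
`F = {i | ε i = false}`, of odd cardinality; by `hc` either `F = {j}` or `F` is everything but `o` (if
`F` has at least two elements then by `hc` no `a ≠ o` has `ε a = true`); in both cases there is a unique
special index `j` (`j = o` in the second case) with `ε i ≠ ε j` for `i ≠ j`, and `hb` gives `π j = j`
(`π j` is again special: `N ≥ 3`).

`comb_even`: `F` has even cardinality, so it is not everything but `o` (`N - 1` is odd), so by `hc`
`F` has at most one element, hence none.
-/

set_option autoImplicit false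

open Polynomial IsLocalRing SEC SC2

namespace SC3

theorem t1_two {ι : Type} [Fintype ι] [DecidableEq ι] (o : ι) (ε : ι → Bool)
    (hc : ¬ ∃ a b c, a ≠ o ∧ b ≠ c ∧ ε a = true ∧ ε b = false ∧ ε c = false)
    (h2 : 1 < (Finset.univ.filter (fun i => ε i = false)).card) :
    ∀ a, ε a = true → a = o := by
  obtain ⟨b, hbF, c, hcF, hbc⟩ := Finset.one_lt_card.1 h2
  rw [Finset.mem_filter] at hbF hcF
  intro a ha
  by_contra hne
  exact hc ⟨a, b, c, hne, hbc, ha, hbF.2, hcF.2⟩

theorem comb_odd {ι : Type} [Fintype ι] [DecidableEq ι] (hcard : 4 ≤ Fintype.card ι)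
    (heven : Even (Fintype.card ι)) (o : ι) (ε : ι → Bool) (ho : ε o = true)
    (hodd : Odd (Finset.univ.filter (fun i => ε i = false)).card)
    (hc : ¬ ∃ a b c, a ≠ o ∧ b ≠ c ∧ ε a = true ∧ ε b = false ∧ ε c = false) :
    ∃ j, (∀ i, i ≠ j → ε i = !ε j) ∧
      ∀ π : ι → ι, Function.Bijective π → (∀ i, ε (π i) = ε (π o) ↔ ε i = true) → π j = j := by
  by_cases h1 : (Finset.univ.filter (fun i => ε i = false)).card = 1
  · obtain ⟨j, hj⟩ := Finset.card_eq_one.1 h1
    have hF : ∀ i, ε i = false ↔ i = j := by
      intro i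
      have : i ∈ Finset.univ.filter (fun i => ε i = false) ↔ i ∈ ({j} : Finset ι) := by rw [hj]
      simpa using this
    refine ⟨j, fun i hi => ?_, fun π hπ hb => ?_⟩
    · rw [(hF j).2 rfl, Bool.not_false, ← Bool.not_eq_false]
      exact fun h => hi ((hF i).1 h)
    · have hT : ε (π o) = true := by
        by_contra hcon
        rw [Bool.not_eq_true] at hcon
        have h2 : ∀ i, i ≠ j → π i = j := by
          intro i hi
          have h3 : ε i = true := by
            rw [← Bool.not_eq_false]
            exact fun h => hi ((hF i).1 h)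
          have h4 := (hb i).2 h3
          rw [hcon] at h4
          exact (hF _).1 h4
        have h5 : (Finset.univ.erase j).card ≤ 1 := by
          rw [Finset.card_le_one]
          intro a ha b hb'
          exact hπ.1 ((h2 a (Finset.ne_of_mem_erase ha)).trans
            (h2 b (Finset.ne_of_mem_erase hb')).symm)
        rw [Finset.card_erase_of_mem (Finset.mem_univ _), Finset.card_univ] at h5
        omega
      refine (hF _).1 ?_
      rw [← Bool.not_eq_true]
      intro h3
      have h4 := (hb j).1 (h3.trans hT.symm)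
      rw [(hF j).2 rfl] at h4
      exact absurd h4 (by decide)
  · have h2 : 1 < (Finset.univ.filter (fun i => ε i = false)).card := by
      have := hodd.pos
      omega
    have hT := t1_two o ε hc h2
    obtain ⟨b, hbF, c, hcF, hbc⟩ := Finset.one_lt_card.1 h2
    rw [Finset.mem_filter] at hbF hcF
    refine ⟨o, fun i hi => ?_, fun π hπ hb => ?_⟩
    · rw [ho, Bool.not_true, ← Bool.not_eq_true]
      exact fun h => hi (hT i h)
    by_cases h3 : ε (π o) = true
    · exact hT _ h3
    · exfalso
      have h5 : ∀ i, ε i = false → π i = o := by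
        intro i hi
        apply hT
        by_contra h6
        have h7 : ε (π i) = ε (π o) := by
          rw [Bool.not_eq_true] at h3 h6
          rw [h3, h6]
        have h8 := (hb i).1 h7
        rw [hi] at h8
        exact absurd h8 (by decide)
      exact hbc (hπ.1 ((h5 b hbF.2).trans (h5 c hcF.2).symm))

theorem comb_even {ι : Type} [Fintype ι] [DecidableEq ι] (hcard : 4 ≤ Fintype.card ι)
    (heven : Even (Fintype.card ι)) (o : ι) (ε : ι → Bool) (ho : ε o = true)
    (hev : Even (Finset.univ.filter (fun i => ε i = false)).card)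
    (hc : ¬ ∃ a b c, a ≠ o ∧ b ≠ c ∧ ε a = true ∧ ε b = false ∧ ε c = false) (i : ι) :
    ε i = true := by
  by_cases h2 : 1 < (Finset.univ.filter (fun i => ε i = false)).card
  · exfalso
    have hT := t1_two o ε hc h2
    have h3 : Finset.univ.filter (fun i => ε i = false) = Finset.univ.erase o := by
      ext a
      simp only [Finset.mem_filter, Finset.mem_univ, true_and, Finset.mem_erase, and_true]
      constructor
      · intro h h4
        rw [h4, ho] at h
        exact absurd h (by decide)
      · intro h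
        rw [← Bool.not_eq_true]
        exact fun h4 => h (hT a h4)
    rw [h3, Finset.card_erase_of_mem (Finset.mem_univ _), Finset.card_univ] at hev
    obtain ⟨u, hu⟩ := heven
    obtain ⟨v, hv⟩ := hev
    omega
  · have h3 : (Finset.univ.filter (fun i => ε i = false)).card = 0 := by
      obtain ⟨v, hv⟩ := hev
      omega
    rw [Finset.card_eq_zero, Finset.filter_eq_empty_iff] at h3
    rw [← Bool.not_eq_false]
    exact h3 (Finset.mem_univ i)

theorem parity_even {k K : Type} [Field k] [Field K] [Algebra k K] [CharZero k]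
    {V : ValuationSubring (kb k K)} (h2 : V.valuation 2 = 1)
    (f : k[X]) (c : k) (hc : c ≠ 0) (x y : K)
    (hx : Transcendental k x) (hxy : y ^ 2 = algebraMap k K c * aeval x f) {ι : Type}
    [Fintype ι] [DecidableEq ι] (heven : Even (Fintype.card ι)) (l : k)
    (hl : V.valuation (algebraMap k (kb k K) l) = 1) (r : ι → kb k K)
    (hfr : f.map (algebraMap k (kb k K)) =
      C (algebraMap k (kb k K) l) * ∏ i, (X - C (r i))) (o : ι)
    (S : ι → Mnr k K) (hS0 : ∀ i, S i ≠ 0)
    (hS : ∀ i, (S i : Om K) ^ 2 * (algebraMap K (Om K) x - (r o : Om K)) =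
      algebraMap K (Om K) x - (r i : Om K)) (s : Sect k K)
    (τ : kb k K ≃ₐ[k] kb k K) (hτ : Iner V τ) (hτr : ∀ i, τ (r i) = r i) (z : kb k K)
    (hz : z ^ 2 = algebraMap k (kb k K) c) (hτz : τ z = z) (ε : ι → Bool)
    (hε : ∀ i, s.toHom τ (S i) = if ε i then S i else -S i) :
    Even (Finset.univ.filter (fun i => ε i = false)).card := by
  have hac : IsAlgClosed (kb k K) :=
    (algebraicClosure.isAlgClosure k (Om K)).isAlgClosed
  obtain ⟨t, ht⟩ := IsAlgClosed.exists_pow_nat_eq (algebraMap k (kb k K) l) (n := 2) (by norm_num)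
  have hτt := b7_fix h2 l hl τ hτ t ht
  obtain ⟨m, hm⟩ := heven
  have hl0 : algebraMap k (kb k K) l ≠ 0 := by
    intro h0
    rw [h0, map_zero] at hl
    exact zero_ne_one hl
  have ht0 : t ≠ 0 := by
    intro h0
    rw [h0] at ht
    exact hl0 (by rw [← ht]; ring)
  have hz0 : z ≠ 0 := by
    intro h0
    rw [h0] at hz
    exact hc ((map_eq_zero (algebraMap k (kb k K))).1 (by rw [← hz]; ring))
  let zM : Mnr k K := ⟨(z : Om K), kb_le _ z.2⟩
  let tM : Mnr k K := ⟨(t : Om K), kb_le _ t.2⟩
  let uM : Mnr k K := algebraMap K (Mnr k K) x - ⟨(r o : Om K), kb_le _ (r o).2⟩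
  have hzM0 : zM ≠ 0 := by
    intro h
    apply hz0
    apply Subtype.ext
    exact congrArg (fun w : Mnr k K => (w : Om K)) h
  have htM0 : tM ≠ 0 := by
    intro h
    apply ht0
    apply Subtype.ext
    exact congrArg (fun w : Mnr k K => (w : Om K)) h
  have huM0 : uM ≠ 0 := fun h => b7_sub_ne x hx (r o) (congrArg Subtype.val h)
  let P : Mnr k K := zM * tM * uM ^ m * ∏ i, S i
  have hP0 : P ≠ 0 := mul_ne_zero (mul_ne_zero (mul_ne_zero hzM0 htM0) (pow_ne_zero _ huM0))
    (Finset.prod_ne_zero_iff.2 fun i _ => hS0 i)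
  have hy : (algebraMap K (Om K) y) ^ 2 = algebraMap k (Om K) c * (algebraMap k (Om K) l *
      ∏ i, (algebraMap K (Om K) x - (r i : Om K))) := by
    rw [← map_pow, hxy, map_mul, ← IsScalarTower.algebraMap_apply, ← aeval_algebraMap_apply,
      ← aeval_map_algebraMap (kb k K), hfr, map_mul, aeval_C, map_prod,
      ← IsScalarTower.algebraMap_apply]
    congr 2
    refine Finset.prod_congr rfl fun i _ => ?_
    rw [map_sub, aeval_X, aeval_C]
    rfl
  have hPc : (P : Om K) = (z : Om K) * (t : Om K) *
      (algebraMap K (Om K) x - (r o : Om K)) ^ m * ∏ i, (S i : Om K) := by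
    have h1 := map_prod (Mnr k K).val S Finset.univ
    have h3 : (P : Om K) = (Mnr k K).val P := rfl
    rw [h3]
    change (Mnr k K).val (zM * tM * uM ^ m * ∏ i, S i) = _
    rw [map_mul, h1, map_mul, map_mul, map_pow]
    rfl
  have hz' : (z : Om K) ^ 2 = algebraMap k (Om K) c := congrArg Subtype.val hz
  have ht' : (t : Om K) ^ 2 = algebraMap k (Om K) l := congrArg Subtype.val ht
  have hsq : P ^ 2 = (algebraMap K (Mnr k K) y) ^ 2 := by
    apply Subtype.ext
    change (P : Om K) ^ 2 = (algebraMap K (Om K) y) ^ 2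
    rw [hy, hPc, ← hz', ← ht']
    have h1 : ∏ i, (algebraMap K (Om K) x - (r i : Om K)) =
        (∏ i, (S i : Om K)) ^ 2 * (algebraMap K (Om K) x - (r o : Om K)) ^ (m + m) := by
      rw [← hm, ← Finset.card_univ, ← Finset.prod_const, ← Finset.prod_pow,
        ← Finset.prod_mul_distrib]
      exact Finset.prod_congr rfl fun i _ => (hS i).symm
    rw [h1]
    ring
  have hsP : s.toHom τ P = P := by
    have h1 : s.toHom τ (algebraMap K (Mnr k K) y) = algebraMap K (Mnr k K) y :=
      AlgEquiv.commutes _ _
    rcases sq_eq_sq_iff_eq_or_eq_neg.1 hsq with h3 | h3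
    · rw [h3, h1]
    · rw [h3, map_neg, h1]
  have hsz : s.toHom τ zM = zM := by
    apply Subtype.ext
    rw [s.split τ z (kb_le _ z.2), hτz]
  have hst : s.toHom τ tM = tM := by
    apply Subtype.ext
    rw [s.split τ t (kb_le _ t.2), hτt]
  have hsu : s.toHom τ uM = uM := by
    have h1 : s.toHom τ ⟨(r o : Om K), kb_le _ (r o).2⟩ = ⟨(r o : Om K), kb_le _ (r o).2⟩ := by
      apply Subtype.ext
      rw [s.split τ (r o) (kb_le _ (r o).2), hτr]
    change s.toHom τ (algebraMap K (Mnr k K) x - ⟨(r o : Om K), kb_le _ (r o).2⟩) = _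
    rw [map_sub, h1, AlgEquiv.commutes]
  have hsS : s.toHom τ (∏ i, S i) =
      (-1) ^ (Finset.univ.filter (fun i => ε i = false)).card * ∏ i, S i := by
    rw [map_prod]
    have h1 : ∀ i, s.toHom τ (S i) = (if ε i = false then (-1 : Mnr k K) else 1) * S i := by
      intro i
      rw [hε i]
      cases ε i <;> simp
    rw [Finset.prod_congr rfl fun i _ => h1 i, Finset.prod_mul_distrib, Finset.prod_ite,
      Finset.prod_const, Finset.prod_const_one, mul_one]
  by_contra hodd
  rw [Nat.not_even_iff_odd] at hodd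
  rw [hodd.neg_one_pow, neg_one_mul] at hsS
  have h1 : s.toHom τ P = -P := by
    change s.toHom τ (zM * tM * uM ^ m * ∏ i, S i) = -(zM * tM * uM ^ m * ∏ i, S i)
    rw [map_mul, map_mul, map_mul, map_pow, hsz, hst, hsu, hsS]
    ring
  rw [hsP] at h1
  have h3 : (2 : Mnr k K) * P = 0 := by linear_combination h1
  have : CharZero K := charZero_of_injective_algebraMap (algebraMap k K).injective
  have : CharZero (Mnr k K) := charZero_of_injective_algebraMap (algebraMap K (Mnr k K)).injective
  exact (mul_ne_zero two_ne_zero hP0) h3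

end SC3
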