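import Pool.Agent.MP_c1dca2_ag.SC3.T1

/-!
# [SC3-T2] the action of inertia on the square roots of `(x - r i)/(x - r j)`

Model: the proof of `SC2.no_section_core` (file SC2/F.lean): choose `o : ι`, `S` from
`SC2.exists_S` (`D.sep`, `D.c0`, `D.eq`, `D.fr`), a Frobenius element `φ` (`exists_frob`), `π` with
`φ (r i) = r (π i)` (`f_perm`), inertia fixes the roots (`f_iner_root`), signs `ε` (`f_sign`).
`elliptic_step` gives `hcc : ¬ ∃ a b d, a ≠ o ∧ b ≠ d ∧ ε a = true ∧ ε b = false ∧ ε d = false` (exactly as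
in `no_section_core`).

`inert_triv` (`τ z = z`): `parity_even` and `comb_even`: `s τ (S i) = S i` for all `i`. If
`w² (x - r j) = (x - r i)` then `w = ± S i / S j` (`(S j w)² = (S i)²`, as `x - r o ≠ 0`, `f_x_sub`),
so `s τ w = w`.

`inert_spec` (`τ z = - z`): `SC2.parity` (odd) and `comb_odd` give `j`; `π j = j` from
`SC2.perm_sign` (`hb`), for every Frobenius element `φ`. For `i ≠ j`: `w = ± S i / S j` and the
signs of `s τ` on `S i` and `S j` are different, so `s τ w = - w`.
(`q` odd, `q ≥ 2`: `card_odd`.)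
-/

set_option autoImplicit false

open Polynomial IsLocalRing SEC SC2

namespace SC3

variable {k K : Type} [Field k] [Field K] [Algebra k K]

/-- The signs of an inertia element. -/
theorem t2_setup [CharZero k] {A : ValuationSubring k} [IsDiscreteValuationRing A]
    [Finite (ResidueField A)] {V : ValuationSubring (kb k K)} {f : k[X]} {c : k} {x y : K}
    {ι : Type} [Fintype ι] (D : Loc A V f c x y ι) (s : SEC.Sect k K)
    (τ : kb k K ≃ₐ[k] kb k K) (hτ : Iner V τ) :
    (∀ i, τ (D.r i) = D.r i) ∧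
    ∃ (o : ι) (S : ι → Mnr k K) (ε : ι → Bool), (∀ i, S i ≠ 0) ∧
      (∀ i, (S i : Om K) ^ 2 * (algebraMap K (Om K) x - (D.r o : Om K)) =
        algebraMap K (Om K) x - (D.r i : Om K)) ∧ ε o = true ∧
      (∀ i, s.toHom τ (S i) = if ε i then S i else -S i) ∧
      (¬ ∃ a b c, a ≠ o ∧ b ≠ c ∧ ε a = true ∧ ε b = false ∧ ε c = false) ∧
      ∀ φ : kb k K ≃ₐ[k] kb k K, Frob (Nat.card (ResidueField A)) V φ →
        ∃ π : ι → ι, (∀ i, φ (D.r i) = D.r (π i)) ∧ Function.Bijective π ∧
          ∀ i, ε (π i) = ε (π o) ↔ ε i = true := by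
  classical
  have hV := D.above
  have hV2 := D.two
  have hx := D.tr
  have hac : IsAlgClosed (kb k K) := kb_isAlgClosed
  have hgal : IsGalois k (kb k K) := kb_isGalois
  have hl0 : D.l ≠ 0 := by
    intro h
    have h1 := D.hl
    rw [h, map_zero, map_zero] at h1
    exact zero_ne_one h1
  have hrinj : Function.Injective D.r := by
    intro i j hij
    by_contra hne
    have h1 := D.dist i j hne
    rw [hij, sub_self, map_zero] at h1
    exact zero_ne_one h1
  have hp : ∀ (σ : kb k K ≃ₐ[k] kb k K) i, ∃ j, σ (D.r i) = D.r j :=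
    fun σ i => f_perm f D.l hl0 D.r D.fr σ i
  have hI : ∀ σ : kb k K ≃ₐ[k] kb k K, Iner V σ → ∀ i, σ (D.r i) = D.r i :=
    fun σ hσ i => f_iner_root D.r D.int D.dist hp σ hσ i
  refine ⟨hI τ hτ, ?_⟩
  have hne : Nonempty ι := Fintype.card_pos_iff.1 (by have := D.four; omega)
  let o : ι := Classical.choice hne
  obtain ⟨S, hSo, hS⟩ := exists_S f D.sep c D.c0 x y hx D.eq D.l D.r D.fr o
  have hsgn : ∀ i, s.toHom τ (S i) = S i ∨ s.toHom τ (S i) = -S i :=
    fun i => f_sign x hx s τ (D.r o) (D.r i) (hI τ hτ o) (hI τ hτ i) (S i) (hS i).2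
  let ε : ι → Bool := fun i => decide (s.toHom τ (S i) = S i)
  have hε : ∀ i, s.toHom τ (S i) = if ε i then S i else -S i := by
    intro i
    by_cases h : s.toHom τ (S i) = S i
    · simp [ε, h]
    · rcases hsgn i with h' | h'
      · exact absurd h' h
      · simp [ε, h']
  have ho : ε o = true := by
    simp only [ε, hSo, map_one, decide_true]
  obtain ⟨hqodd, hq2⟩ := card_odd hV hV2
  have hfro : ∀ φ : kb k K ≃ₐ[k] kb k K, Frob (Nat.card (ResidueField A)) V φ →
        ∃ π : ι → ι, (∀ i, φ (D.r i) = D.r (π i)) ∧ Function.Bijective π ∧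
          ∀ i, ε (π i) = ε (π o) ↔ ε i = true := by
    intro φ hφ
    choose π hπ using fun i => hp φ i
    have hπinj : Function.Injective π := by
      intro i j hij
      apply hrinj
      apply φ.injective
      rw [hπ, hπ, hij]
    have hπbij : Function.Bijective π := Finite.injective_iff_bijective.1 hπinj
    exact ⟨π, hπ, hπbij, fun i =>
      perm_sign hV hV2 s x hx D.r o hI S (fun i => (hS i).1) (fun i => (hS i).2) _ hqodd φ hφ π hπ
        τ hτ ε hε i⟩
  refine ⟨o, S, ε, fun i => (hS i).1, fun i => (hS i).2, ho, hε, ?_, hfro⟩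
  rintro ⟨a, b, d, hao, hbd, ha, hb', hd'⟩
  obtain ⟨φ, hφ⟩ := exists_frob (C := kb k K) hV
  obtain ⟨π, hπ, hπbij, hb⟩ := hfro φ hφ
  have hbo : b ≠ o := fun h => by rw [h, ho] at hb'; exact absurd hb' (by decide)
  have hdo : d ≠ o := fun h => by rw [h, ho] at hd'; exact absurd hd' (by decide)
  have hab : a ≠ b := fun h => by rw [h, hb'] at ha; exact absurd ha (by decide)
  have had : a ≠ d := fun h => by rw [h, hd'] at ha; exact absurd ha (by decide)
  let idx : Fin 4 → ι := ![o, a, b, d]
  have hidx : Function.Injective idx := by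
    intro i j hij
    fin_cases i <;> fin_cases j <;> simp_all [idx]
  let πe : Equiv.Perm ι := Equiv.ofBijective π hπbij
  obtain ⟨m, hm, hmπ⟩ : ∃ m, 0 < m ∧ ∀ i, π^[m] i = i := by
    refine ⟨orderOf πe, orderOf_pos πe, fun i => ?_⟩
    have h1 : (πe ^ orderOf πe) i = i := by rw [pow_orderOf_eq_one]; rfl
    have h3 : ∀ n : ℕ, (πe ^ n) i = π^[n] i := by
      intro n
      induction n with
      | zero => rfl
      | succ n ih => rw [pow_succ', Equiv.Perm.mul_apply, ih, Function.iterate_succ_apply']; rfl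
    rw [← h3]
    exact h1
  refine elliptic_step hV hV2 s x hx (fun i => D.r (idx i)) (fun i => D.int _)
    (fun i j hij => D.dist _ _ (fun h => hij (hidx h))) (fun σ hσ i => hI σ hσ _)
    (fun i => S (idx i)) (fun i => (hS _).2) _ hqodd hq2 φ hφ m hm
    (fun i => by rw [f_iter D.r φ π hπ, hmπ]) τ hτ ?_ ?_ ?_
  · have h1 := hε a
    rw [ha] at h1
    simpa [idx] using h1
  · have h1 := hε b
    rw [hb'] at h1
    simpa [idx] using h1
  · have h1 := hε d
    rw [hd'] at h1
    simpa [idx] using h1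

/-- `w = ± S i / S j`. -/
theorem t2_w {x : K} (hx : Transcendental k x) {ι : Type} (r : ι → kb k K) (o i j : ι)
    (S : ι → Mnr k K)
    (hS : ∀ i, (S i : Om K) ^ 2 * (algebraMap K (Om K) x - (r o : Om K)) =
      algebraMap K (Om K) x - (r i : Om K)) (w : Mnr k K)
    (hw : (w : Om K) ^ 2 * (algebraMap K (Om K) x - (r j : Om K)) =
      algebraMap K (Om K) x - (r i : Om K)) : S j * w = S i ∨ S j * w = -S i := by
  apply sq_eq_sq_iff_eq_or_eq_neg.1
  have h1 : algebraMap K (Om K) x - (r o : Om K) ≠ 0 := f_x_sub x hx (r o)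
  apply Subtype.ext
  have h2 : ((S j : Om K) * (w : Om K)) ^ 2 = (S i : Om K) ^ 2 := by
    apply mul_right_cancel₀ h1
    rw [hS i, mul_pow, mul_right_comm, hS j, mul_comm, hw]
  exact h2

theorem inert_triv [CharZero k] {A : ValuationSubring k} [IsDiscreteValuationRing A]
    [Finite (ResidueField A)] {V : ValuationSubring (kb k K)} {f : k[X]} {c : k} {x y : K}
    {ι : Type} [Fintype ι] (D : Loc A V f c x y ι) (s : SEC.Sect k K)
    (τ : kb k K ≃ₐ[k] kb k K) (hτ : Iner V τ) (z : kb k K)
    (hz : z ^ 2 = algebraMap k (kb k K) c) (hτz : τ z = z) (i j : ι) (w : Mnr k K)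
    (hw : (w : Om K) ^ 2 * (algebraMap K (Om K) x - (D.r j : Om K)) =
      algebraMap K (Om K) x - (D.r i : Om K)) : s.toHom τ w = w := by
  classical
  obtain ⟨hτr, o, S, ε, hS0, hS, ho, hε, hcc, -⟩ := t2_setup D s τ hτ
  have hev := parity_even D.two f c D.c0 x y D.tr D.eq D.even D.l D.hl D.r D.fr o S hS0 hS s τ hτ
    hτr z hz hτz ε hε
  have hall := comb_even D.four D.even o ε ho hev hcc
  have hS' : ∀ i, s.toHom τ (S i) = S i := fun i => by rw [hε i, if_pos (hall i)]
  have h1 : S j * s.toHom τ w = S j * w := by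
    rcases t2_w D.tr D.r o i j S hS w hw with h | h
    · have h2 := congrArg (s.toHom τ) h
      rw [map_mul, hS', hS'] at h2
      rw [h2, h]
    · have h2 := congrArg (s.toHom τ) h
      rw [map_mul, map_neg, hS', hS'] at h2
      rw [h2, h]
  exact mul_left_cancel₀ (hS0 j) h1

theorem inert_spec [CharZero k] {A : ValuationSubring k} [IsDiscreteValuationRing A]
    [Finite (ResidueField A)] {V : ValuationSubring (kb k K)} {f : k[X]} {c : k} {x y : K}
    {ι : Type} [Fintype ι] (D : Loc A V f c x y ι) (s : SEC.Sect k K)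
    (τ : kb k K ≃ₐ[k] kb k K) (hτ : Iner V τ) (z : kb k K)
    (hz : z ^ 2 = algebraMap k (kb k K) c) (hτz : τ z = -z) :
    ∃ j : ι, (∀ φ : kb k K ≃ₐ[k] kb k K, Frob (Nat.card (ResidueField A)) V φ →
        φ (D.r j) = D.r j) ∧
      ∀ (i : ι) (_ : i ≠ j) (w : Mnr k K),
        (w : Om K) ^ 2 * (algebraMap K (Om K) x - (D.r j : Om K)) =
          algebraMap K (Om K) x - (D.r i : Om K) → s.toHom τ w = -w := by
  classical
  obtain ⟨hτr, o, S, ε, hS0, hS, ho, hε, hcc, hfro⟩ := t2_setup D s τ hτ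
  have hodd := SC2.parity D.two f c D.c0 x y D.tr D.eq D.even D.l D.hl D.r D.fr o S hS0 hS s τ hτ
    hτr z hz hτz ε hε
  obtain ⟨j, hj, hjπ⟩ := comb_odd D.four D.even o ε ho hodd hcc
  refine ⟨j, ?_, ?_⟩
  · intro φ hφ
    obtain ⟨π, hπ, hπbij, hb⟩ := hfro φ hφ
    rw [hπ, hjπ π hπbij hb]
  · intro i hij w hw
    have hi := hj i hij
    have hsj := hε j
    have hsi := hε i
    rw [hi] at hsi
    have h1 : S j * s.toHom τ w = S j * -w := by
      rcases t2_w D.tr D.r o i j S hS w hw with h | h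
      · have h2 := congrArg (s.toHom τ) h
        rw [map_mul, hsi, hsj] at h2
        cases hej : ε j
        · rw [hej] at h2
          simp only [Bool.not_false, if_true, Bool.false_eq_true, if_false] at h2
          rw [neg_mul] at h2
          rw [mul_neg, h, ← h2, neg_neg]
        · rw [hej] at h2
          simp only [Bool.not_true, if_true, Bool.false_eq_true, if_false] at h2
          rw [mul_neg, h, h2]
      · have h2 := congrArg (s.toHom τ) h
        rw [map_mul, map_neg, hsi, hsj] at h2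
        cases hej : ε j
        · rw [hej] at h2
          simp only [Bool.not_false, if_true, Bool.false_eq_true, if_false] at h2
          rw [neg_mul, neg_inj] at h2
          rw [mul_neg, h, h2, neg_neg]
        · rw [hej] at h2
          simp only [Bool.not_true, if_true, Bool.false_eq_true, if_false] at h2
          rw [mul_neg, h, h2]
    exact mul_left_cancel₀ (hS0 j) h1

end SC3
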