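import Pool.Agent.MP_c1dca2_ag.SC3.Defs

/-!
# [SC3-T3] towers of division points and Frobenius

`tower_zero`: a tower of points of order a power of `2` on which Frobenius acts as `q` is zero.
If `R n ≠ 0` for some `n`, take the least such `n₀`; `R' n = R (n₀ + n)` satisfies `R' 0 ≠ 0`,
`R' 0 + R' 0 = 0`, `R' (n+1) + R' (n+1) = R' n`; the `R' n` are killed by powers of `2`, come from points over
`k^alg` (`t2_descend`, `act_iota`, `ecMap_injective`), and `no_frob` (SC2/R3.lean) gives a
contradiction, exactly as at the end of the proof of `SC2.tower_contra` (file SC2/B5.lean).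
-/

set_option autoImplicit false

open Polynomial IsLocalRing SEC SC2

namespace SC3

variable {k K : Type} [Field k] [Field K] [Algebra k K]

theorem tower_zero [CharZero k] {V : ValuationSubring (kb k K)} (s : SEC.Sect k K)
    {e : Fin 3 → kb k K} (hc : Cv e) (hc' : Cv (eM e)) (hV : GoodRed V e) (q : ℕ) (hq : Odd q)
    (hq2 : 2 ≤ q) (φ : kb k K ≃ₐ[k] kb k K) (hφ : Frob q V φ) (hφe : ∀ i, φ (e i) = e i)
    (R : ℕ → Pt (eM e)) (h0 : R 0 + R 0 = 0) (hR : ∀ n, R (n + 1) + R (n + 1) = R n)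
    (hF : ∀ n, act s hc' φ hφe (R n) = q • R n) (n : ℕ) : R n = 0 := by
  classical
  by_contra hcon
  have hex : ∃ n, R n ≠ 0 := ⟨n, hcon⟩
  set n₀ := Nat.find hex with hn₀
  have hne : R n₀ ≠ 0 := Nat.find_spec hex
  have hdouble : R n₀ + R n₀ = 0 := by
    rcases Nat.eq_zero_or_pos n₀ with h | h
    · rw [h]; exact h0
    · obtain ⟨m, hm⟩ := Nat.exists_eq_succ_of_ne_zero h.ne'
      have h1 : R m = 0 := by
        by_contra h2
        exact Nat.find_min hex (m := m) (by rw [← hn₀, hm]; exact Nat.lt_succ_self m) h2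
      rw [hm]
      change R (m + 1) + R (m + 1) = 0
      rw [hR, h1]
  have hT : ∀ i, R (n₀ + i) ∈ T2 (Pt (eM e)) :=
    r3_T2 (fun i => R (n₀ + i)) hdouble (fun i => hR (n₀ + i))
  choose R' hR't hR' using fun i => t2_descend hc hc' (R (n₀ + i)) (hT i)
  have hinj := ecMap_injective (iotaM (k := k) (K := K)) e (eM e) hc hc' (fun _ => rfl)
  refine no_frob hc hV q hq hq2 ((φ : kb k K ≃ₐ[k] kb k K) : kb k K →+* kb k K) hφ.frob hφe R'
    ?_ ?_ ?_ ?_
  · intro h3
    apply hne
    have h4 := hR' 0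
    rw [h3, map_zero] at h4
    exact h4.symm
  · apply hinj
    rw [map_add, map_zero, hR']
    exact hdouble
  · intro i
    apply hinj
    rw [map_add, hR', hR']
    exact hR (n₀ + i)
  · intro i
    apply hinj
    rw [map_nsmul, hR', ← hF (n₀ + i), ← act_iota s hc hc' φ hφe, hR']

end SC3
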