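import Pool.Agent.MP_c1dca2_ag.SC3.T3

/-!
# [SC3-T4] the sign of Frobenius on `α β`

Proof. `P = (X, Y)`; `act τ P = - P` (`s τ X = X`, `s τ Y = - Y`). Put `ε ∈ {1, -1}` with
`s φ Y = ε Y`, so `act φ P = ε P`. `Q 0` = the half of `P` given by `halve` (coordinates
`X + α β + β γ + γ α`, `(α + β) (β + γ) (γ + α)`), `Q (n+1)` a half of `Q n` (`exists_half`; `Q n ≠ 0`
because `P ≠ 0`).

Step 1. If `σ` is in the inertia group and `act σ P = P` then `act σ (Q n) = Q n` for all `n`: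
`R n = act σ (Q n) - Q n` satisfies `R 0 + R 0 = 0`, `R (n+1) + R (n+1) = R n`. `φ ^ 2` is a Frobenius
element for `q ^ 2` (`frob_pow`) and `act (φ ^ 2) P = P`, so `v_weight` (SC2/B4.lean) gives
`act (φ^2) (R n) = q^2 • R n` and `tower_zero` gives `R n = 0`.

Step 2. `w n = act τ (Q n) + Q n`. `w 0 = 0` (`s τ` changes the signs of `α, β, γ`, so it fixes the first
coordinate of `Q 0` and changes the sign of the second), `w (n+1) + w (n+1) = w n` (as `2 • Q (n+1) = Q n`),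
so `w n` is killed by `2^n` and `act τ (w n) = w n` (`act_t2`). `Q' n = Q n - w (n+1)`:
`act τ (Q' n) = (w n - Q n) - w (n+1) = - Q' n` and `2 • Q' (n+1) = Q' n`, `2 • Q' 0 = P`.

Step 3. `σ` in the inertia group with `act σ P = P` fixes `Q' n` (Step 1 and `act_t2`). Let
`τ' = φ τ φ⁻¹` (`Iner.conj`): `act τ' P = - P`, so `τ' τ⁻¹` fixes `P` and
`act τ' (Q' n) = - Q' n`. `Z n = act φ (Q' n) - ε • Q' n` is killed by `2^(n+1)`, so
`act τ' (Z n) = Z n`; but `act τ' (act φ (Q' n)) = act φ (act τ (Q' n)) = - act φ (Q' n)`, so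
`act τ' (Z n) = - Z n`: `2 • Z n = 0` for all `n`, and `Z n = 2 • Z (n+1) = 0`. So
`act φ (Q' 0) = ε • Q' 0`.

Step 4. `w 1` has order `2` or `1`: it is `0` or one of the points `(e i, 0)` (`two_torsion`), fixed by
`act φ` (`hφe`). So `act φ (Q 0) = act φ (Q' 0) + w 1 = ε • Q 0 - ε • w 1 + w 1 = ε • Q 0`. Hence the first
coordinate of `Q 0` is fixed by `s φ`: `s φ (α β + β γ + γ α) = α β + β γ + γ α` (`s φ X = X`). Let
`s φ α = ε₁ α` etc. If `ε₁ ε₂ = - 1` then exactly one of `ε₂ ε₃`, `ε₃ ε₁` is `- 1`, e.g. `ε₂ ε₃ = - 1`,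
`ε₁ ε₃ = 1`: `2 (α β + β γ) = 0`, `β (α + γ) = 0`, so `α² = γ²` (`β ≠ 0`), contradiction to
`e 0 ≠ e 2` (`α² - γ² = e 2 - e 0`). So `ε₁ ε₂ = 1`. (`β ≠ 0`, `γ ≠ 0` because `s τ Y = - Y ≠ Y`
needs `Y ≠ 0`; `hY0`.)
-/

set_option autoImplicit false

open Polynomial IsLocalRing SEC SC2

namespace SC3

variable {k K : Type} [Field k] [Field K] [Algebra k K]

/-- the action of an element equal to a product -/
theorem t4_mul (s : SEC.Sect k K) {e : Fin 3 → kb k K} (hc' : Cv (eM e))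
    (σ τ ρ : kb k K ≃ₐ[k] kb k K) (hσ : ∀ i, σ (e i) = e i) (hτ : ∀ i, τ (e i) = e i)
    (hρ : ∀ i, ρ (e i) = e i) (h : ρ = σ * τ) (P : Pt (eM e)) :
    act s hc' ρ hρ P = act s hc' σ hσ (act s hc' τ hτ P) := by
  subst h
  exact act_mul s hc' σ τ hσ hτ hρ P

theorem sign_step [CharZero k] {A : ValuationSubring k} [IsDiscreteValuationRing A]
    {V : ValuationSubring (kb k K)} (h : Above A V) (h2 : V.valuation 2 = 1) (s : SEC.Sect k K)
    {e : Fin 3 → kb k K} (hc : Cv e) (hV : GoodRed V e)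
    (hI : ∀ σ : kb k K ≃ₐ[k] kb k K, Iner V σ → ∀ i, σ (e i) = e i)
    (X Y α β γ : Mnr k K) (hXY : OnC (eM e) X Y) (hα : α ^ 2 = X - eM e 0)
    (hβ : β ^ 2 = X - eM e 1) (hγ : γ ^ 2 = X - eM e 2) (hY : α * β * γ = Y) (hY0 : Y ≠ 0)
    (hIX : ∀ σ : kb k K ≃ₐ[k] kb k K, Iner V σ → s.toHom σ X = X ∧
      (s.toHom σ Y = Y ∨ s.toHom σ Y = -Y))
    (q : ℕ) (hq : Odd q) (hq2 : 2 ≤ q) (φ : kb k K ≃ₐ[k] kb k K) (hφ : Frob q V φ)
    (hφe : ∀ i, φ (e i) = e i) (hφα : s.toHom φ α = α ∨ s.toHom φ α = -α)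
    (hφβ : s.toHom φ β = β ∨ s.toHom φ β = -β) (hφγ : s.toHom φ γ = γ ∨ s.toHom φ γ = -γ)
    (τ : kb k K ≃ₐ[k] kb k K) (hτ : Iner V τ) (hτα : s.toHom τ α = -α)
    (hτβ : s.toHom τ β = -β) (hτγ : s.toHom τ γ = -γ) :
    s.toHom φ (α * β) = α * β := by
  have hc' : Cv (eM e) := cv_eM hc.inj
  have he2 : (2 : Mnr k K) ≠ 0 := hc'.two
  obtain ⟨h0, hQ0⟩ := halve hc' X Y hXY α β γ hα hβ hγ hY
  set P : Pt (eM e) := aff hc' X Y hXY with hPdef
  choose half hhalf using b5_half (k := k) (K := K) hc.inj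
  let Q : ℕ → Pt (eM e) := fun n => half^[n] (aff hc' _ _ h0)
  have hQ0' : Q 0 = aff hc' _ _ h0 := rfl
  have hQs : ∀ n, Q (n + 1) + Q (n + 1) = Q n := by
    intro n
    simp only [Q, Function.iterate_succ_apply']
    exact hhalf _
  have hQP0 : Q 0 + Q 0 = P := hQ0
  have hQP : ∀ n, (2 ^ (n + 1)) • Q n = P := by
    intro n
    induction n with
    | zero => rw [zero_add, pow_one, two_nsmul, hQP0]
    | succ n ih => rw [pow_succ, mul_smul, two_nsmul, hQs, ih]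
  -- the action of `τ` and `φ` on `P`
  have hτe := hI τ hτ
  have hτX : s.toHom τ X = X := (hIX τ hτ).1
  have hτY : s.toHom τ Y = -Y := by
    rw [← hY, map_mul, map_mul, hτα, hτβ, hτγ]
    ring
  have hτP : act s hc' τ hτe P = -P := by
    obtain ⟨h', h1⟩ := b5_act_aff s hc' τ hτe X Y hXY
    rw [hPdef, h1, neg_aff, aff_inj]
    exact ⟨hτX, hτY⟩
  have hφsq : ∀ z : Mnr k K, s.toHom φ z = z ∨ s.toHom φ z = -z → s.toHom φ (z ^ 2) = z ^ 2 := by
    intro z hz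
    rw [map_pow]
    rcases hz with hz | hz <;> rw [hz]
    ring
  have hφe' : ∀ i, s.toHom φ (eM e i) = eM e i := fun i => s_eM s e φ hφe i
  have hφX : s.toHom φ X = X := by
    have h1 := hφsq α hφα
    rw [hα, map_sub, hφe'] at h1
    linear_combination h1
  have hφY : s.toHom φ Y = Y ∨ s.toHom φ Y = -Y := by
    rw [← hY, map_mul, map_mul]
    rcases hφα with h1 | h1 <;> rcases hφβ with h2 | h2 <;> rcases hφγ with h3 | h3 <;>
      rw [h1, h2, h3]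
    · left; ring
    · right; ring
    · right; ring
    · left; ring
    · right; ring
    · left; ring
    · left; ring
    · right; ring
  obtain ⟨ε, hε, hφP⟩ : ∃ ε : ℤ, (ε = 1 ∨ ε = -1) ∧ act s hc' φ hφe P = ε • P := by
    obtain ⟨h', h1⟩ := b5_act_aff s hc' φ hφe X Y hXY
    rcases hφY with h2 | h2
    · refine ⟨1, Or.inl rfl, ?_⟩
      rw [one_smul, hPdef, h1, aff_inj]
      exact ⟨hφX, h2⟩
    · refine ⟨-1, Or.inr rfl, ?_⟩
      rw [neg_smul, one_smul, hPdef, h1, neg_aff, aff_inj]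
      exact ⟨hφX, h2⟩
  have hεε : ∀ R : Pt (eM e), ε • ε • R = R := by
    intro R
    rw [smul_smul]
    rcases hε with h1 | h1 <;> rw [h1] <;> norm_num
  have hIP : ∀ σ (hσ : Iner V σ), act s hc' σ (hI σ hσ) P = P ∨
      act s hc' σ (hI σ hσ) P = -P := by
    intro σ hσ
    obtain ⟨h', h1⟩ := b5_act_aff s hc' σ (hI σ hσ) X Y hXY
    rw [hPdef, h1, neg_aff, aff_inj, aff_inj]
    obtain ⟨h3, h4⟩ := hIX σ hσ
    exact h4.imp (fun h4 => ⟨h3, h4⟩) (fun h4 => ⟨h3, h4⟩)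
  -- `φ ^ 2`
  have hφ2e : ∀ i, (φ ^ 2) (e i) = e i := by
    intro i
    rw [pow_two, AlgEquiv.mul_apply, hφe, hφe]
  have hφ2P : act s hc' (φ ^ 2) hφ2e P = P := by
    rw [t4_mul s hc' φ φ (φ ^ 2) hφe hφe hφ2e (pow_two φ), hφP, map_zsmul, hφP, hεε]
  have hφ2 : Frob (q ^ 2) V (φ ^ 2) := frob_pow hφ 2
  -- Step 1
  have hfix : ∀ σ (hσ : Iner V σ), act s hc' σ (hI σ hσ) P = P →
      ∀ n, act s hc' σ (hI σ hσ) (Q n) = Q n := by
    intro σ hσ hσP n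
    have h3 := tower_zero s hc hc' hV (q ^ 2) (hq.pow)
      (le_trans hq2 (Nat.le_self_pow two_ne_zero q)) (φ ^ 2) hφ2 hφ2e
      (fun n => act s hc' σ (hI σ hσ) (Q n) - Q n) ?_ ?_ ?_ n
    · exact sub_eq_zero.1 h3
    · have h3 : (act s hc' σ (hI σ hσ) (Q 0) - Q 0) + (act s hc' σ (hI σ hσ) (Q 0) - Q 0) =
          act s hc' σ (hI σ hσ) (Q 0 + Q 0) - (Q 0 + Q 0) := by
        rw [map_add]
        abel
      rw [h3, hQP0, hσP, sub_self]
    · intro n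
      have h3 : (act s hc' σ (hI σ hσ) (Q (n + 1)) - Q (n + 1)) +
          (act s hc' σ (hI σ hσ) (Q (n + 1)) - Q (n + 1)) =
          act s hc' σ (hI σ hσ) (Q (n + 1) + Q (n + 1)) - (Q (n + 1) + Q (n + 1)) := by
        rw [map_add]
        abel
      rw [h3, hQs]
    · intro n
      exact v_weight h h2 s hc hc' hV hI P hIP (q ^ 2) (φ ^ 2) hφ2 hφ2e hφ2P (n + 1) (Q n)
        (hQP n) σ hσ hσP
  -- Step 2
  let w : ℕ → Pt (eM e) := fun n => act s hc' τ hτe (Q n) + Q n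
  have hw : ∀ n, w n = act s hc' τ hτe (Q n) + Q n := fun n => rfl
  have hw0 : w 0 = 0 := by
    rw [hw, hQ0']
    obtain ⟨h', h1⟩ := b5_act_aff s hc' τ hτe _ _ h0
    have h3 : act s hc' τ hτe (aff hc' _ _ h0) = -(aff hc' _ _ h0) := by
      rw [h1, neg_aff, aff_inj]
      constructor
      · simp only [map_add, map_mul, hτX, hτα, hτβ, hτγ]
        ring
      · simp only [map_add, map_mul, hτα, hτβ, hτγ]
        ring
    rw [h3, neg_add_cancel]
  have hws : ∀ n, w (n + 1) + w (n + 1) = w n := by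
    intro n
    have h3 : w (n + 1) + w (n + 1) = act s hc' τ hτe (Q (n + 1) + Q (n + 1)) +
        (Q (n + 1) + Q (n + 1)) := by
      rw [hw, map_add]
      abel
    rw [h3, hQs]
  have hwt : ∀ n, w n ∈ T2 (Pt (eM e)) := by
    intro n
    refine ⟨n, ?_⟩
    induction n with
    | zero => rw [hw0, smul_zero]
    | succ n ih => rw [pow_succ, mul_smul, two_nsmul, hws, ih]
  have hwτ : ∀ n σ (hσ : Iner V σ), act s hc' σ (hI σ hσ) (w n) = w n := fun n σ hσ =>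
    act_t2 s hc hc' hV σ _ hσ (w n) (hwt n)
  let Q' : ℕ → Pt (eM e) := fun n => Q n - w (n + 1)
  have hQ'def : ∀ n, Q' n = Q n - w (n + 1) := fun n => rfl
  have hQ'τ : ∀ n, act s hc' τ hτe (Q' n) = -(Q' n) := by
    intro n
    have h3 : act s hc' τ hτe (Q n) = w n - Q n := by rw [hw]; abel
    rw [hQ'def, map_sub, h3, hwτ (n + 1) τ hτ, ← hws n]
    abel
  have hQ's : ∀ n, Q' (n + 1) + Q' (n + 1) = Q' n := by
    intro n
    have h3 : Q' (n + 1) + Q' (n + 1) = (Q (n + 1) + Q (n + 1)) -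
        (w (n + 1 + 1) + w (n + 1 + 1)) := by
      rw [hQ'def]
      abel
    rw [h3, hQs, hws]
  have hQ'P0 : Q' 0 + Q' 0 = P := by
    have h3 : Q' 0 + Q' 0 = (Q 0 + Q 0) - (w (0 + 1) + w (0 + 1)) := by
      rw [hQ'def]
      abel
    rw [h3, hQP0, hws, hw0, sub_zero]
  have hQ'P : ∀ n, (2 ^ (n + 1)) • Q' n = P := by
    intro n
    induction n with
    | zero => rw [zero_add, pow_one, two_nsmul, hQ'P0]
    | succ n ih => rw [pow_succ, mul_smul, two_nsmul, hQ's, ih]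
  -- Step 3
  have hfix' : ∀ σ (hσ : Iner V σ), act s hc' σ (hI σ hσ) P = P →
      ∀ n, act s hc' σ (hI σ hσ) (Q' n) = Q' n := by
    intro σ hσ hσP n
    rw [hQ'def, map_sub, hfix σ hσ hσP, hwτ (n + 1) σ hσ]
  have hτ' : Iner V (φ * τ * φ⁻¹) := hτ.conj hφ.stab
  have hφi := b4_inv_e hφe
  have hτi := b4_inv_e hτe
  have hτ'e := hI _ hτ'
  have hact' : ∀ R, act s hc' (φ * τ * φ⁻¹) hτ'e R =
      act s hc' φ hφe (act s hc' τ hτe (act s hc' φ⁻¹ hφi R)) := by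
    intro R
    rw [t4_mul s hc' (φ * τ) φ⁻¹ (φ * τ * φ⁻¹) (b4_mul_e hφe hτe) hφi hτ'e rfl,
      t4_mul s hc' φ τ (φ * τ) hφe hτe (b4_mul_e hφe hτe) rfl]
  have hφiP : act s hc' φ⁻¹ hφi P = ε • P := by
    have h3 : act s hc' φ⁻¹ hφi (ε • P) = P := by
      rw [← hφP]
      exact b4_act_inv' s hc' φ hφe P
    rw [map_zsmul] at h3
    rw [← hεε (act s hc' φ⁻¹ hφi P), h3]
  have hτ'P : act s hc' (φ * τ * φ⁻¹) hτ'e P = -P := by
    rw [hact', hφiP, map_zsmul, hτP, smul_neg, map_neg, map_zsmul, hφP, hεε]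
  have hρ : Iner V (φ * τ * φ⁻¹ * τ⁻¹) := hτ'.mul hτ.inv
  have hρact : ∀ R, act s hc' (φ * τ * φ⁻¹ * τ⁻¹) (hI _ hρ) R =
      act s hc' (φ * τ * φ⁻¹) hτ'e (act s hc' τ⁻¹ hτi R) := by
    intro R
    exact t4_mul s hc' (φ * τ * φ⁻¹) τ⁻¹ _ hτ'e hτi (hI _ hρ) rfl R
  have hτineg : ∀ R, act s hc' τ hτe R = -R → act s hc' τ⁻¹ hτi R = -R := by
    intro R hR
    have h3 := b4_act_inv' s hc' τ hτe R
    rw [hR, map_neg] at h3
    rw [← neg_neg (act s hc' τ⁻¹ hτi R), h3]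
  have hρP : act s hc' (φ * τ * φ⁻¹ * τ⁻¹) (hI _ hρ) P = P := by
    rw [hρact, hτineg P hτP, map_neg, hτ'P, neg_neg]
  have hτ'Q : ∀ n, act s hc' (φ * τ * φ⁻¹) hτ'e (Q' n) = -(Q' n) := by
    intro n
    have h3 := hfix' _ hρ hρP n
    rw [hρact, hτineg _ (hQ'τ n), map_neg] at h3
    rw [← neg_neg (act s hc' (φ * τ * φ⁻¹) hτ'e (Q' n)), h3]
  let Z : ℕ → Pt (eM e) := fun n => act s hc' φ hφe (Q' n) - ε • Q' n
  have hZdef : ∀ n, Z n = act s hc' φ hφe (Q' n) - ε • Q' n := fun n => rfl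
  have hZt : ∀ n, Z n ∈ T2 (Pt (eM e)) := by
    intro n
    refine ⟨n + 1, ?_⟩
    rw [hZdef, smul_sub, ← map_nsmul, hQ'P, hφP, smul_comm, hQ'P, sub_self]
  have hZs : ∀ n, Z (n + 1) + Z (n + 1) = Z n := by
    intro n
    have h3 : Z (n + 1) + Z (n + 1) = act s hc' φ hφe (Q' (n + 1) + Q' (n + 1)) -
        ε • (Q' (n + 1) + Q' (n + 1)) := by
      rw [hZdef, map_add, smul_add]
      abel
    rw [h3, hQ's]
  have hZ2 : ∀ n, Z n + Z n = 0 := by
    intro n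
    have h3 : act s hc' (φ * τ * φ⁻¹) hτ'e (Z n) = Z n :=
      act_t2 s hc hc' hV _ _ hτ' (Z n) (hZt n)
    have h4 : act s hc' (φ * τ * φ⁻¹) hτ'e (Z n) = -(Z n) := by
      rw [hZdef, map_sub, map_zsmul, hτ'Q, hact', b4_act_inv' s hc' φ hφe, hQ'τ, map_neg,
        smul_neg]
      abel
    rw [h3] at h4
    nth_rewrite 1 [h4]
    exact neg_add_cancel _
  have hZ0 : Z 0 = 0 := by rw [← hZs 0]; exact hZ2 1
  have hφQ' : act s hc' φ hφe (Q' 0) = ε • Q' 0 := sub_eq_zero.1 hZ0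
  -- Step 4
  have hw1 : w 1 + w 1 = 0 := by
    have h3 := hws 0
    rw [hw0] at h3
    exact h3
  have hφw : act s hc' φ hφe (w 1) = w 1 := by
    rcases two_torsion hc' (w 1) hw1 with h3 | ⟨i, hi, h3⟩
    · rw [h3, map_zero]
    · obtain ⟨h', h4⟩ := b5_act_aff s hc' φ hφe _ _ hi
      rw [h3, h4, aff_inj]
      exact ⟨hφe' i, map_zero _⟩
  have hεw : ε • w 1 = w 1 := by
    rcases hε with h3 | h3
    · rw [h3, one_smul]
    · rw [h3, neg_smul, one_smul]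
      exact (eq_neg_of_add_eq_zero_left hw1).symm
  have hφQ : act s hc' φ hφe (Q 0) = ε • Q 0 := by
    have h3 : Q 0 = Q' 0 + w 1 := by
      rw [hQ'def]
      abel
    rw [h3, map_add, hφQ', hφw, smul_add, hεw]
  have hx0 : s.toHom φ (X + α * β + β * γ + γ * α) = X + α * β + β * γ + γ * α := by
    obtain ⟨h', h1⟩ := b5_act_aff s hc' φ hφe _ _ h0
    rw [hQ0', h1] at hφQ
    rcases hε with h3 | h3
    · rw [h3, one_smul, aff_inj] at hφQ
      exact hφQ.1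
    · rw [h3, neg_smul, one_smul, neg_aff, aff_inj] at hφQ
      exact hφQ.1
  simp only [map_add, map_mul, hφX] at hx0
  have hα0 : α ≠ 0 := by
    rintro rfl
    apply hY0
    rw [← hY]
    ring
  have hβ0 : β ≠ 0 := by
    rintro rfl
    apply hY0
    rw [← hY]
    ring
  have hsum : ∀ (i j : Fin 3) (a b : Mnr k K), i ≠ j → a ^ 2 = X - eM e i → b ^ 2 = X - eM e j →
      a + b ≠ 0 := fun i j a b hij ha hb => e2_ne hc' hij ha hb
  have hAG : α + γ ≠ 0 := hsum 0 2 α γ (by decide) hα hγ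
  have hBG : β + γ ≠ 0 := hsum 1 2 β γ (by decide) hβ hγ
  rw [map_mul]
  rcases hφα with h1 | h1 <;> rcases hφβ with h3 | h3 <;> rcases hφγ with h4 | h4 <;>
    rw [h1, h3, h4] at hx0 <;> rw [h1, h3]
  · exfalso
    have h5 : 2 * (β * (α + γ)) = 0 := by linear_combination -hx0
    exact (mul_ne_zero he2 (mul_ne_zero hβ0 hAG)) h5
  · exfalso
    have h5 : 2 * (α * (β + γ)) = 0 := by linear_combination -hx0
    exact (mul_ne_zero he2 (mul_ne_zero hα0 hBG)) h5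
  · exfalso
    have h5 : 2 * (α * (β + γ)) = 0 := by linear_combination -hx0
    exact (mul_ne_zero he2 (mul_ne_zero hα0 hBG)) h5
  · exfalso
    have h5 : 2 * (β * (α + γ)) = 0 := by linear_combination -hx0
    exact (mul_ne_zero he2 (mul_ne_zero hβ0 hAG)) h5
  · ring
  · ring

end SC3
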