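import Pool.Agent.MP_c1dca2_ag.SC3.T4

/-!
# [SC3-T5] four roots

Proof (compare `SC2.elliptic_step`, file SC2/B6.lean). Put `e 0 = 0`,
`e 1 = (r 2 - r 1) / (r 2 - r 0)`, `e 2 = (r 3 - r 1) / (r 3 - r 0)`, `X = (S 1)²`
(`= (x - r 1) / (x - r 0)`); `X - e 1 = κ₂ (S 2)²`, `X - e 2 = κ₃ (S 3)²` with
`κ₂ = (r 1 - r 0) / (r 2 - r 0)`, `κ₃ = (r 1 - r 0) / (r 3 - r 0)`. Let `μ₂² = κ₂`, `μ₃² = κ₃` in
`k^alg`: fixed by the inertia group. `α = S 1`, `β = μ₂ S 2`, `γ = μ₃ S 3`, `Y = α β γ`. The signs of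
`s τ` on `α, β, γ` are `- 1`; `s φ` acts by signs (`φ` fixes the `r i` and `κ₂, κ₃`). `sign_step`:
`s φ (α β) = α β`, i.e. `s φ (S 1 S 2) · φ μ₂ = S 1 S 2 μ₂`, so (as `φ μ₂ = ± μ₂`)
`s φ (S 1 S 2) · μ₂ = S 1 S 2 · φ μ₂`. `(μ₂ (r 2 - r 0))² = (r 1 - r 0) (r 2 - r 0) = ρ²`, so
`ρ = ± μ₂ (r 2 - r 0)` and `φ ρ / ρ = φ μ₂ / μ₂` (`r 2 - r 0` is fixed by `φ`).
-/

set_option autoImplicit false

open Polynomial IsLocalRing SEC SC2

namespace SC3

variable {k K : Type} [Field k] [Field K] [Algebra k K]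

theorem four_roots [CharZero k] {A : ValuationSubring k} [IsDiscreteValuationRing A]
    {V : ValuationSubring (kb k K)} (h : Above A V) (h2 : V.valuation 2 = 1) (s : SEC.Sect k K)
    (x : K) (hx : Transcendental k x) (r : Fin 4 → kb k K) (hr : ∀ i, r i ∈ V)
    (hd : ∀ i j, i ≠ j → V.valuation (r i - r j) = 1)
    (hI : ∀ σ : kb k K ≃ₐ[k] kb k K, Iner V σ → ∀ i, σ (r i) = r i)
    (S : Fin 4 → Mnr k K)
    (hS : ∀ i, (S i : Om K) ^ 2 * (algebraMap K (Om K) x - (r 0 : Om K)) =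
      algebraMap K (Om K) x - (r i : Om K))
    (q : ℕ) (hq : Odd q) (hq2 : 2 ≤ q) (φ : kb k K ≃ₐ[k] kb k K) (hφ : Frob q V φ)
    (hφr : ∀ i, φ (r i) = r i)
    (τ : kb k K ≃ₐ[k] kb k K) (hτ : Iner V τ) (hτS : ∀ i, i ≠ 0 → s.toHom τ (S i) = -S i)
    (ρ : kb k K) (hρ : ρ ^ 2 = (r 1 - r 0) * (r 2 - r 0)) :
    (s.toHom φ (S 1 * S 2) : Om K) * (ρ : Om K) = (S 1 * S 2 : Mnr k K) * ((φ ρ : kb k K) : Om K) := by
  have hcl : IsAlgClosed (kb k K) := kb_isAlgClosed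
  -- `x` is not algebraic
  have hxr : ∀ i, algebraMap K (Om K) x ≠ (r i : Om K) := by
    intro i hi
    apply hx
    have h4 : IsAlgebraic k (r i : Om K) := (mem_algebraicClosure_iff).1 (r i).2
    rw [← hi] at h4
    exact (isAlgebraic_algebraMap_iff (algebraMap K (Om K)).injective).1 h4
  set ι : kb k K →+* Mnr k K := iotaM with hι
  set xM : Mnr k K := algebraMap K (Mnr k K) x with hxM
  have hS' : ∀ i, S i ^ 2 * (xM - ι (r 0)) = xM - ι (r i) := by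
    intro i
    apply Subtype.ext
    exact hS i
  have hD : ∀ i, xM - ι (r i) ≠ 0 := by
    intro i hi
    apply hxr i
    have h4 := congrArg (Subtype.val) (sub_eq_zero.1 hi)
    exact h4
  have hr0 : ∀ i j, i ≠ j → r i - r j ≠ 0 := by
    intro i j hij h4
    have h5 := hd i j hij
    rw [h4, map_zero] at h5
    exact zero_ne_one h5
  have hS0 : ∀ i, S i ≠ 0 := by
    intro i hi
    have h4 := hS' i
    rw [hi] at h4
    apply hD i
    rw [← h4]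
    ring
  -- the elements of the field of constants
  set e : Fin 3 → kb k K := ![0, (r 2 - r 1) / (r 2 - r 0), (r 3 - r 1) / (r 3 - r 0)] with hedef
  have he0 : e 0 = 0 := rfl
  have he1 : e 1 = (r 2 - r 1) / (r 2 - r 0) := rfl
  have he2 : e 2 = (r 3 - r 1) / (r 3 - r 0) := rfl
  have hv : ∀ i j i' j', i ≠ j → i' ≠ j' → V.valuation ((r i - r j) / (r i' - r j')) = 1 := by
    intro i j i' j' hij hij'
    rw [map_div₀, hd i j hij, hd i' j' hij', div_one]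
  have hvM : ∀ z, V.valuation z = 1 → z ∈ V := fun z hz => (V.valuation_le_one_iff z).1 hz.le
  have hr10 := hr0 1 0 (by decide)
  have hr20 := hr0 2 0 (by decide)
  have hr30 := hr0 3 0 (by decide)
  have he12 : V.valuation (e 1 - e 2) = 1 := by
    have h4 : e 1 - e 2 = (r 1 - r 0) / (r 2 - r 0) * ((r 2 - r 3) / (r 3 - r 0)) := by
      rw [he1, he2]
      field_simp
      ring
    rw [h4, map_mul, hv 1 0 2 0 (by decide) (by decide), hv 2 3 3 0 (by decide) (by decide),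
      one_mul]
  have he01 : V.valuation (e 0 - e 1) = 1 := by
    rw [he0, he1, zero_sub, Valuation.map_neg, hv 2 1 2 0 (by decide) (by decide)]
  have he02 : V.valuation (e 0 - e 2) = 1 := by
    rw [he0, he2, zero_sub, Valuation.map_neg, hv 3 1 3 0 (by decide) (by decide)]
  have hV : GoodRed V e := by
    refine ⟨h2, fun i => ?_, fun i j hij => ?_⟩
    · fin_cases i
      · exact V.zero_mem
      · exact hvM _ (hv 2 1 2 0 (by decide) (by decide))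
      · exact hvM _ (hv 3 1 3 0 (by decide) (by decide))
    · fin_cases i <;> fin_cases j
      · exact absurd rfl hij
      · exact he01
      · exact he02
      · rw [← Valuation.map_neg, neg_sub]; exact he01
      · exact absurd rfl hij
      · exact he12
      · rw [← Valuation.map_neg, neg_sub]; exact he02
      · rw [← Valuation.map_neg, neg_sub]; exact he12
      · exact absurd rfl hij
  have hc : Cv e := by
    refine ⟨?_, fun i j hij => ?_⟩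
    · intro h4
      rw [h4, map_zero] at h2
      exact zero_ne_one h2
    · by_contra hne
      have h4 := hV.diff i j hne
      rw [hij, sub_self, map_zero] at h4
      exact zero_ne_one h4
  obtain ⟨μ₂, hμ₂⟩ := IsAlgClosed.exists_pow_nat_eq ((r 1 - r 0) / (r 2 - r 0)) two_pos
  obtain ⟨μ₃, hμ₃⟩ := IsAlgClosed.exists_pow_nat_eq ((r 1 - r 0) / (r 3 - r 0)) two_pos
  have hμ₂0 : μ₂ ≠ 0 := by
    rintro rfl
    rw [zero_pow two_ne_zero] at hμ₂
    exact div_ne_zero hr10 hr20 hμ₂.symm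
  have hμ₃0 : μ₃ ≠ 0 := by
    rintro rfl
    rw [zero_pow two_ne_zero] at hμ₃
    exact div_ne_zero hr10 hr30 hμ₃.symm
  -- the sections fixing the `r i`
  have hfe : ∀ σ : kb k K ≃ₐ[k] kb k K, (∀ i, σ (r i) = r i) → ∀ i, σ (e i) = e i := by
    intro σ hσ i
    fin_cases i
    · exact map_zero _
    · change σ ((r 2 - r 1) / (r 2 - r 0)) = (r 2 - r 1) / (r 2 - r 0)
      simp only [map_div₀, map_sub, hσ]
    · change σ ((r 3 - r 1) / (r 3 - r 0)) = (r 3 - r 1) / (r 3 - r 0)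
      simp only [map_div₀, map_sub, hσ]
  have hXf : ∀ σ : kb k K ≃ₐ[k] kb k K, (∀ i, σ (r i) = r i) → ∀ i,
      s.toHom σ (S i ^ 2) = S i ^ 2 := by
    intro σ hσ i
    refine mul_right_cancel₀ (hD 0) ?_
    have h4 := congrArg (s.toHom σ) (hS' i)
    rw [map_mul, map_sub, map_sub, hι, b6_split, b6_split, hσ, hσ, hxM, AlgEquiv.commutes] at h4
    rw [hS' i]
    exact h4
  have hβ : (ι μ₂ * S 2) ^ 2 = S 1 ^ 2 - eM e 1 := by
    refine b6_alg xM (ι (r 0)) (ι (r 1)) (ι (r 2)) (S 1) (S 2) (ι μ₂)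
      (ι ((r 1 - r 0) / (r 2 - r 0))) (eM e 1) (hD 0) ?_ (hS' 1) (hS' 2) ?_ ?_ ?_
    · rw [← map_sub]
      exact (_root_.map_ne_zero _).2 hr20
    · rw [← map_sub, ← map_mul, div_mul_cancel₀ _ hr20, map_sub]
    · have h4 : eM e 1 = ι (e 1) := rfl
      rw [h4, ← map_sub, ← map_mul, he1, div_mul_cancel₀ _ hr20, map_sub]
    · rw [← map_pow, hμ₂]
  have hγ : (ι μ₃ * S 3) ^ 2 = S 1 ^ 2 - eM e 2 := by
    refine b6_alg xM (ι (r 0)) (ι (r 1)) (ι (r 3)) (S 1) (S 3) (ι μ₃)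
      (ι ((r 1 - r 0) / (r 3 - r 0))) (eM e 2) (hD 0) ?_ (hS' 1) (hS' 3) ?_ ?_ ?_
    · rw [← map_sub]
      exact (_root_.map_ne_zero _).2 hr30
    · rw [← map_sub, ← map_mul, div_mul_cancel₀ _ hr30, map_sub]
    · have h4 : eM e 2 = ι (e 2) := rfl
      rw [h4, ← map_sub, ← map_mul, he2, div_mul_cancel₀ _ hr30, map_sub]
    · rw [← map_pow, hμ₃]
  have hα : (S 1) ^ 2 = S 1 ^ 2 - eM e 0 := by
    have h4 : eM e 0 = 0 := Subtype.ext rfl
    rw [h4, sub_zero]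
  set Y : Mnr k K := S 1 * (ι μ₂ * S 2) * (ι μ₃ * S 3) with hYdef
  have hXY : OnC (eM e) (S 1 ^ 2) Y := by
    rw [OnC, hYdef, mul_pow, mul_pow, hβ, hγ]
    nth_rewrite 1 [hα]
    rfl
  have hei : ∀ σ : kb k K ≃ₐ[k] kb k K, (∀ i, σ (r i) = r i) → ∀ i,
      s.toHom σ (eM e i) = eM e i := by
    intro σ hσ i
    have h4 : eM e i = ι (e i) := rfl
    rw [h4, hι, b6_split, hfe σ hσ]
  have hYf : ∀ σ : kb k K ≃ₐ[k] kb k K, (∀ i, σ (r i) = r i) →
      s.toHom σ Y = Y ∨ s.toHom σ Y = -Y := by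
    intro σ hσ
    apply sq_eq_sq_iff_eq_or_eq_neg.1
    rw [← map_pow, hXY, map_mul, map_mul, map_sub, map_sub, map_sub, hXf σ hσ, hei σ hσ,
      hei σ hσ, hei σ hσ]
  have hY0 : Y ≠ 0 := by
    have h4 : ι μ₂ ≠ 0 := (_root_.map_ne_zero _).2 hμ₂0
    have h5 : ι μ₃ ≠ 0 := (_root_.map_ne_zero _).2 hμ₃0
    exact mul_ne_zero (mul_ne_zero (hS0 1) (mul_ne_zero h4 (hS0 2))) (mul_ne_zero h5 (hS0 3))
  have hkey := sign_step h h2 s hc hV (fun σ hσ => hfe σ (hI σ hσ)) (S 1 ^ 2) Y (S 1)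
    (ι μ₂ * S 2) (ι μ₃ * S 3) hXY hα hβ hγ rfl hY0
    (fun σ hσ => ⟨hXf σ (hI σ hσ) 1, hYf σ (hI σ hσ)⟩) q hq hq2 φ hφ (hfe φ hφr)
    (sq_eq_sq_iff_eq_or_eq_neg.1 (by rw [← map_pow, hXf φ hφr]))
    (sq_eq_sq_iff_eq_or_eq_neg.1 (by rw [← map_pow, hβ, map_sub, hXf φ hφr, hei φ hφr]))
    (sq_eq_sq_iff_eq_or_eq_neg.1 (by rw [← map_pow, hγ, map_sub, hXf φ hφr, hei φ hφr]))
    τ hτ (hτS 1 (by decide))
    (by
      rw [map_mul, hτS 2 (by decide), hι, b6_split, b6_mu h2 μ₂ _ hμ₂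
        (hv 1 0 2 0 (by decide) (by decide)) τ hτ (by simp only [map_div₀, map_sub, hI τ hτ])]
      ring)
    (by
      rw [map_mul, hτS 3 (by decide), hι, b6_split, b6_mu h2 μ₃ _ hμ₃
        (hv 1 0 3 0 (by decide) (by decide)) τ hτ (by simp only [map_div₀, map_sub, hI τ hτ])]
      ring)
  -- the sign of `φ` on `μ₂`
  have hφμ : φ μ₂ = μ₂ ∨ φ μ₂ = -μ₂ := by
    apply sq_eq_sq_iff_eq_or_eq_neg.1
    rw [← map_pow, hμ₂]
    simp only [map_div₀, map_sub, hφr]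
  have hιφ : s.toHom φ (ι μ₂) = ι (φ μ₂) := b6_split s φ μ₂
  have hk2 : s.toHom φ (S 1 * S 2) * ι μ₂ = S 1 * S 2 * ι (φ μ₂) := by
    have h4 : s.toHom φ (S 1 * S 2) * ι (φ μ₂) = S 1 * S 2 * ι μ₂ := by
      rw [← hιφ, ← map_mul]
      calc s.toHom φ (S 1 * S 2 * ι μ₂) = s.toHom φ (S 1 * (ι μ₂ * S 2)) := by
            congr 1
            ring
        _ = S 1 * (ι μ₂ * S 2) := hkey
        _ = S 1 * S 2 * ι μ₂ := by ring
    rcases hφμ with h5 | h5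
    · rw [h5] at h4 ⊢
      exact h4
    · rw [h5, map_neg] at h4 ⊢
      linear_combination -h4
  have hρt : ρ = μ₂ * (r 2 - r 0) ∨ ρ = -(μ₂ * (r 2 - r 0)) := by
    apply sq_eq_sq_iff_eq_or_eq_neg.1
    rw [hρ, mul_pow, hμ₂]
    field_simp
  have hφt : φ (μ₂ * (r 2 - r 0)) = φ μ₂ * (r 2 - r 0) := by
    rw [map_mul, map_sub, hφr, hφr]
  have hgoal : s.toHom φ (S 1 * S 2) * ι ρ = S 1 * S 2 * ι (φ ρ) := by
    rcases hρt with h4 | h4
    · rw [h4, hφt, map_mul ι, map_mul ι]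
      linear_combination (ι (r 2 - r 0)) * hk2
    · rw [h4, map_neg φ, hφt, map_neg ι, map_neg ι, map_mul ι, map_mul ι]
      linear_combination -(ι (r 2 - r 0)) * hk2
  exact congrArg Subtype.val hgoal

end SC3
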