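import Pool.Agent.MP_c1dca2_ag.SC3.T2
import Pool.Agent.MP_c1dca2_ag.SC3.T5

/-!
# [SC3-T6] the sign of Frobenius on `√g(x)`

`D` = local data, `j` the special index of the inertia element `τ` (`hj`), `φ` a Frobenius element
which fixes `r j`; `ψ = φ ^ m` with `m` odd fixes the roots `r i`, `i ∈ G`; `j ∉ G`; `g` is the polynomial
with the roots `r i`, `i ∈ G` and leading coefficient `lg`.

Proof. `ψ` is a Frobenius element for `q ^ m` (`frob_pow`), fixes `r j`. Let `S i`
be square roots of `(x - r i)/(x - r j)` in `M` (`SC2.exists_S` with base point `j`, `S j = 1`),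
`s τ (S i) = - S i` for `i ≠ j` by `hj`. Choose `t i ∈ k^alg` with `t i ^ 2 = r i - r j`. For
`i ≠ i'` in `G` pick `i''` in `G` different from both (`4 ≤ #G`) and apply `four_roots` to
`r j, r i, r i', r i''` and `ψ`, `ρ = t i * t i'`:
`s ψ (S i S i') · t i t i' = S i S i' · ψ (t i t i')`. `s ψ (S i) = σ_i S i`, `ψ (t i) = θ_i t i` with signs
`σ_i, θ_i = ± 1` (`f_sign`; `(t i)²` is fixed by `ψ`), so `σ_i σ_i' = θ_i θ_i'` for `i ≠ i'` in `G`: `σ_i θ_i` does not
depend on `i ∈ G`, and as `#G` is even `∏_G σ_i = ∏_G θ_i`. Finally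
`u² = g(x) = lg ∏_G (x - r i) = lg (x - r j)^#G ∏_G (S i)²`, so
`u = ± λ (x - r j)^(#G/2) ∏_G S i` with `λ² = lg` in `k^alg` (`λ ∈ M`, `s ψ λ = ψ λ`), and
`γ² = g(r j) = lg ∏_G (r j - r i) = lg ∏_G (r i - r j)`, `γ = ± λ ∏_G t i`. So
`s ψ u / u = (ψ λ/λ) ∏ σ_i = (ψ λ/λ) ∏ θ_i = ψ γ / γ`.
-/

set_option autoImplicit false

open Polynomial IsLocalRing SEC SC2

namespace SC3

variable {k K : Type} [Field k] [Field K] [Algebra k K]

/-- signs: pairwise products agree, even number, so the products agree -/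
theorem T6_signs {L ι : Type} [Field L] [DecidableEq ι] (G : Finset ι) (hG : Even G.card)
    (ε θ : ι → L) (hε : ∀ i ∈ G, ε i = 1 ∨ ε i = -1) (hθ : ∀ i ∈ G, θ i = 1 ∨ θ i = -1)
    (h : ∀ i ∈ G, ∀ i' ∈ G, i ≠ i' → ε i * ε i' = θ i * θ i') :
    ∏ i ∈ G, ε i = ∏ i ∈ G, θ i := by
  rcases G.eq_empty_or_nonempty with rfl | ⟨o, ho⟩
  · simp
  have hε2 : ∀ i ∈ G, ε i * ε i = 1 := by
    intro i hi
    rcases hε i hi with h | h <;> rw [h] <;> ring
  have hθ2 : ∀ i ∈ G, θ i * θ i = 1 := by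
    intro i hi
    rcases hθ i hi with h | h <;> rw [h] <;> ring
  have hδ : ∀ i ∈ G, ε i = (ε o * θ o) * θ i := by
    intro i hi
    by_cases hio : i = o
    · rw [hio, mul_assoc, hθ2 o ho, mul_one]
    · have h1 := h i hi o ho hio
      calc ε i = ε i * (ε o * ε o) := by rw [hε2 o ho, mul_one]
        _ = (ε i * ε o) * ε o := by ring
        _ = (ε o * θ o) * θ i := by rw [h1]; ring
  rw [Finset.prod_congr rfl hδ, Finset.prod_mul_distrib, Finset.prod_const]
  obtain ⟨n, hn⟩ := hG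
  have h2 : (ε o * θ o) ^ G.card = 1 := by
    have h3 : (ε o * θ o) * (ε o * θ o) = 1 := by
      calc (ε o * θ o) * (ε o * θ o) = (ε o * ε o) * (θ o * θ o) := by ring
        _ = 1 := by rw [hε2 o ho, hθ2 o ho, mul_one]
    rw [hn, ← two_mul, pow_mul, pow_two, h3, one_pow]
  rw [h2, one_mul]

theorem sign_sqrt [CharZero k] {A : ValuationSubring k} [IsDiscreteValuationRing A]
    [Finite (ResidueField A)] {V : ValuationSubring (kb k K)} {f : k[X]} {c : k} {x y : K}
    {ι : Type} [Fintype ι] [DecidableEq ι] (D : Loc A V f c x y ι) (s : SEC.Sect k K)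
    (τ : kb k K ≃ₐ[k] kb k K) (hτ : Iner V τ) (j : ι)
    (hj : ∀ (i : ι) (_ : i ≠ j) (w : Mnr k K),
        (w : Om K) ^ 2 * (algebraMap K (Om K) x - (D.r j : Om K)) =
          algebraMap K (Om K) x - (D.r i : Om K) → s.toHom τ w = -w)
    (φ : kb k K ≃ₐ[k] kb k K) (hφ : Frob (Nat.card (ResidueField A)) V φ)
    (hφj : φ (D.r j) = D.r j) (m : ℕ) (hm : 0 < m) (G : Finset ι) (hjG : j ∉ G)
    (hG : Even G.card) (hG4 : 4 ≤ G.card) (hφG : ∀ i ∈ G, (φ ^ m) (D.r i) = D.r i)
    (g : k[X]) (lg : k) (hg : g.map (algebraMap k (kb k K)) =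
      C (algebraMap k (kb k K) lg) * ∏ i ∈ G, (X - C (D.r i)))
    (u : Mnr k K) (hu : (u : Om K) ^ 2 = algebraMap K (Om K) (aeval x g))
    (γ : kb k K) (hγ : γ ^ 2 = aeval (D.r j) g) :
    (s.toHom (φ ^ m) u : Om K) * (γ : Om K) = (u : Om K) * (((φ ^ m) γ : kb k K) : Om K) := by
  have hac : IsAlgClosed (kb k K) := kb_isAlgClosed
  set ψ := φ ^ m with hψ
  obtain ⟨S, hSj, hS⟩ := exists_S f D.sep c D.c0 x y D.tr D.eq D.l D.r D.fr j
  have hl0 : D.l ≠ 0 := by
    intro h
    have h1 := D.hl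
    rw [h, map_zero, map_zero] at h1
    exact zero_ne_one h1
  have hrinj : Function.Injective D.r := by
    intro a b hab
    by_contra hne
    have h1 := D.dist a b hne
    rw [hab, sub_self, map_zero] at h1
    exact zero_ne_one h1
  have hp : ∀ (σ : kb k K ≃ₐ[k] kb k K) i, ∃ j, σ (D.r i) = D.r j :=
    fun σ i => f_perm f D.l hl0 D.r D.fr σ i
  have hI : ∀ σ : kb k K ≃ₐ[k] kb k K, Iner V σ → ∀ i, σ (D.r i) = D.r i :=
    fun σ hσ i => f_iner_root D.r D.int D.dist hp σ hσ i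
  obtain ⟨hqodd, hq2⟩ := card_odd D.above D.two
  have hψF : Frob (Nat.card (ResidueField A) ^ m) V ψ := frob_pow hφ m
  have hqm : Odd (Nat.card (ResidueField A) ^ m) := hqodd.pow
  have hqm2 : 2 ≤ Nat.card (ResidueField A) ^ m := hq2.trans (Nat.le_self_pow hm.ne' _)
  have hψj : ψ (D.r j) = D.r j := by
    have h1 : ∀ n : ℕ, (φ ^ n) (D.r j) = D.r j := by
      intro n
      induction n with
      | zero => rfl
      | succ n ih => rw [pow_succ, AlgEquiv.mul_apply, hφj, ih]
    exact h1 m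
  clear_value ψ
  -- signs on `S i`
  have hεex : ∀ i, ∃ e : Om K, i ∈ G → (e = 1 ∨ e = -1) ∧
      (s.toHom ψ (S i) : Om K) = e * (S i : Om K) := by
    intro i
    by_cases hi : i ∈ G
    · rcases f_sign x D.tr s ψ (D.r j) (D.r i) hψj (hφG i hi) (S i) (hS i).2 with h | h
      · exact ⟨1, fun _ => ⟨Or.inl rfl, by rw [h, one_mul]⟩⟩
      · refine ⟨-1, fun _ => ⟨Or.inr rfl, ?_⟩⟩
        rw [h]
        push_cast
        ring
    · exact ⟨1, fun h => absurd h hi⟩
  choose ε hε using hεex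
  -- the `t i`
  have htex : ∀ i, ∃ t : kb k K, t ^ 2 = D.r i - D.r j := fun i =>
    IsAlgClosed.exists_pow_nat_eq (D.r i - D.r j) (n := 2) (by norm_num)
  choose t ht using htex
  have hθex : ∀ i, ∃ e : Om K, i ∈ G → (e = 1 ∨ e = -1) ∧
      ((ψ (t i) : kb k K) : Om K) = e * (t i : Om K) := by
    intro i
    by_cases hi : i ∈ G
    · have h1 : (ψ (t i)) ^ 2 = (t i) ^ 2 := by
        rw [← map_pow, ht, map_sub, hφG i hi, hψj]
      rcases sq_eq_sq_iff_eq_or_eq_neg.1 h1 with h | h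
      · exact ⟨1, fun _ => ⟨Or.inl rfl, by rw [h, one_mul]⟩⟩
      · refine ⟨-1, fun _ => ⟨Or.inr rfl, ?_⟩⟩
        rw [h]
        push_cast
        ring
    · exact ⟨1, fun h => absurd h hi⟩
  choose θ hθ using hθex
  have hSne : ∀ i, (S i : Om K) ≠ 0 := by
    intro i h
    exact (hS i).1 (Subtype.ext h)
  have htne : ∀ i ∈ G, (t i : Om K) ≠ 0 := by
    intro i hi h
    have h1 : t i = 0 := Subtype.ext h
    have h2 := ht i
    rw [h1, zero_pow two_ne_zero] at h2
    have h3 : D.r i = D.r j := (sub_eq_zero.1 h2.symm)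
    have h4 := hrinj h3
    exact hjG (h4 ▸ hi)
  have hpair : ∀ i ∈ G, ∀ i' ∈ G, i ≠ i' → ε i * ε i' = θ i * θ i' := by
    intro i hi i' hi' hne
    obtain ⟨i'', hi'', hne1, hne2⟩ : ∃ i'' ∈ G, i'' ≠ i ∧ i'' ≠ i' := by
      by_contra hcon
      push Not at hcon
      have h1 : G ⊆ {i, i'} := by
        intro a ha
        by_cases h2 : a = i
        · rw [h2]; simp
        · rw [hcon a ha h2]; simp
      have h3 := Finset.card_le_card h1
      have h4 : ({i, i'} : Finset ι).card ≤ 2 := Finset.card_le_two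
      omega
    have hij : i ≠ j := fun h => hjG (h ▸ hi)
    have hi'j : i' ≠ j := fun h => hjG (h ▸ hi')
    have hi''j : i'' ≠ j := fun h => hjG (h ▸ hi'')
    let idx : Fin 4 → ι := ![j, i, i', i'']
    have hidx : Function.Injective idx := by
      intro a b hab
      fin_cases a <;> fin_cases b <;> simp_all [idx]
    have h0 := four_roots D.above D.two s x D.tr (fun a => D.r (idx a)) (fun a => D.int _)
      (fun a b hab => D.dist _ _ (fun h => hab (hidx h))) (fun σ hσ a => hI σ hσ _)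
      (fun a => S (idx a)) (fun a => (hS _).2) _ hqm hqm2 ψ hψF
      (fun a => by
        fin_cases a
        · exact hψj
        · exact hφG i hi
        · exact hφG i' hi'
        · exact hφG i'' hi'') τ hτ
      (fun a ha => hj (idx a) (fun h => ha (hidx h)) (S (idx a)) (hS _).2)
      (t i * t i') (by
        rw [mul_pow, ht, ht]
        rfl)
    have h1 : (s.toHom ψ (S i * S i') : Om K) * ((t i * t i' : kb k K) : Om K) =
        (S i * S i' : Mnr k K) * ((ψ (t i * t i') : kb k K) : Om K) := h0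
    rw [map_mul, map_mul] at h1
    push_cast at h1
    rw [(hε i hi).2, (hε i' hi').2, (hθ i hi).2, (hθ i' hi').2] at h1
    have h2 : (S i : Om K) * (S i' : Om K) * (t i : Om K) * (t i' : Om K) ≠ 0 :=
      mul_ne_zero (mul_ne_zero (mul_ne_zero (hSne i) (hSne i')) (htne i hi)) (htne i' hi')
    apply mul_right_cancel₀ h2
    linear_combination h1
  have hprod := T6_signs G hG ε θ (fun i hi => (hε i hi).1) (fun i hi => (hθ i hi).1) hpair
  -- the square roots
  obtain ⟨la, hla⟩ := IsAlgClosed.exists_pow_nat_eq (algebraMap k (kb k K) lg) (n := 2)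
    (by norm_num)
  obtain ⟨n, hn⟩ := hG
  set xj : Om K := algebraMap K (Om K) x - (D.r j : Om K) with hxj
  have hgx : algebraMap K (Om K) (aeval x g) =
      (((algebraMap k (kb k K) lg : kb k K)) : Om K) *
        ∏ i ∈ G, (algebraMap K (Om K) x - (D.r i : Om K)) := by
    have h1 : algebraMap K (Om K) (aeval x g) = aeval (algebraMap K (Om K) x)
        (g.map (algebraMap k (kb k K))) := by
      rw [aeval_map_algebraMap, aeval_algebraMap_apply]
    rw [h1, hg, map_mul, aeval_C, map_prod]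
    congr 1
    apply Finset.prod_congr rfl
    intro i _
    rw [map_sub, aeval_X, aeval_C]
    rfl
  have hprodS : ∏ i ∈ G, (algebraMap K (Om K) x - (D.r i : Om K)) =
      (xj ^ n * ∏ i ∈ G, (S i : Om K)) ^ 2 := by
    have h1 : ∀ i ∈ G, algebraMap K (Om K) x - (D.r i : Om K) = (S i : Om K) ^ 2 * xj :=
      fun i _ => (hS i).2.symm
    rw [Finset.prod_congr rfl h1, Finset.prod_mul_distrib, Finset.prod_const, Finset.prod_pow, hn]
    ring
  have hu2 : (u : Om K) ^ 2 = ((la : Om K) * (xj ^ n * ∏ i ∈ G, (S i : Om K))) ^ 2 := by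
    rw [hu, hgx, hprodS, mul_pow (la : Om K)]
    congr 1
    rw [← hla]
    push_cast
    rfl
  let xM : Mnr k K := algebraMap K (Mnr k K) x - ⟨(D.r j : Om K), kb_le _ (D.r j).2⟩
  have hxM : (xM : Om K) = xj := rfl
  let laM : Mnr k K := ⟨(la : Om K), kb_le _ la.2⟩
  have hlaM : (laM : Om K) = la := rfl
  have hsx : (s.toHom ψ xM : Om K) = xj := f_sect_x x s ψ (D.r j) hψj xM rfl
  have hsla : (s.toHom ψ laM : Om K) = ((ψ la : kb k K) : Om K) := s.split ψ la (kb_le _ la.2)
  let W : Mnr k K := laM * (xM ^ n * ∏ i ∈ G, S i)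
  have hW : (W : Om K) = (la : Om K) * (xj ^ n * ∏ i ∈ G, (S i : Om K)) := by
    simp only [W]
    push_cast
    rw [hlaM, hxM]
  have hsW : (s.toHom ψ W : Om K) = ((ψ la : kb k K) : Om K) *
      (xj ^ n * ((∏ i ∈ G, ε i) * ∏ i ∈ G, (S i : Om K))) := by
    simp only [W]
    rw [map_mul, map_mul, map_pow, map_prod]
    push_cast
    rw [hsla, hsx, ← Finset.prod_mul_distrib]
    congr 2
    exact Finset.prod_congr rfl fun i hi => (hε i hi).2
  have huW : u = W ∨ u = -W := by
    have h1 : u ^ 2 = W ^ 2 := by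
      apply Subtype.ext
      push_cast
      rw [hW, hu2]
    exact sq_eq_sq_iff_eq_or_eq_neg.1 h1
  -- gamma
  have hgr : aeval (D.r j) g = algebraMap k (kb k K) lg * ∏ i ∈ G, (D.r i - D.r j) := by
    have h1 : aeval (D.r j) g = (g.map (algebraMap k (kb k K))).eval (D.r j) := by
      rw [eval_map_algebraMap]
    rw [h1, hg, eval_mul, eval_C, eval_prod]
    congr 1
    have h2 : ∀ i ∈ G, eval (D.r j) (X - C (D.r i)) = (-1) * (D.r i - D.r j) := by
      intro i _
      rw [eval_sub, eval_X, eval_C]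
      ring
    rw [Finset.prod_congr rfl h2, Finset.prod_mul_distrib, Finset.prod_const, hn, ← two_mul,
      pow_mul]
    norm_num
  have hγ2 : γ ^ 2 = (la * ∏ i ∈ G, t i) ^ 2 := by
    rw [hγ, hgr, mul_pow, hla, ← Finset.prod_pow]
    congr 1
    exact Finset.prod_congr rfl fun i _ => (ht i).symm
  have hψt : ((ψ (la * ∏ i ∈ G, t i) : kb k K) : Om K) = ((ψ la : kb k K) : Om K) *
      ((∏ i ∈ G, θ i) * ∏ i ∈ G, (t i : Om K)) := by
    rw [map_mul, map_prod]
    push_cast
    rw [← Finset.prod_mul_distrib]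
    congr 1
    exact Finset.prod_congr rfl fun i hi => (hθ i hi).2
  have hmain : (s.toHom ψ W : Om K) * ((la * ∏ i ∈ G, t i : kb k K) : Om K) =
      (W : Om K) * ((ψ (la * ∏ i ∈ G, t i) : kb k K) : Om K) := by
    rw [hsW, hψt, hW, hprod]
    push_cast
    ring
  rcases huW with h1 | h1 <;> rcases sq_eq_sq_iff_eq_or_eq_neg.1 hγ2 with h2 | h2
  · rw [h1, h2]; exact hmain
  · rw [h1, h2, map_neg]
    push_cast at hmain ⊢
    linear_combination -hmain
  · rw [h1, h2, map_neg]
    push_cast at hmain ⊢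
    linear_combination -hmain
  · rw [h1, h2, map_neg, map_neg]
    push_cast at hmain ⊢
    linear_combination hmain

end SC3
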