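import Pool.Agent.MP_c1dca2_ag.SC3.T0
import Pool.Agent.MP_c1dca2_ag.SC3.T6

/-!
# [SC3-T7] the class of a section

Proof. `exists_delta` (SEC/M6.lean, with `f = g * h`, the divisor `g`) gives `u, δ, d` with
`u² = g(x)`, `δ² = d`, `s σ u · δ = u · σ δ` for all `σ`. Let `A` be good, `V` above `A`; `D` from
`loc_exists`, `G` from `roots_of_factor` (`f = g * h`; `#G = natDegree g` even, `≥ 4`); `z² = c`
in `k^alg`; inertia fixes the roots (`f_iner_root`). Any `τ` in the inertia group satisfies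
`τ z = ± z`.

(a) `τ z = z`: `inert_triv` for all `S i` (base point any `j`, `exists_S`), `u_formula` (and
`s τ (x - r j) = x - r j`, `f_sect_x`): `s τ u = u`, so `τ δ = δ`.
(b) `τ z = - z`: `inert_spec` gives `j`, `φ (r j) = r j`. With base point `j` (`exists_S`):
`s τ (S i) = - S i` for `i ≠ j`, `S j = 1`. If `j ∉ G` then `s τ u = (-1)^#G u = u` and `τ δ = δ`; if `j ∈ G`
then `s τ u = (-1)^(#G - 1) u = - u` and `τ δ = - δ`.

`Out.even`: `EvA A c` implies `τ z = z` for all `τ` (`ev_fix`), so all `τ` fix `δ` by (a); if `d` were not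
even, `exists_tau` (SC2/A5.lean) would give `τ` with `τ δ = - δ ≠ δ`.
`Out.odd`: `exists_tau` for `c` gives `τ` with `τ z = - z`; `j` is not a root of `h` (it is fixed by `φ`),
so `j ∈ G` (`(g h)(r j) = 0`), `τ δ = - δ`, so `d` is not even (`ev_fix`).
`Out.sign`: no `j` with `φ (r j) = r j` is in `G`, so by (a), (b) all `τ` in the inertia group fix `δ`, and `d`
is even (`exists_tau`). Let `m` be odd, `φ^m` the identity on the roots of `g`. Take `τ` with
`τ z = - z` (`exists_tau` for `c`), `j` from `inert_spec`; `r = r j` is a root of `h`, `φ r = r`.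
`sign_sqrt` (with `lg = 1`): `s (φ^m) u · γ = u · φ^m γ`; also `s (φ^m) u · δ = u · φ^m δ`; hence
`φ^m δ · γ = δ · φ^m γ` (`u ≠ 0`). `φ δ = ± δ`, `φ γ = ± γ` (`γ² = g(r)` is fixed by `φ`) and `m` is odd, so
`φ^m` acts on `δ`, `γ` by the same signs as `φ`: `φ δ · γ = δ · φ γ` (if `γ = 0` or `δ = 0` trivial).
-/

set_option autoImplicit false

open Polynomial IsLocalRing SEC SC2

namespace SC3

/-- signs of odd powers -/
theorem t7_pow {k C : Type} [Field k] [Field C] [Algebra k C] (φ : C ≃ₐ[k] C) (w : C)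
    (h : φ w = w ∨ φ w = -w) (m : ℕ) (hm : Odd m) : (φ ^ m) w = φ w := by
  rcases h with h | h
  · have h1 : ∀ n : ℕ, (φ ^ n) w = w := by
      intro n
      induction n with
      | zero => simp
      | succ n ih => rw [pow_succ', AlgEquiv.mul_apply, ih, h]
    rw [h1, h]
  · have h1 : ∀ n : ℕ, (φ ^ n) w = (-1) ^ n * w := by
      intro n
      induction n with
      | zero => simp
      | succ n ih =>
        rw [pow_succ', AlgEquiv.mul_apply, ih, map_mul, map_pow, map_neg, map_one, h, pow_succ]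
        ring
    rw [h1, hm.neg_one_pow, h]
    ring

/-- square roots of elements of `k` -/
theorem t7_sign {C : Type} [Field C] (a b : C) (h : a ^ 2 = b ^ 2) : a = b ∨ a = -b :=
  sq_eq_sq_iff_eq_or_eq_neg.1 h

variable {k K : Type} [Field k] [Field K] [Algebra k K]

/-- the action on `u` through the signs on the `S i` -/
theorem t7_action [CharZero k] {A : ValuationSubring k} {V : ValuationSubring (kb k K)} {f : k[X]}
    {c : k} {x y : K} {ι : Type} [Fintype ι] [DecidableEq ι] (D : Loc A V f c x y ι) (j : ι)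
    (S : ι → Mnr k K)
    (hS : ∀ i, (S i : Om K) ^ 2 * (algebraMap K (Om K) x - (D.r j : Om K)) =
      algebraMap K (Om K) x - (D.r i : Om K)) (G : Finset ι) (hG : Even G.card) (g : k[X])
    (hg : g.map (algebraMap k (kb k K)) = ∏ i ∈ G, (X - C (D.r i))) (u : Mnr k K)
    (hu : (u : Om K) ^ 2 = algebraMap K (Om K) (aeval x g)) (s : SEC.Sect k K)
    (τ : kb k K ≃ₐ[k] kb k K) (hτj : τ (D.r j) = D.r j) (σ : ι → Mnr k K)
    (hσ : ∀ i ∈ G, s.toHom τ (S i) = σ i * S i) :
    s.toHom τ u = (∏ i ∈ G, σ i) * u := by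
  obtain ⟨ε, hε, he⟩ := u_formula D j S hS G hG g hg u hu
  let w : Mnr k K := algebraMap K (Mnr k K) x - ⟨(D.r j : Om K), kb_le _ (D.r j).2⟩
  have hw : (w : Om K) = algebraMap K (Om K) x - (D.r j : Om K) := rfl
  have hsw : s.toHom τ w = w := Subtype.ext ((f_sect_x x s τ (D.r j) hτj w hw).trans hw.symm)
  have key : ∀ η : Mnr k K, (η = 1 ∨ η = -1) → u = η * w ^ (G.card / 2) * ∏ i ∈ G, S i →
      s.toHom τ u = (∏ i ∈ G, σ i) * u := by
    intro η hη h1
    have hsη : s.toHom τ η = η := by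
      rcases hη with h | h <;> rw [h] <;> simp
    rw [h1, map_mul, map_mul, map_pow, hsw, hsη, map_prod, Finset.prod_congr rfl hσ,
      Finset.prod_mul_distrib]
    ring
  rcases hε with h | h
  · refine key 1 (Or.inl rfl) (Subtype.ext ?_)
    rw [he, h]
    simp only [MulMemClass.coe_mul, SubmonoidClass.coe_finsetProd, SubmonoidClass.coe_pow,
      OneMemClass.coe_one, hw]
  · refine key (-1) (Or.inr rfl) (Subtype.ext ?_)
    rw [he, h]
    simp only [MulMemClass.coe_mul, SubmonoidClass.coe_finsetProd, SubmonoidClass.coe_pow,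
      NegMemClass.coe_neg, OneMemClass.coe_one, hw]

theorem t7_prod_sign {M ι : Type} [CommRing M] [DecidableEq ι] (G : Finset ι) (hG : Even G.card)
    (j : ι) : (∏ i ∈ G, (if i = j then (1 : M) else -1)) = if j ∈ G then -1 else 1 := by
  by_cases hj : j ∈ G
  · rw [if_pos hj, ← Finset.mul_prod_erase G _ hj, if_pos rfl, one_mul]
    have h1 : ∏ i ∈ G.erase j, (if i = j then (1 : M) else -1) = ∏ i ∈ G.erase j, (-1 : M) := by
      refine Finset.prod_congr rfl fun i hi => ?_
      rw [if_neg (Finset.ne_of_mem_erase hi)]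
    rw [h1, Finset.prod_const, Finset.card_erase_of_mem hj]
    have h2 : 0 < G.card := Finset.card_pos.2 ⟨j, hj⟩
    have h3 : Odd (G.card - 1) := by
      obtain ⟨m, hm⟩ := hG
      exact ⟨m - 1, by omega⟩
    exact h3.neg_one_pow
  · rw [if_neg hj]
    have h1 : ∏ i ∈ G, (if i = j then (1 : M) else -1) = ∏ i ∈ G, (-1 : M) := by
      refine Finset.prod_congr rfl fun i hi => ?_
      rw [if_neg (fun h : i = j => hj (h ▸ hi))]
    rw [h1, Finset.prod_const, hG.neg_one_pow]

theorem out_of_sect {k K : Type} [Field k] [CharZero k] [Field K] [Algebra k K] (g h : k[X])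
    (hg : g.Monic) (hh : h.Monic) (hsep : (g * h).Separable) (hge : Even g.natDegree)
    (hhe : Even h.natDegree) (hg4 : 4 ≤ g.natDegree) (c : k) (hc : c ≠ 0) (x y : K)
    (hx : Transcendental k x) (hxy : y ^ 2 = algebraMap k K c * aeval x (g * h))
    (s : SEC.Sect k K) :
    ∃ d : k, d ≠ 0 ∧ ∀ A : ValuationSubring k, GoodAt A (g * h) →
      ∀ V : ValuationSubring (kb k K), Above A V → Out A V c g h d := by
  classical
  obtain ⟨u, δ, d, hu0, hδ0, hd0, hu, hδ, hk⟩ := exists_delta (g * h) hsep c hc x y hx hxy s g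
    (dvd_mul_right g h) hge
  refine ⟨d, hd0, fun A hA V hV => ?_⟩
  have hdvr := hA.dvr
  have hfin := hA.fin
  have hac : IsAlgClosed (kb k K) := kb_isAlgClosed
  have hgal : IsGalois k (kb k K) := kb_isGalois
  have hV2 : V.valuation 2 = 1 := f_two hV hA.two
  have hnd : (g * h).natDegree = g.natDegree + h.natDegree := hg.natDegree_mul hh
  obtain ⟨n, ⟨D⟩⟩ := loc_exists (g * h) hA hV (by rw [hnd]; exact hge.add hhe)
    (by rw [hnd]; omega) c hc x y hx hxy
  have hl0 : D.l ≠ 0 := by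
    intro h0
    have := D.hl
    rw [h0, map_zero, map_zero] at this
    exact zero_ne_one this
  have hrinj : Function.Injective D.r := by
    intro i j hij
    by_contra hne
    have h1 := D.dist i j hne
    rw [hij, sub_self, map_zero] at h1
    exact zero_ne_one h1
  obtain ⟨G, hGmem, hGmap, hGcard⟩ := roots_of_factor g h hg D.l D.r hrinj hl0 D.fr
  have hGe : Even G.card := by rw [hGcard]; exact hge
  have hG4 : 4 ≤ G.card := by rw [hGcard]; exact hg4
  have hp : ∀ (σ : kb k K ≃ₐ[k] kb k K) i, ∃ j, σ (D.r i) = D.r j :=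
    fun σ i => f_perm (g * h) D.l hl0 D.r D.fr σ i
  have hI : ∀ σ : kb k K ≃ₐ[k] kb k K, Iner V σ → ∀ i, σ (D.r i) = D.r i :=
    fun σ hσ i => f_iner_root D.r D.int D.dist hp σ hσ i
  obtain ⟨z, hz⟩ := IsAlgClosed.exists_pow_nat_eq (algebraMap k (kb k K) c) (n := 2)
    (by norm_num)
  have hzs : ∀ τ : kb k K ≃ₐ[k] kb k K, τ z = z ∨ τ z = -z := by
    intro τ
    apply t7_sign
    rw [← map_pow, hz, AlgEquiv.commutes]
  have hδs : ∀ τ : kb k K ≃ₐ[k] kb k K, τ δ = δ ∨ τ δ = -δ := by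
    intro τ
    apply t7_sign
    rw [← map_pow, hδ, AlgEquiv.commutes]
  have hδne : δ ≠ -δ := by
    intro h1
    have h2 : 2 * δ = 0 := by linear_combination h1
    have h3 : (2 : kb k K) ≠ 0 := by
      intro h4
      rw [h4, map_zero] at hV2
      exact zero_ne_one hV2
    exact (mul_ne_zero h3 hδ0) h2
  have huO : (u : Om K) ≠ 0 := fun h0 => hu0 (Subtype.ext h0)
  -- from `s τ u` to `τ δ`
  have hfix : ∀ τ : kb k K ≃ₐ[k] kb k K, s.toHom τ u = u → τ δ = δ := by
    intro τ h1
    have h2 := hk τ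
    rw [h1] at h2
    exact (Subtype.ext (mul_left_cancel₀ huO h2)).symm
  have hneg : ∀ τ : kb k K ≃ₐ[k] kb k K, s.toHom τ u = -u → τ δ = -δ := by
    intro τ h1
    have h2 := hk τ
    rw [h1, NegMemClass.coe_neg, neg_mul, ← mul_neg] at h2
    exact (Subtype.ext (mul_left_cancel₀ huO h2)).symm
  have hn : 4 ≤ Fintype.card (Fin n) := D.four
  rw [Fintype.card_fin] at hn
  -- (a)
  have ha : ∀ τ : kb k K ≃ₐ[k] kb k K, Iner V τ → τ z = z → τ δ = δ := by
    intro τ hτ hτz
    let j : Fin n := ⟨0, by omega⟩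
    obtain ⟨S, hSj, hS⟩ := exists_S (g * h) hsep c hc x y hx hxy D.l D.r D.fr j
    apply hfix
    have h1 := t7_action D j S (fun i => (hS i).2) G hGe g hGmap u hu s τ (hI τ hτ j)
      (fun _ => 1) (by
        intro i _
        rw [one_mul]
        exact inert_triv D s τ hτ z hz hτz i j (S i) (hS i).2)
    rw [h1]
    simp
  -- (b)
  have hb : ∀ τ : kb k K ≃ₐ[k] kb k K, Iner V τ → τ z = -z → ∃ j : Fin n,
      (∀ φ : kb k K ≃ₐ[k] kb k K, Frob (Nat.card (ResidueField A)) V φ →
        φ (D.r j) = D.r j) ∧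
      (∀ (i : Fin n) (_ : i ≠ j) (w : Mnr k K),
        (w : Om K) ^ 2 * (algebraMap K (Om K) x - (D.r j : Om K)) =
          algebraMap K (Om K) x - (D.r i : Om K) → s.toHom τ w = -w) ∧
      (j ∉ G → τ δ = δ) ∧ (j ∈ G → τ δ = -δ) := by
    intro τ hτ hτz
    obtain ⟨j, hj1, hj2⟩ := inert_spec D s τ hτ z hz hτz
    obtain ⟨S, hSj, hS⟩ := exists_S (g * h) hsep c hc x y hx hxy D.l D.r D.fr j
    have h1 := t7_action D j S (fun i => (hS i).2) G hGe g hGmap u hu s τ (hI τ hτ j)
      (fun i => if i = j then 1 else -1) (by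
        intro i _
        by_cases hij : i = j
        · rw [if_pos hij, one_mul, hij, hSj, map_one]
        · rw [if_neg hij, hj2 i hij (S i) (hS i).2, neg_one_mul])
    rw [t7_prod_sign G hGe j] at h1
    refine ⟨j, hj1, hj2, ?_, ?_⟩
    · intro hjG
      rw [if_neg hjG, one_mul] at h1
      exact hfix τ h1
    · intro hjG
      rw [if_pos hjG, neg_one_mul] at h1
      exact hneg τ h1
  have hroot : ∀ j : Fin n, aeval (D.r j) g = 0 ∨ aeval (D.r j) h = 0 := by
    intro j
    have h0 : ((g * h).map (algebraMap k (kb k K))).eval (D.r j) = 0 := by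
      rw [D.fr, eval_mul, eval_prod, Finset.prod_eq_zero (Finset.mem_univ j), mul_zero]
      rw [eval_sub, eval_X, eval_C, sub_self]
    rw [eval_map_algebraMap, map_mul, mul_eq_zero] at h0
    exact h0
  have hnev : ∀ e : k, ¬ EvA A e → ∀ b : k, A.valuation e ≠ A.valuation b ^ 2 :=
    fun e he b hb => he ⟨b, hb⟩
  refine ⟨?_, ?_, ?_⟩
  · -- even
    intro hev
    by_contra hd
    obtain ⟨τ, hτ, hτδ⟩ := exists_tau hV hV2 d (hnev d hd) δ hδ
    have h1 := ha τ hτ (ev_fix hV hV2 c hev z hz τ hτ)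
    rw [h1] at hτδ
    exact hδne hτδ
  · -- odd
    intro hcn φ hφ hhφ hd
    obtain ⟨τ, hτ, hτz⟩ := exists_tau hV hV2 c (hnev c hcn) z hz
    obtain ⟨j, hj1, hj2, hj3, hj4⟩ := hb τ hτ hτz
    have h1 : aeval (D.r j) g = 0 := by
      rcases hroot j with h1 | h1
      · exact h1
      · exact absurd (hj1 φ hφ) (hhφ _ h1)
    have h2 := hj4 ((hGmem j).2 h1)
    rw [ev_fix hV hV2 d hd δ hδ τ hτ] at h2
    exact hδne h2
  · -- sign
    intro hcn φ hφ hgφ
    have hjG : ∀ j : Fin n, φ (D.r j) = D.r j → j ∉ G := by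
      intro j hj hjG
      exact hgφ _ ((hGmem j).1 hjG) hj
    refine ⟨?_, ?_⟩
    · by_contra hd
      obtain ⟨τ, hτ, hτδ⟩ := exists_tau hV hV2 d (hnev d hd) δ hδ
      have h1 : τ δ = δ := by
        rcases hzs τ with h1 | h1
        · exact ha τ hτ h1
        · obtain ⟨j, hj1, hj2, hj3, hj4⟩ := hb τ hτ h1
          exact hj3 (hjG j (hj1 φ hφ))
      rw [h1] at hτδ
      exact hδne hτδ
    · intro m hm hmg
      obtain ⟨τ, hτ, hτz⟩ := exists_tau hV hV2 c (hnev c hcn) z hz
      obtain ⟨j, hj1, hj2, hj3, hj4⟩ := hb τ hτ hτz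
      have hφj := hj1 φ hφ
      have hjn := hjG j hφj
      have hrh : aeval (D.r j) h = 0 := by
        rcases hroot j with h1 | h1
        · exact absurd ((hGmem j).2 h1) hjn
        · exact h1
      refine ⟨D.r j, hrh, hφj, ?_⟩
      intro γ δ' hγ hδ'
      have hm0 : 0 < m := hm.pos
      have h1 := sign_sqrt D s τ hτ j hj2 φ hφ hφj m hm0 G hjn hGe hG4
        (fun i hi => hmg _ ((hGmem i).1 hi)) g 1 (by rw [map_one, C_1, one_mul]; exact hGmap)
        u hu γ hγ
      have h2 := hk (φ ^ m)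
      have hφγ : φ γ = γ ∨ φ γ = -γ := by
        apply t7_sign
        have h3 : aeval (φ (D.r j)) g = φ (aeval (D.r j) g) :=
          aeval_algHom_apply φ.toAlgHom (D.r j) g
        rw [← map_pow, hγ, ← h3, hφj]
      have h4 : (φ ^ m) δ * γ = δ * (φ ^ m) γ := by
        apply Subtype.ext
        apply mul_left_cancel₀ huO
        simp only [MulMemClass.coe_mul]
        calc (u : Om K) * ((((φ ^ m) δ : kb k K) : Om K) * (γ : Om K))
            = ((u : Om K) * (((φ ^ m) δ : kb k K) : Om K)) * (γ : Om K) := by ring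
          _ = ((s.toHom (φ ^ m) u : Om K) * (δ : Om K)) * (γ : Om K) := by rw [h2]
          _ = ((s.toHom (φ ^ m) u : Om K) * (γ : Om K)) * (δ : Om K) := by ring
          _ = ((u : Om K) * (((φ ^ m) γ : kb k K) : Om K)) * (δ : Om K) := by rw [h1]
          _ = (u : Om K) * ((δ : Om K) * (((φ ^ m) γ : kb k K) : Om K)) := by ring
      rw [t7_pow φ δ (hδs φ) m hm, t7_pow φ γ hφγ m hm] at h4
      have h5 : δ' = δ ∨ δ' = -δ := by
        apply t7_sign
        rw [hδ', hδ]
      rcases h5 with h5 | h5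
      · rw [h5]
        exact h4
      · rw [h5, map_neg, neg_mul, neg_mul, h4]

end SC3
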