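import Mathlib

/-!
# [SC3-X1] cubics with group `S_3` over every number field

`finite_ram`: only finitely many prime numbers `r` are ramified in `k`, i.e. lie in `P^2` for a
prime ideal `P` of `𝓞 k`: if `r ∈ P^2` then `P^2 ∣ (r)`, the ramification index of `P` is at least
`2`, so `P` divides the different ideal (`differentIdeal ℤ (𝓞 k) ≠ ⊥`), which has finitely many
prime factors, each containing only one prime number. (See `Mathlib/RingTheory/DedekindDomain/
Different.lean`, `pow_sub_one_dvd_differentIdeal`, `not_dvd_differentIdeal_iff`, or use the discriminant.)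

`exists_cubic`: let `B` be a bound for the ramified primes. Choose a prime `l > B`, `l > 3` and by
Dirichlet's theorem (`Nat.forall_exists_prime_gt_and_eq_mod` or
`Nat.forall_exists_prime_gt_and_modEq`) a prime
`r > B`, `r > 7`, with `4 r ≡ 27 + l (mod l^2)` (`r ≡ (27 + l)/4` is prime to `l` since `l ≠ 3`).
Then `l` divides `4 r - 27` exactly once. If `4 r - 27 = w^2` with `w ∈ k` then `w ∈ 𝓞 k`; for a prime
`P ∋ l` of `𝓞 k`: `w² ∈ P`, `w ∈ P`, `w² ∈ P²`; `4 r - 27 = l m` with `l ∤ m`, so `m ∉ P` and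
`l ∈ P²` (`P²` is primary / localize; or `v_P(l) = v_P(l m) = 2 v_P(w)` is even but `v_P(l) = 1`):
contradiction. `X^3 - r X - r` is Eisenstein at a prime `P ∋ r` of `𝓞 k` (`r ∈ P`, `r ∉ P^2`):
irreducible over `𝓞 k`, hence over `k` (`Polynomial.irreducible_of_eisenstein_criterion`,
`Polynomial.Monic.irreducible_iff_irreducible_map_fraction_map`).
-/

set_option autoImplicit false

open Polynomial NumberField

namespace SC3

theorem finite_ram (k : Type) [Field k] [NumberField k] :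
    ∃ B : ℕ, ∀ r : ℕ, r.Prime → B < r → ∀ P : Ideal (𝓞 k), P.IsPrime →
      (r : 𝓞 k) ∈ P → (r : 𝓞 k) ∉ P ^ 2 := by
  refine ⟨(discr k).natAbs, fun r hr hB P hP hrP hrP2 => ?_⟩
  have hrz : Prime (r : ℤ) := Nat.prime_iff_prime_int.1 hr
  have hnd : ¬ (r : ℤ) ∣ discr k := by
    intro h
    have h1 := Int.natAbs_dvd_natAbs.2 h
    have h2 : 0 < (discr k).natAbs := Int.natAbs_pos.2 (discr_ne_zero k)
    have h3 := Nat.le_of_dvd h2 h1
    simp only [Int.natAbs_natCast] at h3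
    omega
  have hrP' : (((r : ℤ) : ℤ) : 𝓞 k) ∈ P := by exact_mod_cast hrP
  have hun := (not_dvd_discr_iff_forall_mem k (𝓞 k) hrz).1 hnd P hP hrP'
  have hlo : P.LiesOver (Ideal.span {(r : ℤ)}) := (Ideal.liesOver_span_iff hP.ne_top hrz).mpr hrP'
  have h1 := P.ramificationIdx_eq_one ℤ
  have hne : Ideal.span {(r : ℤ)} ≠ ⊥ := by
    rw [Ne, Ideal.span_singleton_eq_bot]
    exact hrz.ne_zero
  have h2 := Ideal.ramificationIdx'_eq_ramificationIdx (Ideal.span {(r : ℤ)}) P hne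
  have hmap : ∀ Q : Ideal (𝓞 k), (r : 𝓞 k) ∈ Q →
      Ideal.map (algebraMap ℤ (𝓞 k)) (Ideal.span {(r : ℤ)}) ≤ Q := by
    intro Q hQ
    rw [Ideal.map_span, Set.image_singleton, Ideal.span_le, Set.singleton_subset_iff]
    simpa using hQ
  have h4 := (Ideal.ramificationIdx'_ne_one_iff (hmap P hrP)).2 (hmap _ hrP2)
  exact h4 (h2.trans h1)

theorem x1_exists_above (k : Type) [Field k] [NumberField k] (l : ℕ) (hl : l.Prime) :
    ∃ P : Ideal (𝓞 k), P.IsMaximal ∧ (l : 𝓞 k) ∈ P := by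
  have hlz : Prime (l : ℤ) := Nat.prime_iff_prime_int.1 hl
  have hm : (Ideal.span {(l : ℤ)}).IsMaximal :=
    PrincipalIdealRing.isMaximal_of_irreducible hlz.irreducible
  obtain ⟨P, hP, hlo⟩ := Ideal.exists_maximal_ideal_liesOver_of_isIntegral (S := 𝓞 k)
    (Ideal.span {(l : ℤ)})
  refine ⟨P, hP, ?_⟩
  have h1 := (Ideal.liesOver_span_iff hP.ne_top hlz).mp hlo
  exact_mod_cast h1

theorem x1_irred (k : Type) [Field k] [NumberField k] (r : ℕ) (P : Ideal (𝓞 k)) (hP : P.IsPrime)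
    (h1 : (r : 𝓞 k) ∈ P) (h2 : (r : 𝓞 k) ∉ P ^ 2) :
    Irreducible (X ^ 3 - C (r : k) * X - C (r : k) : k[X]) := by
  set F : (𝓞 k)[X] := X ^ 3 - C (r : 𝓞 k) * X - C (r : 𝓞 k) with hF
  have hdeg : F.natDegree = 3 := by
    rw [hF]
    compute_degree!
  have hmon : F.Monic := by
    rw [hF]
    monicity!
  have hE : F.IsEisensteinAt P := by
    refine ⟨?_, ?_, ?_⟩
    · rw [hmon.leadingCoeff]
      exact fun h => hP.ne_top ((Ideal.eq_top_iff_one _).2 h)
    · intro n hn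
      rw [hdeg] at hn
      have h3 : n = 0 ∨ n = 1 ∨ n = 2 := by omega
      rcases h3 with rfl | rfl | rfl
      · have : F.coeff 0 = -(r : 𝓞 k) := by simp [hF, coeff_X_pow, coeff_X]
        rw [this]
        exact P.neg_mem h1
      · have : F.coeff 1 = -(r : 𝓞 k) := by simp [hF, coeff_X_pow, coeff_C]
        rw [this]
        exact P.neg_mem h1
      · have : F.coeff 2 = 0 := by simp [hF, coeff_X_pow, coeff_X, coeff_C]
        rw [this]
        exact P.zero_mem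
    · have : F.coeff 0 = -(r : 𝓞 k) := by simp [hF, coeff_X_pow, coeff_X]
      rw [this]
      intro h
      exact h2 (by simpa using (P ^ 2).neg_mem h)
  have hirr : Irreducible F := hE.irreducible hP hmon.isPrimitive (by rw [hdeg]; norm_num)
  have h3 := (hmon.irreducible_iff_irreducible_map_fraction_map (K := k)).1 hirr
  have h4 : Polynomial.map (algebraMap (𝓞 k) k) F = X ^ 3 - C (r : k) * X - C (r : k) := by
    simp [hF]
  rwa [h4] at h3

theorem x1_not_square (k : Type) [Field k] [NumberField k] (r l : ℕ) (hl : l.Prime)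
    (P : Ideal (𝓞 k)) (hP : P.IsMaximal) (h1 : (l : 𝓞 k) ∈ P) (h2 : (l : 𝓞 k) ∉ P ^ 2) (s : ℤ)
    (hs : 4 * (r : ℤ) - 27 = l * (1 + l * s)) : ¬ IsSquare (4 * (r : k) - 27) := by
  rintro ⟨w, hw⟩
  have hws : w ^ 2 = (((4 * (r : ℤ) - 27 : ℤ)) : k) := by
    push_cast
    rw [hw, sq]
  have hint : IsIntegral ℤ w := by
    refine ⟨X ^ 2 - C (4 * (r : ℤ) - 27), monic_X_pow_sub_C _ two_ne_zero, ?_⟩
    rw [eval₂_sub, eval₂_pow, eval₂_X, eval₂_C, hws]
    simp
  set w' : 𝓞 k := ⟨w, hint⟩ with hw'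
  have hw2 : w' ^ 2 = (l : 𝓞 k) * (1 + l * s) := by
    apply RingOfIntegers.ext
    have h3 : ((w' ^ 2 : 𝓞 k) : k) = w ^ 2 := rfl
    rw [h3, hws, hs]
    push_cast
    rfl
  have hwP : w' ∈ P := by
    have h3 : w' ^ 2 ∈ P := by
      rw [hw2]
      exact P.mul_mem_right _ h1
    exact hP.isPrime.mem_of_pow_mem 2 h3
  have hlm : (l : 𝓞 k) * (1 + l * s) ∈ P ^ 2 := by
    rw [← hw2]
    exact Ideal.pow_mem_pow hwP 2
  apply h2
  have h3 : (l : 𝓞 k) = (l : 𝓞 k) * (1 + l * s) - l * l * s := by ring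
  rw [h3]
  refine (P ^ 2).sub_mem hlm ((P ^ 2).mul_mem_right _ ?_)
  rw [sq]
  exact Ideal.mul_mem_mul h1 h1

theorem exists_cubic (k : Type) [Field k] [NumberField k] :
    ∃ r : ℕ, 7 ≤ r ∧ Irreducible (X ^ 3 - C (r : k) * X - C (r : k) : k[X]) ∧
      ¬ IsSquare (4 * (r : k) - 27) := by
  obtain ⟨B, hB⟩ := finite_ram k
  obtain ⟨l, hlB, hl⟩ := Nat.exists_infinite_primes (max B 3 + 1)
  have hl3 : 3 < l := by omega
  have hlB' : B < l := by omega
  have hco3 : Nat.Coprime 3 l :=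
    (Nat.coprime_primes Nat.prime_three hl).2 (by omega)
  have hco2 : Nat.Coprime 2 l :=
    (Nat.coprime_primes Nat.prime_two hl).2 (by omega)
  have hco4 : Nat.Coprime 4 (l ^ 2) := by
    have : Nat.Coprime (2 ^ 2) (l ^ 2) := Nat.Coprime.pow 2 2 hco2
    exact this
  have hco27 : Nat.Coprime (27 + l) (l ^ 2) := by
    apply Nat.Coprime.pow_right
    have h1 : Nat.Coprime (3 ^ 3) l := Nat.Coprime.pow_left 3 hco3
    have h2 : Nat.Coprime 27 l := h1
    simpa using h2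
  have hne : NeZero (l ^ 2) := ⟨pow_ne_zero 2 hl.ne_zero⟩
  have hu4 : IsUnit ((4 : ℕ) : ZMod (l ^ 2)) := (ZMod.isUnit_iff_coprime 4 (l ^ 2)).2 hco4
  have hu27 : IsUnit ((27 + l : ℕ) : ZMod (l ^ 2)) := (ZMod.isUnit_iff_coprime _ (l ^ 2)).2 hco27
  obtain ⟨u, hu⟩ := hu4
  have hua : IsUnit (((27 + l : ℕ) : ZMod (l ^ 2)) * ((u⁻¹ : (ZMod (l ^ 2))ˣ) : ZMod (l ^ 2))) :=
    hu27.mul u⁻¹.isUnit
  obtain ⟨r, hrB, hr, hra⟩ := Nat.forall_exists_prime_gt_and_eq_mod hua (max B 7)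
  have h4r : ((4 * r : ℕ) : ZMod (l ^ 2)) = ((27 + l : ℕ) : ZMod (l ^ 2)) := by
    rw [Nat.cast_mul, hra, ← hu, mul_comm, mul_assoc, Units.inv_mul, mul_one]
  have hmod : (27 + l : ℕ) ≡ 4 * r [MOD l ^ 2] := by
    rw [← ZMod.natCast_eq_natCast_iff]
    exact h4r.symm
  obtain ⟨s, hs⟩ := (Nat.modEq_iff_dvd.1 hmod)
  push_cast at hs
  obtain ⟨P, hPm, hlP⟩ := x1_exists_above k l hl
  obtain ⟨R, hRm, hrR⟩ := x1_exists_above k r hr
  refine ⟨r, by omega, ?_, ?_⟩
  · exact x1_irred k r R hRm.isPrime hrR (hB r hr (by omega) R hRm.isPrime hrR)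
  · exact x1_not_square k r l hl P hPm hlP (hB l hl hlB' P hPm.isPrime hlP) s
      (by linear_combination hs)

end SC3
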